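import Pool.Agent.Lib.MP_1ae3da_al.A.Fc
import Pool.Agent.Lib.MP_1ae3da_al.Z.Av

/-! Rational elements of a group algebra and their adjoints; self adjoint ones are semisimple. -/

namespace Pool.Agent.Lib.MP_1ae3da_al.CT.A

open Polynomial Z

variable {F X : Type} [Field F] [CharZero F] [Group X] [Finite X]

/-- `a` has rational coefficients and `b` is its image under `x ↦ x⁻¹`. -/
def Adj (a b : MonoidAlgebra F X) : Prop :=
  ∃ c : X → ℚ, a = ∑ᶠ x, (c x : F) • gu F X x ∧ b = ∑ᶠ x, (c x : F) • gu F X x⁻¹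

variable {a b a' b' : MonoidAlgebra F X}

theorem Adj.add (h : Adj a b) (k : Adj a' b') : Adj (a + a') (b + b') := by
  have := Fintype.ofFinite X
  obtain ⟨c, rfl, rfl⟩ := h
  obtain ⟨d, rfl, rfl⟩ := k
  exact ⟨c + d, by simp [finsum_eq_sum_of_fintype, add_smul, Finset.sum_add_distrib],
    by simp [finsum_eq_sum_of_fintype, add_smul, Finset.sum_add_distrib]⟩

theorem Adj.smul (h : Adj a b) (r : ℚ) : Adj ((r : F) • a) ((r : F) • b) := by
  have := Fintype.ofFinite X
  obtain ⟨c, rfl, rfl⟩ := h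
  exact ⟨fun x => r * c x, by simp [finsum_eq_sum_of_fintype, mul_smul, Finset.smul_sum],
    by simp [finsum_eq_sum_of_fintype, mul_smul, Finset.smul_sum]⟩

omit [CharZero F] in
theorem adj_gu (x : X) : Adj (gu F X x) (gu F X x⁻¹) := by
  classical
  have := Fintype.ofFinite X
  exact ⟨Pi.single x 1, by simp [finsum_eq_sum_of_fintype, Pi.single_apply, apply_ite, ite_smul],
    by simp [finsum_eq_sum_of_fintype, Pi.single_apply, apply_ite, ite_smul]⟩

theorem adj_one : Adj (1 : MonoidAlgebra F X) 1 := by simpa [gu_one] using adj_gu (F := F) (1 : X)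

theorem adj_zero : Adj (0 : MonoidAlgebra F X) 0 := by
  simpa using (adj_one (F := F) (X := X)).smul 0

theorem Adj.neg (h : Adj a b) : Adj (-a) (-b) := by simpa using h.smul (-1)

theorem Adj.sub (h : Adj a b) (k : Adj a' b') : Adj (a - a') (b - b') := by
  simpa only [sub_eq_add_neg] using h.add k.neg

theorem adj_sum {I : Type} (s : Finset I) {f g : I → MonoidAlgebra F X}
    (h : ∀ i ∈ s, Adj (f i) (g i)) : Adj (∑ i ∈ s, f i) (∑ i ∈ s, g i) := by
  classical
  induction s using Finset.induction_on with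
  | empty => simpa using adj_zero
  | insert i s hi ih =>
    rw [Finset.sum_insert hi, Finset.sum_insert hi]
    exact (h i (Finset.mem_insert_self _ _)).add (ih fun j hj => h j (Finset.mem_insert_of_mem hj))

theorem Adj.mul (h : Adj a b) (k : Adj a' b') : Adj (a * a') (b' * b) := by
  have := Fintype.ofFinite X
  obtain ⟨c, rfl, rfl⟩ := h
  obtain ⟨d, rfl, rfl⟩ := k
  simp only [finsum_eq_sum_of_fintype]
  rw [Finset.sum_mul, Finset.mul_sum]
  refine adj_sum _ fun x _ => ?_
  rw [Finset.sum_mul, Finset.mul_sum]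
  refine adj_sum _ fun y _ => ?_
  have := (adj_gu (F := F) (x * y)).smul (c x * d y)
  rw [smul_mul_smul_comm, smul_mul_smul_comm, gu_mul, gu_mul, mul_comm (d y : F)]
  rwa [mul_inv_rev, Rat.cast_mul] at this

theorem Adj.symm (h : Adj a b) : Adj b a := by
  have := Fintype.ofFinite X
  obtain ⟨c, rfl, rfl⟩ := h
  simp only [finsum_eq_sum_of_fintype]
  exact adj_sum _ fun x _ => by simpa using (adj_gu (F := F) x⁻¹).smul (c x)

theorem adj_av (E : Subgroup X) : Adj (av F E) (av F E) := by
  have := Fintype.ofFinite E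
  have := (adj_sum (Finset.univ : Finset E) fun x _ => adj_gu (F := F) (x : X)).smul
    (Nat.card E : ℚ)⁻¹
  rw [Rat.cast_inv, Rat.cast_natCast, ← zAv_def,
    ← Equiv.sum_comp (Equiv.inv E) fun x : E => gu F X (x : X)⁻¹] at this
  simpa [zAv_def] using this

theorem adj_an (U : Subgroup X) (x : X) : Adj (an F U x) (an F U x⁻¹) := by
  simpa only [an, mul_assoc] using ((adj_av U).mul (adj_gu x)).mul (adj_av U)

theorem Adj.pos (h : Adj a b) (k : a * b = 0) : a = 0 := by
  classical
  have := Fintype.ofFinite X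
  obtain ⟨c, rfl, rfl⟩ := h
  simp only [finsum_eq_sum_of_fintype] at k ⊢
  have e := congrArg (zAvCo F (1 : X)) k
  simp only [Finset.sum_mul, Finset.mul_sum, smul_mul_smul_comm, gu_mul, map_sum, map_smul,
    zAv_co, mul_inv_eq_one, smul_eq_mul, mul_ite, mul_one, mul_zero, map_zero] at e
  have e2 : ∑ x, c x * c x = 0 := by
    have : ((∑ x, c x * c x : ℚ) : F) = 0 := by simpa using e
    exact_mod_cast this
  have e3 := (Finset.sum_eq_zero_iff_of_nonneg fun x _ => mul_self_nonneg (c x)).1 e2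
  exact Finset.sum_eq_zero fun x hx => by rw [mul_self_eq_zero.1 (e3 x hx), Rat.cast_zero, zero_smul]

theorem Adj.pow (h : Adj a b) (n : ℕ) : Adj (a ^ n) (b ^ n) := by
  induction n with
  | zero => simpa using adj_one
  | succ n ih =>
    rw [pow_succ, pow_succ']
    exact ih.mul h

theorem Adj.aeval (h : Adj a b) (P : ℚ[X]) : Adj (aeval a P) (aeval b P) := by
  induction P using Polynomial.induction_on' with
  | add p q hp hq =>
    rw [map_add, map_add]
    exact hp.add hq
  | monomial n r =>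
    rw [aeval_monomial, aeval_monomial, ← Algebra.smul_def, ← Algebra.smul_def,
      ← Rat.cast_smul_eq_qsmul F, ← Rat.cast_smul_eq_qsmul F]
    exact (h.pow n).smul r

theorem Adj.int (h : Adj a b) : IsIntegral ℚ a := by
  have := Fintype.ofFinite X
  let φ : MonoidAlgebra ℚ X →ₐ[ℚ] MonoidAlgebra F X := MonoidAlgebra.lift ℚ _ X
    { toFun := gu F X, map_one' := gu_one, map_mul' := fun x y => (gu_mul x y).symm }
  obtain ⟨c, rfl, -⟩ := h
  have e : ∑ᶠ x, (c x : F) • gu F X x = φ (∑ x, MonoidAlgebra.single x (c x)) := by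
    simp [φ, finsum_eq_sum_of_fintype, Rat.cast_smul_eq_qsmul]
  rw [e]
  exact (Algebra.IsIntegral.isIntegral _).map φ

/-- a self adjoint rational element is semisimple. -/
theorem Adj.ss [IsAlgClosed F] (h : Adj a a) : Ss F a := by
  have hi := h.int
  have sq : Squarefree (minpoly ℚ a) := fun P ⟨Q, hQ⟩ => by
    have y := h.aeval (P * Q)
    have z := y.pos (by
      rw [← map_mul, show P * Q * (P * Q) = minpoly ℚ a * Q by rw [hQ]; ring, map_mul,
        minpoly.aeval, zero_mul])
    obtain ⟨W, hW⟩ := minpoly.dvd ℚ a z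
    have n : P * Q ≠ 0 := fun e => minpoly.ne_zero hi (by rw [hQ, mul_assoc, e, mul_zero])
    refine IsUnit.of_mul_eq_one W (mul_left_cancel₀ n ?_)
    rw [mul_one]
    conv_rhs => rw [hW, hQ]
    ring
  exact ss_of (P := (minpoly ℚ a).map (algebraMap ℚ F))
    (PerfectField.separable_iff_squarefree.2 sq).map
    (by rw [aeval_map_algebraMap, minpoly.aeval])

end Pool.Agent.Lib.MP_1ae3da_al.CT.A
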