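import Mathlib

/-! The half twist in a monoid with braid relations. -/

namespace Pool.Agent.Lib.MP_1ae3da_al.CT.A

variable {M : Type} [Monoid M]

/-- `s 0, ..., s (n - 1)` satisfy the braid relations of type `A`. -/
structure Brd (n : ℕ) (s : ℕ → M) : Prop where
  far : ∀ i j, i + 1 < j → j < n → s i * s j = s j * s i
  br : ∀ i, i + 1 < n → s i * s (i + 1) * s i = s (i + 1) * s i * s (i + 1)

/-- `s 0 * ... * s (m - 1)`. -/
def wU (s : ℕ → M) : ℕ → M
  | 0 => 1
  | m + 1 => wU s m * s m

/-- `s (m - 1) * ... * s 0`. -/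
def wD (s : ℕ → M) : ℕ → M
  | 0 => 1
  | m + 1 => s m * wD s m

/-- the half twist on `s 0, ..., s (m - 1)`. -/
def wH (s : ℕ → M) : ℕ → M
  | 0 => 1
  | m + 1 => wH s m * wD s (m + 1)

/-- `s (m - 1) * ... * s 0 * s 0 * ... * s (m - 1)`. -/
def wJ (s : ℕ → M) : ℕ → M
  | 0 => 1
  | m + 1 => s m * wJ s m * s m

/-- the product of the first elements `wJ`. -/
def wZ (s : ℕ → M) : ℕ → M
  | 0 => 1
  | m + 1 => wZ s m * wJ s (m + 1)

variable {n : ℕ} {s : ℕ → M}

theorem wJ_eq (m : ℕ) : wJ s m = wD s m * wU s m := by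
  induction m with
  | zero => simp [wJ, wD, wU]
  | succ m ih => rw [wJ, wD, wU, ih]; simp only [mul_assoc]

theorem wU_comm {x : M} {m : ℕ} (h : ∀ i < m, Commute x (s i)) : Commute x (wU s m) := by
  induction m with
  | zero => exact Commute.one_right _
  | succ m ih => exact (ih fun i hi => h i (by omega)).mul_right (h m (by omega))

theorem wD_comm {x : M} {m : ℕ} (h : ∀ i < m, Commute x (s i)) : Commute x (wD s m) := by
  induction m with
  | zero => exact Commute.one_right _
  | succ m ih => exact (h m (by omega)).mul_right (ih fun i hi => h i (by omega))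

theorem wH_comm {x : M} {m : ℕ} (h : ∀ i < m, Commute x (s i)) : Commute x (wH s m) := by
  induction m with
  | zero => exact Commute.one_right _
  | succ m ih => exact (ih fun i hi => h i (by omega)).mul_right (wD_comm h)

theorem Brd.cm (h : Brd n s) {m j : ℕ} (hm : m < j) (hj : j < n) : ∀ i < m, Commute (s j) (s i) :=
  fun i hi => (h.far i j (by omega) hj).symm

theorem Brd.wU_s (h : Brd n s) {m i : ℕ} (hi : i + 1 < m) (hm : m ≤ n) :
    wU s m * s i = s (i + 1) * wU s m := by
  induction m with
  | zero => omega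
  | succ m ih =>
    rcases Nat.lt_or_ge (i + 1) m with k | k
    · rw [wU, mul_assoc, ← h.far i m k (by omega), ← mul_assoc, ih k (by omega), mul_assoc]
    · obtain rfl : m = i + 1 := by omega
      have c := (wU_comm (h.cm (Nat.lt_succ_self i) (by omega))).eq
      rw [wU, wU, mul_assoc, mul_assoc, ← mul_assoc (s i), h.br i (by omega)]
      simp only [← mul_assoc]
      rw [c]

theorem Brd.wD_s (h : Brd n s) {m i : ℕ} (hi : i + 1 < m) (hm : m ≤ n) :
    wD s m * s (i + 1) = s i * wD s m := by
  induction m with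
  | zero => omega
  | succ m ih =>
    rcases Nat.lt_or_ge (i + 1) m with k | k
    · rw [wD, mul_assoc, ih k (by omega), ← mul_assoc, ← h.far i m k (by omega), mul_assoc]
    · obtain rfl : m = i + 1 := by omega
      have c := (wD_comm (h.cm (Nat.lt_succ_self i) (by omega))).eq
      rw [wD, wD, mul_assoc, mul_assoc, ← c]
      simp only [← mul_assoc]
      rw [h.br i (by omega)]

theorem Brd.wH_eq (h : Brd n s) {m : ℕ} (hm : m + 1 ≤ n) :
    wH s (m + 1) = wU s (m + 1) * wH s m := by
  induction m with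
  | zero => simp [wH, wU, wD]
  | succ m ih =>
    have c := (wH_comm (h.cm (Nat.lt_succ_self m) (by omega : m + 1 < n))).eq
    rw [wH, wU]
    conv_lhs => rw [ih (by omega), wD]
    conv_rhs => rw [wH]
    simp only [mul_assoc]
    rw [← mul_assoc (wH s m), ← c, mul_assoc]

theorem Brd.wH_s (h : Brd n s) {m : ℕ} (hm : m ≤ n) {i j : ℕ} (hij : i + j + 1 = m) :
    wH s m * s i = s j * wH s m := by
  induction m generalizing i j with
  | zero => omega
  | succ m ih =>
    cases i with
    | succ i =>
      rw [wH, mul_assoc, h.wD_s (by omega) hm, ← mul_assoc, ih (by omega) (j := j) (by omega),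
        mul_assoc]
    | zero =>
      cases j with
      | zero =>
        obtain rfl : m = 0 := by omega
        simp [wH, wD]
      | succ j =>
        rw [h.wH_eq hm, mul_assoc, ih (by omega) (j := j) (by omega), ← mul_assoc,
          h.wU_s (by omega) hm, mul_assoc]

theorem Brd.wJ_s (h : Brd n s) {m : ℕ} (hm : m ≤ n) : ∀ i, i + 1 < m → Commute (wJ s m) (s i) :=
  fun i hi => by
    change _ = _
    rw [wJ_eq, mul_assoc, h.wU_s hi hm, ← mul_assoc, h.wD_s hi hm, mul_assoc]

theorem Brd.wH_sq (h : Brd n s) {m : ℕ} (hm : m ≤ n) : wH s m * wH s m = wZ s m := by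
  induction m with
  | zero => simp [wH, wZ]
  | succ m ih =>
    have c := (wH_comm (m := m) fun i hi => h.wJ_s hm i (by omega)).eq
    rw [wZ, ← ih (by omega), mul_assoc, ← c, wJ_eq]
    conv_lhs => arg 2; rw [h.wH_eq hm]
    rw [wH]
    simp only [mul_assoc]

end Pool.Agent.Lib.MP_1ae3da_al.CT.A
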