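import Pool.Agent.Lib.MP_1ae3da_al.A.Qi

/-! The type `A` machine: the relations of the family `tV`. -/

namespace Pool.Agent.Lib.MP_1ae3da_al.CT.A

open Equiv

variable {F A N L : Type} [Field F] [Ring A] [Algebra F A] [Group N]
  {q : ℕ} {u v Q : F} {n : ℕ} {T : Subgroup N} {s : ℕ → N} {ι : N → A}
  {ev : (L → F) →ₐ[F] A} {S : Finset L} {sw : ℕ → L → L} {r : ℕ → ℕ → L → Prop}
  {x : ℕ → L → ℤ} {τ0 : ℕ → A} {i j : ℕ} {φ ψ : A}

theorem ev_mul (f g : L → F) : ev f * ev g = ev fun l => f l * g l := (map_mul ev f g).symm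

theorem ev_add (f g : L → F) : ev f + ev g = ev fun l => f l + g l := (map_add ev f g).symm

theorem ev_sub (f g : L → F) : ev f - ev g = ev fun l => f l - g l := (map_sub ev f g).symm

theorem ev_smul (c : F) (f : L → F) : c • ev f = ev fun l => c * f l := (map_smul ev c f).symm

theorem ev_one : ev (fun _ => 1) = 1 := map_one ev

theorem ev_comm (f g : L → F) : Commute (ev f) (ev g) := (Commute.all f g).map ev

/-- `φ` intertwines the functions along `w`. -/
def Itw (ev : (L → F) →ₐ[F] A) (w : L → L) (φ : A) : Prop :=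
  ∀ f, φ * ev f = ev (fun l => f (w l)) * φ

theorem Itw.mul {w : L → L} (h : Itw ev w φ) (g : L → F) : Itw ev w (φ * ev g) := fun f => by
  rw [mul_assoc, (ev_comm g f).eq, ← mul_assoc, h, mul_assoc]

theorem sw0 (i : ℕ) : swap i (i + 1) (i + 2) = i + 2 := swap_apply_of_ne_of_ne (by omega) (by omega)

theorem sw1 (i : ℕ) : swap (i + 1) (i + 1 + 1) i = i := swap_apply_of_ne_of_ne (by omega) (by omega)

namespace Pre
variable (h : Pre q u n T s ι ev S sw r x τ0)
include h

theorem ext {f g : L → F} : ev f = ev g ↔ ∀ l ∈ S, f l = g l := by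
  rw [← sub_eq_zero, ← map_sub, h.ker]
  simp only [Pi.sub_apply, sub_eq_zero]

theorem mvE (hi : i < n) (k : Itw ev (sw i) φ) (a b : ℕ) :
    φ * ev (fE F r a b) = ev (fE F r (swap i (i + 1) a) (swap i (i + 1) b)) * φ := by
  rw [k]
  congr 2
  funext l
  rw [fE, fE, propext (h.rsw i hi a b l)]

theorem mvA (hi : i < n) (k : Itw ev (sw i) φ) (a b : ℕ) :
    φ * ev (fA r x Q a b) = ev (fA r x Q (swap i (i + 1) a) (swap i (i + 1) b)) * φ := by
  rw [k]
  congr 2
  funext l
  rw [fA, fA, propext (h.rsw i hi a b l), h.xsw i hi, h.xsw i hi]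

theorem mvH (hi : i < n) (k : Itw ev (sw i) φ) (a b : ℕ) :
    φ * ev (fH r x u v a b) = ev (fH r x u v (swap i (i + 1) a) (swap i (i + 1) b)) * φ := by
  rw [k]
  congr 2
  funext l
  rw [fH, fH, propext (h.rsw i hi a b l), h.xsw i hi, h.xsw i hi]

theorem r21 (hi : i < n) {l : L} (hl : l ∈ S) : r (i + 1) i l ↔ r i (i + 1) l :=
  ⟨h.rs l hl _ hi _ hi.le, h.rs l hl _ hi.le _ hi⟩

theorem b0 (hi : i < n) {l : L} (hl : l ∈ S) (k : r i (i + 1) l) : x i l - x (i + 1) l ≠ 0 :=
  sub_ne_zero.2 (h.ov2 l hl i hi k)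

theorem eφ (hi : i < n) (k : Itw ev (sw i) φ) :
    φ * ev (fE F r i (i + 1)) = ev (fE F r i (i + 1)) * φ := by
  rw [h.mvE hi k, swap_apply_left, swap_apply_right]
  congr 1
  exact h.ext.2 fun l hl => by rw [fE, fE, propext (h.r21 hi hl)]

/-- a function that lives on the related weights is absorbed by the idempotent. -/
theorem eabs {a b : ℕ} {g : L → F} (k : ∀ l ∈ S, ¬ r a b l → g l = 0) :
    ev g = ev (fE F r a b) * ev g := by
  rw [ev_mul]
  refine h.ext.2 fun l hl => ?_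
  by_cases z : r a b l
  · rw [fE, if_pos z, one_mul]
  · rw [k l hl z, mul_zero]

theorem eA {a b : ℕ} : ev (fA r x Q a b) = ev (fE F r a b) * ev (fA r x Q a b) :=
  h.eabs fun _ _ z => if_neg z

theorem a21 (hQ : Gq Q) (hi : i < n) : ev (fA r x Q (i + 1) i) =
    -((Q - 1) • ev (fE F r i (i + 1))) - ev (fA r x Q i (i + 1)) := by
  rw [← neg_smul, ev_smul, ev_sub]
  refine h.ext.2 fun l hl => ?_
  by_cases z : r i (i + 1) l
  · rw [fA, fA, fE, propext (h.r21 hi hl), if_pos z, if_pos z, if_pos z, mul_one,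
      ← hQ.neg (h.b0 hi hl z), neg_sub]
  · rw [fA, fA, fE, propext (h.r21 hi hl), if_neg z, if_neg z, if_neg z, mul_zero, sub_zero]

theorem sq_exp (hQ : Gq Q) (hi : i < n) (k : Itw ev (sw i) φ) :
    (φ - ev (fA r x Q i (i + 1))) * (φ - ev (fA r x Q i (i + 1))) -
        (Q - 1) • (ev (fE F r i (i + 1)) * (φ - ev (fA r x Q i (i + 1)))) =
      φ * φ - ev (fA r x Q i (i + 1)) * ev (fA r x Q (i + 1) i) := by
  have e := h.mvA (Q := Q) hi k i (i + 1)
  rw [swap_apply_left, swap_apply_right] at e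
  have c := (ev_comm (ev := ev) (fE F r i (i + 1)) (fA r x Q i (i + 1))).eq
  rw [h.a21 hQ hi] at e ⊢
  simp only [mul_sub, sub_mul, e, smul_sub, neg_mul, mul_neg, smul_mul_assoc, mul_smul_comm, c]
  abel

theorem br_fam (hQ : Gq Q) (hi : i + 1 < n) (k1 : Itw ev (sw i) φ) (k2 : Itw ev (sw (i + 1)) ψ)
    (s1 : φ * φ = Q • ι (s i * s i) + ev (fA r x Q i (i + 1)) * ev (fA r x Q (i + 1) i))
    (s2 : ψ * ψ = Q • ι (s (i + 1) * s (i + 1)) +
      ev (fA r x Q (i + 1) (i + 1 + 1)) * ev (fA r x Q (i + 1 + 1) (i + 1))) :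
    (φ - ev (fA r x Q i (i + 1))) * (ψ - ev (fA r x Q (i + 1) (i + 1 + 1))) *
        (φ - ev (fA r x Q i (i + 1))) -
      (ψ - ev (fA r x Q (i + 1) (i + 1 + 1))) * (φ - ev (fA r x Q i (i + 1))) *
        (ψ - ev (fA r x Q (i + 1) (i + 1 + 1))) = φ * ψ * φ - ψ * φ * ψ := by
  have hi0 : i < n := by omega
  have tr : ∀ l ∈ S, (r i (i + 1) l → r (i + 1) (i + 2) l → r i (i + 2) l) ∧
      (r i (i + 1) l → r i (i + 2) l → r (i + 1) (i + 2) l) ∧
      (r (i + 1) (i + 2) l → r i (i + 2) l → r i (i + 1) l) := fun l hl =>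
    ⟨h.rt l hl _ (by omega) _ (by omega) _ (by omega) (by omega) (by omega) (by omega),
      fun a => h.rt l hl _ (by omega) _ (by omega) _ (by omega) (by omega) (by omega) (by omega)
        ((h.r21 hi0 hl).2 a),
      fun a b => h.rt l hl _ (by omega) _ (by omega) _ (by omega) (by omega) (by omega) (by omega)
        b ((h.r21 hi hl).2 a)⟩
  have sc : ∀ l ∈ S,
      fA r x Q (i + 1) (i + 2) l * fA r x Q i (i + 1) l + fA r x Q (i + 1) i l * fA r x Q i (i + 2) l
        = fA r x Q i (i + 2) l * fA r x Q (i + 1) (i + 2) l ∧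
      fA r x Q i (i + 1) l * fA r x Q (i + 1) (i + 2) l +
        fA r x Q (i + 2) (i + 1) l * fA r x Q i (i + 2) l
        = fA r x Q i (i + 2) l * fA r x Q i (i + 1) l := fun l hl => by
    obtain ⟨t1, t2, t3⟩ := tr l hl
    have r32 : r (i + 2) (i + 1) l ↔ r (i + 1) (i + 2) l := h.r21 hi hl
    unfold fA
    rw [propext (h.r21 hi0 hl), propext r32]
    by_cases a : r i (i + 1) l <;> by_cases b : r (i + 1) (i + 2) l <;>
      by_cases c : r i (i + 2) l <;> simp only [a, b, c, if_true, if_false, mul_zero, zero_mul,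
        add_zero, zero_add, and_self] <;> try tauto
    have ha := h.b0 hi0 hl a
    have hb : x (i + 1) l - x (i + 2) l ≠ 0 := h.b0 hi hl b
    have hc := sub_ne_zero.2 (h.ov3 l hl i hi c)
    have e1 := hQ.i1 ha hb (by rwa [sub_add_sub_cancel])
    have e2 := hQ.i1 hb ha (by rwa [sub_add_sub_cancel'])
    rw [sub_add_sub_cancel, neg_sub] at e1
    rw [sub_add_sub_cancel', neg_sub] at e2
    exact ⟨e1, e2⟩
  refine br_exp (a21 := ev (fA r x Q (i + 1) i)) (a13 := ev (fA r x Q i (i + 2)))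
    (a32 := ev (fA r x Q (i + 1 + 1) (i + 1))) ?_ ?_ ?_ ?_ ?_ ?_ ?_ ?_ ?_
  · rw [h.mvA hi0 k1, swap_apply_left, swap_apply_right]
  · rw [h.mvA hi0 k1, swap_apply_left, sw0]
  · rw [h.mvA hi0 k1, swap_apply_right, sw0]
  · rw [h.mvA hi k2, swap_apply_left, swap_apply_right]
  · rw [h.mvA hi k2, sw1, swap_apply_right]
  · rw [h.mvA hi k2, sw1, swap_apply_left]
  · simp only [ev_mul, ev_add]
    exact h.ext.2 fun l hl => (sc l hl).1
  · simp only [ev_mul, ev_add]
    exact h.ext.2 fun l hl => (sc l hl).2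
  · have e : ι (s i * s i) * ev (fA r x Q i (i + 2)) =
        ι (s (i + 1) * s (i + 1)) * ev (fA r x Q i (i + 2)) := by
      rw [h.eA, ← mul_assoc, h.e2 i hi, mul_assoc]
    rw [s1, s2, add_mul, add_mul, smul_mul_assoc, smul_mul_assoc, e,
      add_assoc (Q • _), add_assoc (Q • _)]
    congr 1
    simp only [ev_mul, ev_add]
    refine h.ext.2 fun l hl => ?_
    linear_combination fA r x Q i (i + 1) l * (sc l hl).1 - fA r x Q (i + 1) (i + 2) l * (sc l hl).2

theorem far_exp (hij : i + 1 < j) (hj : j < n) (k1 : Itw ev (sw i) φ) (k2 : Itw ev (sw j) ψ) :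
    (φ - ev (fA r x Q i (i + 1))) * (ψ - ev (fA r x Q j (j + 1))) -
      (ψ - ev (fA r x Q j (j + 1))) * (φ - ev (fA r x Q i (i + 1))) = φ * ψ - ψ * φ := by
  have e1 := h.mvA (Q := Q) (by omega : i < n) k1 j (j + 1)
  have e2 := h.mvA (Q := Q) hj k2 i (i + 1)
  rw [swap_apply_of_ne_of_ne (by omega) (by omega), swap_apply_of_ne_of_ne (by omega) (by omega)]
    at e1 e2
  simp only [mul_sub, sub_mul, e1, e2, (ev_comm (fA r x Q i (i + 1)) (fA r x Q j (j + 1))).eq]
  abel

theorem p_int (hi : i < n) : Itw ev (sw i) (pV ev r x τ0 u v i) := Itw.mul (h.int i hi) _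

variable [CharZero F]

theorem gu : Gq (u * u) := Gd.gq (Or.inr (Or.inl rfl)) h.q2 h.uu

theorem u0 : u ≠ 0 := left_ne_zero_of_mul h.gu.1

theorem p_u : pV ev r x τ0 u u i = τ0 i + ev (fA r x (u * u) i (i + 1)) := by
  have : ev (fH r x u u i (i + 1)) = 1 := by
    rw [← ev_one (ev := ev)]
    congr 1
    funext l
    unfold fH
    split_ifs with a b
    · exact div_self (h.gu.ps_ne b)
    · rfl
    · exact div_self h.u0
  rw [pV, this, mul_one]

theorem t_u : tV ev r x τ0 u u i = τ0 i := by rw [tV, h.p_u, add_sub_cancel_right]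

theorem p_v : pV ev r x τ0 u v i = pV ev r x τ0 u u i * ev (fH r x u v i (i + 1)) := by
  rw [h.p_u, pV]

theorem p_sq (hv : Gd u v) (hi : i < n) : pV ev r x τ0 u v i * pV ev r x τ0 u v i =
    (v * v) • ι (s i * s i) + ev (fA r x (v * v) i (i + 1)) * ev (fA r x (v * v) (i + 1) i) := by
  have hV := hv.gq h.q2 h.uu
  have e := h.sq_exp h.gu hi (h.p_int (v := u) hi)
  rw [← tV, h.t_u, h.qd i hi, add_sub_cancel_right, eq_sub_iff_add_eq] at e
  have m := h.mvH (v := v) hi (h.p_int (v := u) hi) (i + 1) i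
  rw [swap_apply_left, swap_apply_right] at m
  have z : ι (s i * s i) * ev (fun l => u * u * (fH r x u v (i + 1) i l * fH r x u v i (i + 1) l)
      - v * v) = ev fun l => u * u * (fH r x u v (i + 1) i l * fH r x u v i (i + 1) l) - v * v := by
    rw [h.eabs (a := i) (b := i + 1) fun l hl z => ?_, ← mul_assoc, h.e1 i hi]
    have := h.u0
    rw [fH, fH, propext (h.r21 hi hl), if_neg z, if_neg z]
    field_simp
    ring
  have z2 : (u * u) • (ι (s i * s i) * (ev (fH r x u v (i + 1) i) * ev (fH r x u v i (i + 1)))) =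
      (v * v) • ι (s i * s i) +
        ev fun l => u * u * (fH r x u v (i + 1) i l * fH r x u v i (i + 1) l) - v * v := by
    rw [← z, ← ev_sub, ← ev_smul, ← ev_mul, mul_sub, mul_smul_comm,
      show (ev fun _ => v * v) = algebraMap F A (v * v) from ev.commutes _, ← Algebra.commutes,
      ← Algebra.smul_def, add_sub_cancel]
  rw [h.p_v, mul_assoc, ← mul_assoc (ev _), ← m, ← mul_assoc, ← mul_assoc, ← e, mul_assoc, add_mul,
    smul_mul_assoc, z2, add_assoc (_ • _)]
  congr 1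
  simp only [ev_mul, ev_add]
  refine h.ext.2 fun l hl => ?_
  unfold fA fH
  rw [propext (h.r21 hi hl)]
  by_cases k : r i (i + 1) l
  · have b := h.b0 hi hl k
    rw [← neg_sub (x i l) (x (i + 1) l)]
    generalize x i l - x (i + 1) l = c at b
    have : ps (u * u) c * ((if 2 ≤ -c then ps (v * v) (-c) / ps (u * u) (-c) else 1) *
        if 2 ≤ c then ps (v * v) c / ps (u * u) c else 1) = ps (v * v) c := by
      split_ifs with k1 k2 k2
      · omega
      · have := h.gu.ps_ne k1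
        rw [ps_neg] at this
        rw [ps_neg, ps_neg, mul_one, mul_div_cancel₀ _ this]
      · rw [one_mul, mul_div_cancel₀ _ (h.gu.ps_ne k2)]
      · obtain rfl | rfl : c = 1 ∨ c = -1 := by omega
        · rw [h.gu.ps_1, hV.ps_1, zero_mul]
        · rw [ps_neg, ps_neg, h.gu.ps_1, hV.ps_1, zero_mul]
    simp only [if_pos k]
    generalize ((if 2 ≤ -c then ps (v * v) (-c) / ps (u * u) (-c) else 1) *
        if 2 ≤ c then ps (v * v) c / ps (u * u) c else 1) = P at this ⊢
    rw [ps, ps] at this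
    linear_combination this
  · have := h.u0
    simp only [if_neg k]
    field_simp
    ring

theorem t_sq (hv : Gd u v) (hi : i < n) : tV ev r x τ0 u v i * tV ev r x τ0 u v i =
    (v * v) • ι (s i * s i) + (v * v - 1) • (ev (fE F r i (i + 1)) * tV ev r x τ0 u v i) := by
  have e := h.sq_exp (hv.gq h.q2 h.uu) hi (h.p_int (v := v) hi)
  rw [← tV, h.p_sq hv hi, add_sub_cancel_right, sub_eq_iff_eq_add] at e
  exact e

theorem t_sq1 (hi : i < n) : tV ev r x τ0 u 1 i * tV ev r x τ0 u 1 i = ι (s i * s i) := by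
  simpa using h.t_sq (Or.inl rfl) hi

theorem brd (hv : Gd u v) : Brd n (tV ev r x τ0 u v) := by
  have gu : Gd u u := Or.inr (Or.inl rfl)
  refine ⟨fun i j hij hj => ?_, fun i hi => ?_⟩
  · have hi : i < n := by omega
    have e := h.far_exp (Q := u * u) hij hj (h.p_int (v := u) hi) (h.p_int (v := u) hj)
    rw [← tV, ← tV, h.t_u, h.t_u, h.bt.far i j hij hj, sub_self, eq_comm, sub_eq_zero] at e
    have e1 := h.mvH (v := v) hi (h.p_int (v := u) hi) j (j + 1)
    have e2 := h.mvH (v := v) hj (h.p_int (v := u) hj) i (i + 1)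
    rw [swap_apply_of_ne_of_ne (by omega) (by omega), swap_apply_of_ne_of_ne (by omega) (by omega)]
      at e1 e2
    rw [← sub_eq_zero, tV, tV, h.far_exp hij hj (h.p_int hi) (h.p_int hj), sub_eq_zero,
      h.p_v (i := i), h.p_v (i := j), mul_assoc, ← mul_assoc (ev _), ← e2, mul_assoc (pV _ _ _ _ _ _ j),
      mul_assoc (pV _ _ _ _ _ _ j), ← mul_assoc (ev _), ← e1, mul_assoc (pV _ _ _ _ _ _ i),
      ← mul_assoc, e, mul_assoc, (ev_comm _ _).eq]
  · have hi0 : i < n := by omega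
    have k1 := h.p_int (v := u) hi0
    have k2 := h.p_int (v := u) hi
    have e := h.br_fam h.gu hi k1 k2 (h.p_sq gu hi0) (h.p_sq gu hi)
    rw [← tV, ← tV, h.t_u, h.t_u, h.bt.br i hi, sub_self, eq_comm, sub_eq_zero] at e
    rw [← sub_eq_zero, tV, tV, h.br_fam (hv.gq h.q2 h.uu) hi (h.p_int hi0) (h.p_int hi)
      (h.p_sq hv hi0) (h.p_sq hv hi), sub_eq_zero, h.p_v (i := i), h.p_v (i := i + 1)]
    have a1 := h.mvH (v := v) hi k2 i (i + 2)
    have a2 := h.mvH (v := v) hi0 k1 (i + 1) (i + 2)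
    have a3 := h.mvH (v := v) hi0 k1 i (i + 2)
    have a4 := h.mvH (v := v) hi k2 i (i + 1)
    rw [sw1, swap_apply_right] at a1
    rw [swap_apply_right, sw0] at a2
    rw [swap_apply_left, sw0] at a3
    rw [sw1, swap_apply_left] at a4
    generalize pV ev r x τ0 u u i = φ at *
    generalize pV ev r x τ0 u u (i + 1) = ψ at *
    have c1 := (ev_comm (ev := ev) (fH r x u v i (i + 1)) (fH r x u v i (i + 2))).eq
    have c2 := (ev_comm (ev := ev) (fH r x u v i (i + 1)) (fH r x u v (i + 1) (i + 2))).eq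
    have c3 := (ev_comm (ev := ev) (fH r x u v i (i + 2)) (fH r x u v (i + 1) (i + 2))).eq
    change φ * ev (fH r x u v i (i + 1)) * (ψ * ev (fH r x u v (i + 1) (i + 2))) *
      (φ * ev (fH r x u v i (i + 1))) = ψ * ev (fH r x u v (i + 1) (i + 2)) *
      (φ * ev (fH r x u v i (i + 1))) * (ψ * ev (fH r x u v (i + 1) (i + 2)))
    change ψ * ev (fH r x u v i (i + 1)) = ev (fH r x u v i (i + 2)) * ψ at a4
    generalize ev (fH r x u v i (i + 1)) = h12 at *
    generalize ev (fH r x u v i (i + 2)) = h13 at *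
    generalize ev (fH r x u v (i + 1) (i + 2)) = h23 at *
    calc φ * h12 * (ψ * h23) * (φ * h12) = φ * (h12 * ψ) * (h23 * φ) * h12 := by
          simp only [mul_assoc]
      _ = φ * ψ * (h13 * φ) * (h13 * h12) := by rw [← a1, ← a3]; simp only [mul_assoc]
      _ = ψ * φ * ψ * (h12 * (h13 * h23)) := by
          rw [← a2, ← e, c3, ← mul_assoc h12, c2, mul_assoc h23, c1]; simp only [mul_assoc]
      _ = ψ * φ * (h13 * ψ) * (h13 * h23) := by rw [← a4]; simp only [mul_assoc]
      _ = ψ * (h23 * φ) * (h12 * ψ) * h23 := by rw [← a1, ← a3]; simp only [mul_assoc]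
      _ = _ := by simp only [mul_assoc]

omit [CharZero F] in
theorem a_tor (hi : i < n) {t : N} (ht : t ∈ T) :
    ev (fA r x Q i (i + 1)) * ι t = ι (s i * t * (s i)⁻¹) * ev (fA r x Q i (i + 1)) := by
  rw [← (h.ie t ht _).eq, h.eA, ← mul_assoc, ← mul_assoc, h.eT i hi t ht]

omit [CharZero F] in
theorem t_tor (hi : i < n) {t : N} (ht : t ∈ T) :
    tV ev r x τ0 u v i * ι t = ι (s i * t * (s i)⁻¹) * tV ev r x τ0 u v i := by
  rw [tV, pV, sub_mul, mul_sub, h.a_tor hi ht, mul_assoc _ _ (ι t), ← (h.ie t ht _).eq,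
    ← mul_assoc, add_mul, h.tor i hi t ht, h.a_tor hi ht, ← mul_add, mul_assoc]

omit [CharZero F] in
theorem mvZ (hi : i < n) (k : Itw ev (sw i) φ) (g : ℤ → F) :
    φ * ev (fun l => g (x i l)) = ev (fun l => g (x (i + 1) l)) * φ := by
  rw [k]
  simp only [h.xsw i hi, swap_apply_left]

theorem t_z (hv : Gd u v) (hi : i < n) :
    tV ev r x τ0 u v i * zV ev x v i * tV ev r x τ0 u v i = ι (s i * s i) * zV ev x v (i + 1) := by
  have hV := hv.gq h.q2 h.uu
  have e : tV ev r x τ0 u v i * zV ev x v i = ev (fun l => (v * v) ^ ((i : ℤ) + x (i + 1) l)) *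
      (tV ev r x τ0 u v i - (v * v - 1) • ev (fE F r i (i + 1))) := by
    rw [tV, zV, sub_mul, h.mvZ hi (h.p_int hi) fun c => (v * v) ^ ((i : ℤ) + c), sub_sub, mul_sub]
    congr 1
    rw [ev_smul, ev_add, ev_mul, ev_mul]
    refine h.ext.2 fun l hl => ?_
    unfold fA fE
    split_ifs with k
    · have b := hV.2 _ (h.b0 hi hl k)
      have m := qi_mul (Q := v * v) (x i l - x (i + 1) l)
      rw [show (i : ℤ) + x i l = i + x (i + 1) l + (x i l - x (i + 1) l) by ring,
        zpow_add₀ hV.1 _ (x i l - _), eq_add_of_sub_eq m.symm]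
      generalize qi (v * v) (x i l - x (i + 1) l) = y at b
      field_simp
      ring
    · simp
  rw [e, mul_assoc, sub_mul, h.t_sq hv hi, smul_mul_assoc, add_sub_cancel_right, mul_smul_comm,
    ← (h.ie _ (h.sq i hi) _).eq, ← mul_smul_comm, ev_smul, zV]
  congr 2
  funext l
  rw [Nat.cast_succ, add_right_comm, zpow_add_one₀ hV.1, mul_comm]

omit [CharZero F] in
theorem r_t (hi : i < n) : Commute (rV ev x n v) (tV ev r x τ0 u v i) := by
  refine Commute.sub_right (Eq.symm ?_) (ev_comm _ _)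
  rw [rV, h.p_int hi]
  congr 2
  funext l
  simp only [h.xsw i hi, Finset.sum_add_distrib]
  rw [Equiv.Perm.sum_comp (swap i (i + 1)) _ (fun a => x a l) fun a ha => ?_]
  rw [Finset.coe_range, Set.mem_Iio]
  by_contra k
  exact ha (swap_apply_of_ne_of_ne (by omega) (by omega))

theorem z_r (hv : Gd u v) : wP (zV ev x v) n * (rV ev x n v * rV ev x n v) = 1 := by
  have hV := hv.gq h.q2 h.uu
  have k : ∀ m, wP (zV ev x v) m =
      ev fun l => (v * v) ^ ∑ a ∈ Finset.range (m + 1), ((a : ℤ) + x a l) := fun m => by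
    induction m with
    | zero => exact ev_one.symm.trans (h.ext.2 fun l hl => by simp [h.x0 l hl])
    | succ m ih =>
      rw [wP, ih, zV, ev_mul]
      congr 1
      funext l
      rw [Finset.sum_range_succ _ (m + 1), ← zpow_add₀ hV.1]
  rw [k, rV, ev_mul, ev_mul, ← ev_one (ev := ev)]
  congr 1
  funext l
  rw [← mul_zpow, zpow_neg, mul_inv_cancel₀ (zpow_ne_zero _ hV.1)]

omit [CharZero F] in
theorem t_rg {v0 : F} (h0 : Gq (v0 * v0)) : (fun v => tV ev r x τ0 u v i) ∈ Rg A v0 := by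
  refine rg_sub (rg_mul (rg_const _) (rg_ev ev.toLinearMap S (fun f => (h.ker f).2) fun l _ => ?_))
    (rg_ev ev.toLinearMap S (fun f => (h.ker f).2) fun l _ => ?_)
  · unfold fH
    split_ifs
    · simpa only [div_eq_mul_inv] using rgS_mul (rgS_ps h0 _) (rgS_const _)
    · exact rgS_const _
    · simpa only [div_eq_mul_inv] using rgS_mul rgS_id (rgS_const _)
  · unfold fA
    split_ifs
    · exact rgS_qinv h0 _
    · exact rgS_const _

omit [CharZero F] in
theorem r_rg {v0 : F} (h0 : v0 ≠ 0) : rV ev x n ∈ Rg A v0 :=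
  rg_ev ev.toLinearMap S (fun f => (h.ker f).2) fun _ _ => rgS_zpow rgS_id h0 _

theorem fam {Θ : N →* A} (hT : ∀ t ∈ T, Θ t = ι t) (hs : ∀ i < n, Θ (s i) = tV ev r x τ0 u 1 i) :
    Fam u n T s Θ (tV ev r x τ0 u) (zV ev x) (rV ev x n) where
  bs := h.bs
  nrm := h.nrm
  sq := h.sq
  bt := fun _ hv => h.brd hv
  tor := fun _ _ i hi t ht => by
    rw [hT t ht, hT _ ((Subgroup.mem_normalizer_iff.1 (h.nrm i hi) t).1 ht), h.t_tor hi ht]
  z0 := fun _ _ => (h.ext.2 fun l hl => by simp [h.x0 l hl]).trans ev_one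
  zs := fun _ hv i hi => by rw [hT _ (h.sq i hi), h.t_z hv hi]
  zt := fun _ _ _ _ t ht => hT t ht ▸ h.ie t ht _
  rr := fun _ hv => h.z_r hv
  rt := fun _ _ _ hi => h.r_t hi
  rT := fun _ _ t ht => hT t ht ▸ h.ie t ht _
  t1 := fun i hi => (hs i hi).symm
  r1 := by simpa only [rV, one_zpow] using ev_one
  gt1 := fun _ _ => h.t_rg (Gd.gq (Or.inl rfl) h.q2 h.uu)
  gtu := fun _ _ => h.t_rg h.gu
  gr1 := h.r_rg one_ne_zero
  gru := h.r_rg h.u0

omit [CharZero F] in
theorem nat (γ : A →+* A) (σ : RingAut F) (hσ : σ u = u)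
    (hγ : ∀ f, γ (ev f) = ev fun l => σ (f l)) (hv : Gd u v) :
    γ (rV ev x n v) = rV ev x n v ∧ ∀ i, ∀ w : A, γ (τ0 i) = w * τ0 i →
      w * ev (fE F r i (i + 1)) = ev (fE F r i (i + 1)) →
      γ (tV ev r x τ0 u v i) = w * tV ev r x τ0 u v i := by
  have sv := hv.fix hσ
  have sq : ∀ {y : F}, σ y = y → (σ : F →+* F) (y * y) = y * y := fun k => by
    rw [map_mul]
    exact congrArg₂ _ k k
  refine ⟨by rw [rV, hγ]; simp only [map_zpow₀, sv], fun i w k1 k2 => ?_⟩
  have a : ∀ {y : F}, σ y = y → γ (ev (fA r x (y * y) i (i + 1))) =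
      w * ev (fA r x (y * y) i (i + 1)) := fun k => by
    rw [h.eA, ← mul_assoc, k2, ← h.eA, hγ]
    congr 1
    funext l
    unfold fA
    split_ifs
    · rw [map_inv₀]
      exact congrArg _ (qi_fix _ (sq k) _)
    · exact map_zero _
  have b : γ (ev (fH r x u v i (i + 1))) = ev (fH r x u v i (i + 1)) := by
    rw [hγ]
    congr 1
    funext l
    unfold fH
    split_ifs
    · rw [map_div₀]
      exact congrArg₂ _ (ps_fix _ (sq sv) _) (ps_fix _ (sq hσ) _)
    · exact map_one _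
    · rw [map_div₀, sv, hσ]
  rw [tV, pV, map_sub, map_mul, map_add, k1, a hσ, a sv, b, ← mul_add, mul_sub, mul_assoc]

omit [CharZero F] in
theorem sep {J : Type} {B : Subalgebra F A} (g : J → L → F) (hg : ∀ j, ev (g j) ∈ B) (f : L → F)
    (hf : ∀ l l', (∀ j, g j l = g j l') → f l = f l') : ev f ∈ B := by
  classical
  let d : L → J → F := fun l j => g j l
  have ft : f.FactorsThrough d := fun l l' e => hf l l' (congrFun e)
  rw [← ft.extend_comp fun _ => 0]
  refine fc_ind (S.image d) (fun f' => ev (f' ∘ d) ∈ B) (fun c => ?_) hg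
    (fun f f' a b => ?_) (fun f f' a b => ?_) (fun f f' a e => ?_) _
  · exact (ev.commutes c).symm ▸ B.algebraMap_mem c
  · exact (map_add ev _ _).symm ▸ add_mem a b
  · exact (map_mul ev _ _).symm ▸ mul_mem a b
  · exact (h.ext (f := f ∘ d) (g := f' ∘ d)).2
      (fun l hl => e _ (Finset.mem_image_of_mem d hl)) ▸ a

theorem onto {B : Subalgebra F A} (hT : ∀ t ∈ T, ι t ∈ B)
    (hE : ∀ i < n, ev (fE F r i (i + 1)) ∈ B) (hs : ∀ i < n, tV ev r x τ0 u 1 i ∈ B)
    (hi : i < n) : τ0 i ∈ B := by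
  have g1 : Gq ((1 : F) * 1) := Gd.gq (Or.inl rfl) h.q2 h.uu
  have y : ∀ a ≤ n, ev (fun l => (x a l : F)) ∈ B := fun a ha => by
    induction a with
    | zero =>
      rw [(h.ker _).2 fun l hl => by rw [h.x0 l hl, Int.cast_zero]]
      exact zero_mem _
    | succ a ih =>
      have e : tV ev r x τ0 u 1 a * ev (fun l => (x a l : F)) + ev (fE F r a (a + 1)) =
          ev (fun l => (x (a + 1) l : F)) * tV ev r x τ0 u 1 a := by
        rw [tV, sub_mul, h.mvZ ha (h.p_int ha) fun c => (c : F), mul_sub, sub_add]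
        congr 1
        rw [ev_mul, ev_mul, ev_sub]
        refine h.ext.2 fun l hl => ?_
        unfold fA fE
        split_ifs with k
        · have b := g1.2 _ (h.b0 ha hl k)
          rw [mul_one, qi_one] at b ⊢
          field_simp
          push_cast
          ring
        · simp
      have m := mul_mem (mul_mem (add_mem (mul_mem (hs a ha) (ih (by omega))) (hE a ha)) (hs a ha))
        (hT _ (inv_mem (h.sq a ha)))
      rwa [e, mul_assoc (ev _), h.t_sq1 ha, mul_assoc,
        ← h.im _ (h.sq a ha) _ (inv_mem (h.sq a ha)), mul_inv_cancel, h.i1, mul_one] at m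
  have k : ∀ f : L → F, (∀ l l', (r i (i + 1) l ↔ r i (i + 1) l') → x i l = x i l' →
      x (i + 1) l = x (i + 1) l' → f l = f l') → ev f ∈ B := fun f hf => by
    refine h.sep ![fE F r i (i + 1), fun l => (x i l : F), fun l => (x (i + 1) l : F)]
      (Fin.forall_fin_succ.2 ⟨hE i hi, Fin.forall_fin_two.2 ⟨y i hi.le, y _ hi⟩⟩) f
      fun l l' e => hf l l' ?_ (Int.cast_injective (e 1)) (Int.cast_injective (e 2))
    have e0 : fE F r i (i + 1) l = fE F r i (i + 1) l' := e 0
    unfold fE at e0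
    split_ifs at e0 with a b b
    · exact iff_of_true a b
    · exact absurd e0 one_ne_zero
    · exact absurd e0 zero_ne_one
    · exact iff_of_false a b
  have kA : ∀ Q, ev (fA r x Q i (i + 1)) ∈ B := fun Q => k _ fun l l' a b c => by
    rw [fA, fA, propext a, b, c]
  have kH : ev (fun l => (fH r x u 1 i (i + 1) l)⁻¹) ∈ B := k _ fun l l' a b c => by
    rw [fH, fH, propext a, b, c]
  have m := sub_mem (mul_mem (add_mem (hs i hi) (kA (1 * 1))) kH) (kA (u * u))
  have e : ev (fH r x u 1 i (i + 1)) * ev (fun l => (fH r x u 1 i (i + 1) l)⁻¹) = 1 := by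
    rw [ev_mul, ← ev_one (ev := ev)]
    congr 1
    funext l
    refine mul_inv_cancel₀ ?_
    unfold fH
    split_ifs with a b
    · exact div_ne_zero (g1.ps_ne b) (h.gu.ps_ne b)
    · exact one_ne_zero
    · exact div_ne_zero one_ne_zero h.u0
  rwa [tV, sub_add_cancel, pV, mul_assoc, e, mul_one, add_sub_cancel_right] at m

end Pre

end Pool.Agent.Lib.MP_1ae3da_al.CT.A
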