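import Pool.Agent.Lib.MP_1ae3da_al.A.Wa
import Pool.Agent.Lib.MP_1ae3da_al.A.Mc

/-! Hecke data of type `A` over a torus: the idempotents of the roots. -/

namespace Pool.Agent.Lib.MP_1ae3da_al.CT.A

open Equiv

theorem WA.perm' {k : ℕ} {X : Type} [Group X] [Finite X] {T : Subgroup X} {n : ℕ → X}
    (h : WA k ⊤ T n) : ∃ π : X →* Perm ℕ, (∀ t, π t = 1 ↔ t ∈ T) ∧
      (∀ i < k, π (n i) = swap i (i + 1)) ∧ ∀ a ≤ k, ∀ b ≤ k, ∃ g, π g = swap a b := by
  let j : Perm (Fin (k + 1)) →* Perm ℕ := Perm.viaEmbeddingHom Fin.valEmbedding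
  have ji : Function.Injective j := Perm.viaEmbeddingHom_injective _
  have js : ∀ a b : Fin (k + 1), j (swap a b) = swap (a : ℕ) b := fun a b => by
    ext x
    by_cases hx : x ∈ Set.range (Fin.valEmbedding (n := k + 1))
    · obtain ⟨y, rfl⟩ := hx
      exact (Perm.viaEmbedding_apply _ _ y).trans
        (Fin.val_injective.swap_apply a b y).symm
    · refine (Perm.viaEmbedding_apply_of_notMem _ _ x hx).trans (swap_apply_of_ne_of_ne ?_ ?_).symm
      · exact fun e => hx ⟨a, e.symm⟩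
      · exact fun e => hx ⟨b, e.symm⟩
  let σ : ℕ → Perm (Fin (k + 1)) := fun i =>
    if hi : i < k then swap ⟨i, by omega⟩ ⟨i + 1, by omega⟩ else 1
  have e : ∀ i < k, j (σ i) = swap i (i + 1) := fun i hi => by simp only [σ, dif_pos hi, js]
  obtain ⟨π, p1, p2⟩ := WA.lift h (G := Perm (Fin (k + 1))) (fun _ => 1) rfl
    (fun _ _ _ _ => (one_mul _).symm) σ (fun _ _ _ _ => by rw [mul_one, one_mul])
    (fun i hi => ji (by rw [map_mul, e i hi, swap_mul_self, map_one]))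
    ⟨fun a b h1 h2 => ji (by
      rw [map_mul, map_mul, e a (by omega), e b h2]
      exact (brd_swap k).far a b h1 h2), fun a h1 => ji (by
      rw [map_mul, map_mul, map_mul, map_mul, e a (by omega), e _ h1]
      exact (brd_swap k).br a h1)⟩
  have su : π.range = ⊤ := by
    refine Subgroup.toSubmonoid_injective (top_unique ?_)
    rw [← Perm.mclosure_swap_castSucc_succ, Submonoid.closure_le]
    rintro _ ⟨i, rfl⟩
    exact ⟨⟨n i, trivial⟩, (p2 i i.2 _ rfl).trans (dif_pos i.2)⟩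
  have le : T.subgroupOf ⊤ ≤ π.ker := fun t ht => p1 t ht
  have ix : π.ker.index = (T.subgroupOf ⊤).index := by
    rw [Subgroup.index_ker, su, Subgroup.card_top, Nat.card_perm, Nat.card_eq_fintype_card,
      Fintype.card_fin]
    exact h.card.symm
  have ge : π.ker ≤ T.subgroupOf ⊤ := by
    have := Subgroup.relIndex_mul_index le
    rwa [ix, mul_eq_right₀ Subgroup.index_ne_zero_of_finite, Subgroup.relIndex_eq_one] at this
  refine ⟨j.comp (π.comp Subgroup.topEquiv.symm.toMonoidHom), fun t => ?_, fun i hi => ?_,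
    fun a ha b hb => ?_⟩
  · exact (map_eq_one_iff j ji).trans ⟨fun c => ge (x := ⟨t, trivial⟩) c, p1 ⟨t, trivial⟩⟩
  · exact (congrArg j (p2 i hi _ rfl)).trans (e i hi)
  · obtain ⟨g, hg⟩ : swap (⟨a, by omega⟩ : Fin (k + 1)) ⟨b, by omega⟩ ∈ π.range := by
      rw [su]
      trivial
    exact ⟨g, (congrArg j hg).trans (js _ _)⟩

variable (F : Type) {A N : Type} [Field F] [Ring A] [Algebra F A] [Group N]

/-- the mean over the commutators of `g` with the torus. -/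
noncomputable def eG (T : Subgroup N) (ι : N → A) (g : N) : A :=
  (Nat.card T : F)⁻¹ • ∑ᶠ t : T, ι (g * t * g⁻¹ * (t : N)⁻¹)

/-- the idempotent of the pair of positions `a`, `b`. -/
noncomputable def eA (n : ℕ) (T : Subgroup N) (π : N →* Perm ℕ) (ι : N → A) (a b : ℕ) : A :=
  if a ≤ n ∧ b ≤ n then eG F T ι (Function.invFun π (swap a b)) else 0

/-- Hecke generators `τ i` over the torus `T`. -/
structure HA (q n : ℕ) (T : Subgroup N) (s : ℕ → N) (π : N →* Perm ℕ) (ι : N → A)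
    (τ : ℕ → A) : Prop where
  q2 : 2 ≤ q
  w : WA n ⊤ T s
  ab : ∀ x ∈ T, ∀ y ∈ T, x * y = y * x
  pk : ∀ t, π t = 1 ↔ t ∈ T
  ps : ∀ i < n, π (s i) = swap i (i + 1)
  pg : ∀ a ≤ n, ∀ b ≤ n, ∃ g, π g = swap a b
  i1 : ι 1 = 1
  im : ∀ t ∈ T, ∀ t' ∈ T, ι (t * t') = ι t * ι t'
  bt : Brd n τ
  tor : ∀ i < n, ∀ t ∈ T, τ i * ι t = ι (s i * t * (s i)⁻¹) * τ i
  qd : ∀ i < n, τ i * τ i = (q : F) • ι (s i * s i) + ((q : F) - 1) • (eG F T ι (s i) * τ i)
  s2 : ∀ i < n, ∃ c ∈ T, s i * s i = s i * c * (s i)⁻¹ * c⁻¹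

variable {F} {q n : ℕ} {T : Subgroup N} {s : ℕ → N} {π : N →* Perm ℕ} {ι : N → A} {τ : ℕ → A}
  {g g' t : N} {y P : A} {i a b c : ℕ}

theorem eG_def [Fintype T] (g : N) :
    eG F T ι g = (Nat.card T : F)⁻¹ • ∑ t : T, ι (g * t * g⁻¹ * (t : N)⁻¹) := by
  rw [eG, finsum_eq_sum_of_fintype]

theorem eG_aut [Fintype T] (δ : MulAut N) (hT : ∀ x, δ x ∈ T ↔ x ∈ T) (g : N) :
    eG F T ι (δ g) = (Nat.card T : F)⁻¹ • ∑ t : T, ι (δ (g * t * g⁻¹ * (t : N)⁻¹)) := by
  rw [eG_def, ← Equiv.sum_comp (δ.toEquiv.subtypeEquiv fun x => (hT x).symm)]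
  refine congrArg _ (Finset.sum_congr rfl fun t _ => ?_)
  simp

theorem eG_mul [Finite N] [CharZero F] (h : ∀ t ∈ T, ι (g * t * g⁻¹ * t⁻¹) * y = y) :
    eG F T ι g * y = y := by
  have _ := Fintype.ofFinite T
  rw [eG_def, smul_mul_assoc, Finset.sum_mul, Finset.sum_congr rfl fun x _ => h x.1 x.2,
    Finset.sum_const, Finset.card_univ, ← Nat.card_eq_fintype_card, ← Nat.cast_smul_eq_nsmul F,
    inv_smul_smul₀ (Nat.cast_ne_zero.2 Nat.card_pos.ne')]

/-- `g` fixes the characters of the torus that occur in `P`. -/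
def Fx (T : Subgroup N) (ι : N → A) (P : A) (g : N) : Prop :=
  ∀ t ∈ T, ι (g * t * g⁻¹) * P = ι t * P

namespace HA
variable (h : HA F q n T s π ι τ)
include h

theorem cj (g : N) (ht : t ∈ T) : g * t * g⁻¹ ∈ T :=
  (Subgroup.mem_normalizer_iff.1 (h.w.nrm (Subgroup.mem_top g)) t).1 ht

theorem ph (g : N) (ht : t ∈ T) : g * t * g⁻¹ * t⁻¹ ∈ T := mul_mem (h.cj g ht) (inv_mem ht)

theorem ic {t' : N} (ht : t ∈ T) (ht' : t' ∈ T) : Commute (ι t) (ι t') := by
  change _ = _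
  rw [← h.im _ ht _ ht', ← h.im _ ht' _ ht, h.ab _ ht _ ht']

theorem iv (ht : t ∈ T) : ι t⁻¹ * ι t = 1 := by
  rw [← h.im _ (inv_mem ht) _ ht, inv_mul_cancel, h.i1]

theorem iv' (ht : t ∈ T) : ι t * ι t⁻¹ = 1 := by
  rw [← h.im _ ht _ (inv_mem ht), mul_inv_cancel, h.i1]

theorem fx_mul (k : Fx T ι P g) (k' : Fx T ι P g') : Fx T ι P (g * g') := fun t ht => by
  rw [← k' t ht, ← k _ (h.cj g' ht)]
  congr 2
  group

theorem fx_inv (k : Fx T ι P g) : Fx T ι P g⁻¹ := fun t ht => by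
  rw [← k _ (h.cj g⁻¹ ht)]
  congr 2
  group

theorem fx_ph (k : Fx T ι P g) (ht : t ∈ T) : ι (g * t * g⁻¹ * t⁻¹) * P = P := by
  rw [h.ab _ (h.cj g ht) _ (inv_mem ht), h.im _ (inv_mem ht) _ (h.cj g ht), mul_assoc, k t ht,
    ← mul_assoc, h.iv ht, one_mul]

theorem eG_congr (e : π g = π g') : eG F T ι g = eG F T ι g' := by
  have k : g'⁻¹ * g ∈ T := (h.pk _).1 (by rw [map_mul, map_inv, e, inv_mul_cancel])
  unfold eG
  congr 1
  refine finsum_congr fun t => ?_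
  congr 2
  calc g * t * g⁻¹ = g' * (g'⁻¹ * g * t) * g⁻¹ := by group
    _ = _ := by
      rw [h.ab _ k _ t.2]
      group

theorem eA_eq (ha : a ≤ n) (hb : b ≤ n) (e : π g = swap a b) : eA F n T π ι a b = eG F T ι g := by
  rw [eA, if_pos ⟨ha, hb⟩]
  exact h.eG_congr ((Function.invFun_eq ⟨g, e⟩).trans e.symm)

theorem eA_s (hi : i < n) : eA F n T π ι i (i + 1) = eG F T ι (s i) :=
  h.eA_eq hi.le hi (h.ps i hi)

omit h in
theorem eA_symm : eA F n T π ι a b = eA F n T π ι b a := by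
  simp only [eA, swap_comm a b, and_comm]

variable [Finite N]

theorem eG_com (k : ∀ t ∈ T, Commute y (ι t)) (g : N) : Commute y (eG F T ι g) := by
  have _ := Fintype.ofFinite T
  rw [eG_def]
  exact (Commute.sum_right _ _ _ fun t _ => k _ (h.ph g t.2)).smul_right _

theorem eG_mem {B : Subalgebra F A} (k : ∀ t ∈ T, ι t ∈ B) (g : N) : eG F T ι g ∈ B := by
  have _ := Fintype.ofFinite T
  rw [eG_def]
  exact B.smul_mem (sum_mem fun t _ => k _ (h.ph g t.2)) _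

theorem eG_fx (g : N) : Fx T ι (eG F T ι g) g := fun c hc => by
  have _ := Fintype.ofFinite T
  rw [eG_def, mul_smul_comm, mul_smul_comm, Finset.mul_sum, Finset.mul_sum]
  conv_rhs => rw [← Equiv.sum_comp (Equiv.mulLeft (⟨c, hc⟩ : T))]
  refine congrArg _ (Finset.sum_congr rfl fun t _ => ?_)
  rw [← h.im _ (h.cj g hc) _ (h.ph g t.2), ← h.im _ hc _ (h.ph g (Subtype.property _)),
    h.ab _ hc _ (h.ph g (Subtype.property _))]
  refine congrArg _ ?_
  change _ = g * (c * t) * g⁻¹ * (c * (t : N))⁻¹ * c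
  group

theorem eG_conj {φ : A} {m : N} (k : ∀ t ∈ T, φ * ι t = ι (m * t * m⁻¹) * φ) (g : N) :
    φ * eG F T ι g = eG F T ι (m * g * m⁻¹) * φ := by
  have _ := Fintype.ofFinite T
  have := eG_aut (F := F) (ι := ι) (MulAut.conj m)
    (fun x => (Subgroup.mem_normalizer_iff.1 (h.w.nrm (Subgroup.mem_top m)) x).symm) g
  rw [MulAut.conj_apply] at this
  rw [this, eG_def, mul_smul_comm, smul_mul_assoc, Finset.mul_sum, Finset.sum_mul]
  exact congrArg _ (Finset.sum_congr rfl fun t _ => k _ (h.ph g t.2))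

theorem eG_map (γ : A →+* A) (σ : F →+* F) (hγ : ∀ (c : F) a, γ (c • a) = σ c • γ a)
    (δ : MulAut N) (hT : ∀ x, δ x ∈ T ↔ x ∈ T) (k : ∀ t ∈ T, γ (ι t) = ι (δ t)) (g : N) :
    γ (eG F T ι g) = eG F T ι (δ g) := by
  have _ := Fintype.ofFinite T
  rw [eG_aut δ hT, eG_def, hγ, map_inv₀, map_natCast, map_sum]
  exact congrArg _ (Finset.sum_congr rfl fun t _ => k _ (h.ph g t.2))

theorem eA_com (k : ∀ t ∈ T, Commute y (ι t)) (a b : ℕ) : Commute y (eA F n T π ι a b) := by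
  unfold eA
  split_ifs
  · exact h.eG_com k _
  · exact Commute.zero_right _

theorem eA_i (ht : t ∈ T) (a b : ℕ) : Commute (ι t) (eA F n T π ι a b) :=
  h.eA_com (fun _ k => h.ic ht k) a b

theorem eA_cm (a b c d : ℕ) : Commute (eA F n T π ι a b) (eA F n T π ι c d) :=
  h.eA_com (fun _ k => (h.eA_i k a b).symm) c d

theorem eA_t (hi : i < n) (a b : ℕ) :
    τ i * eA F n T π ι a b = eA F n T π ι (swap i (i + 1) a) (swap i (i + 1) b) * τ i := by
  have k : ∀ x, swap i (i + 1) x ≤ n ↔ x ≤ n := fun x => by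
    rw [swap_apply_def]
    split_ifs <;> omega
  by_cases c : a ≤ n ∧ b ≤ n
  · obtain ⟨g, hg⟩ := h.pg a c.1 b c.2
    rw [h.eA_eq c.1 c.2 hg, h.eG_conj (h.tor i hi), h.eA_eq ((k a).2 c.1) ((k b).2 c.2)]
    rw [map_mul, map_mul, map_inv, hg, h.ps i hi, swap_apply_apply]
  · rw [eA, eA, if_neg c, if_neg (by rwa [k, k]), mul_zero, zero_mul]

theorem eA_T (hi : i < n) (ht : t ∈ T) :
    ι (s i * t * (s i)⁻¹) * eA F n T π ι i (i + 1) = ι t * eA F n T π ι i (i + 1) := by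
  rw [h.eA_s hi]
  exact h.eG_fx _ t ht

theorem eA_1 (hi : i < n) : ι (s i * s i) * eA F n T π ι i (i + 1) = eA F n T π ι i (i + 1) := by
  obtain ⟨c, hc, e⟩ := h.s2 i hi
  rw [h.eA_s hi, e]
  exact h.fx_ph (h.eG_fx _) hc

theorem eA_2 (hi : i + 1 < n) : ι (s i * s i) * eA F n T π ι i (i + 2) =
    ι (s (i + 1) * s (i + 1)) * eA F n T π ι i (i + 2) := by
  have hi' : i < n := by omega
  have b := h.w.br.br i hi
  rw [h.eA_eq (g := s i * s (i + 1) * s i) hi'.le hi (by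
    rw [map_mul, map_mul, h.ps i hi', h.ps _ hi]
    ext x
    simp only [Perm.coe_mul, Function.comp, swap_apply_def]
    split_ifs <;> omega), ← h.eG_fx _ _ (h.w.sq i hi')]
  congr 2
  have e : s i * s (i + 1) * s i * s i = s (i + 1) * (s i * s (i + 1) * s i) := by
    conv_lhs => rw [b]
    simp only [mul_assoc]
  rw [← mul_assoc, e, mul_assoc (s (i + 1)), e]
  group

variable [CharZero F]

theorem eG_idem (g : N) : eG F T ι g * eG F T ι g = eG F T ι g :=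
  eG_mul fun _ ht => h.fx_ph (h.eG_fx g) ht

theorem eA_idem (a b : ℕ) : eA F n T π ι a b * eA F n T π ι a b = eA F n T π ι a b := by
  unfold eA
  split_ifs
  · exact h.eG_idem _
  · exact mul_zero _

theorem eA_3 (ha : a ≤ n) (hb : b ≤ n) (hc : c ≤ n) (h1 : b ≠ c) (h2 : a ≠ c) :
    eA F n T π ι a c * (eA F n T π ι a b * eA F n T π ι b c) =
      eA F n T π ι a b * eA F n T π ι b c := by
  obtain ⟨g, hg⟩ := h.pg a ha b hb
  obtain ⟨g', hg'⟩ := h.pg b hb c hc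
  have k : Fx T ι (eA F n T π ι a b * eA F n T π ι b c) g := fun t ht => by
    rw [← mul_assoc, ← mul_assoc, h.eA_eq ha hb hg, h.eG_fx g t ht]
  have k' : Fx T ι (eA F n T π ι a b * eA F n T π ι b c) g' := fun t ht => by
    rw [(h.eA_cm a b b c).eq, ← mul_assoc, ← mul_assoc, h.eA_eq hb hc hg', h.eG_fx g' t ht]
  rw [h.eA_eq (g := g * g' * g⁻¹) ha hc (by
    rw [map_mul, map_mul, map_inv, hg, hg', ← swap_apply_apply, swap_apply_right,
      swap_apply_of_ne_of_ne h2.symm h1.symm])]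
  exact eG_mul fun t ht => h.fx_ph (h.fx_mul (h.fx_mul k k') (h.fx_inv k)) ht

end HA

end Pool.Agent.Lib.MP_1ae3da_al.CT.A
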