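import Mathlib

/-! Functional calculus for a commuting family of semisimple elements. -/

namespace Pool.Agent.Lib.MP_1ae3da_al.CT.A

open Polynomial

variable {F A J : Type} [Field F] [Ring A] [Algebra F A]

/-- `ev` evaluates functions of the joint eigenvalues of the family `g`; `S` is the joint
spectrum. -/
structure FC (g : J → A) (ev : ((J → F) → F) →ₐ[F] A) (S : Finset (J → F)) : Prop where
  co : ∀ j, ev (fun l => l j) = g j
  ker : ∀ f, ev f = 0 ↔ ∀ l ∈ S, f l = 0

/-- `x` is killed by a product of distinct linear factors. -/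
def Ss (F : Type) {A : Type} [Field F] [Ring A] [Algebra F A] (x : A) : Prop :=
  ∃ R : Finset F, aeval x (∏ c ∈ R, (X - C c)) = 0

theorem ss_of [IsAlgClosed F] {x : A} {P : F[X]} (h : P.Separable) (k : aeval x P = 0) :
    Ss F x := by
  classical
  refine ⟨P.roots.toFinset, ?_⟩
  have e := (IsAlgClosed.splits P).eq_prod_roots
  have n := nodup_roots h
  rw [Finset.prod_eq_multiset_prod, Multiset.toFinset_val, n.dedup]
  rw [e, map_mul, aeval_C] at k
  have u : IsUnit (algebraMap F A P.leadingCoeff) :=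
    (isUnit_iff_ne_zero.2 (leadingCoeff_ne_zero.2 h.ne_zero)).map _
  exact u.mul_right_eq_zero.1 k

theorem ss_idem {x : A} (h : x * x = x) : Ss F x := by
  classical
  refine ⟨{0, 1}, ?_⟩
  rw [Finset.prod_pair zero_ne_one]
  simp [mul_sub, h]

theorem fc_one {B : Type} [CommRing B] [Algebra F B] {x : B} (h : Ss F x) :
    ∃ (R : Finset F) (π : F → B), ∑ c ∈ R, π c = 1 ∧ ∀ c ∈ R, x * π c = c • π c := by
  classical
  obtain ⟨R, hR⟩ := h
  rcases R.eq_empty_or_nonempty with rfl | hn
  · have : (1 : B) = 0 := by simpa using hR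
    exact ⟨∅, fun _ => 0, by simp [this], by simp⟩
  refine ⟨R, fun c => aeval x (Lagrange.basis R id c), ?_, fun c hc => ?_⟩
  · rw [← map_sum, Lagrange.sum_basis (Set.injOn_id _) hn, map_one]
  · have : (x - algebraMap F B c) * aeval x (Lagrange.basis R id c) = 0 := by
      have e : (X - C c) * Lagrange.basis R id c =
          C (∏ d ∈ R.erase c, (c - d)⁻¹) * ∏ d ∈ R, (X - C d) := by
        rw [← Finset.mul_prod_erase R _ hc, Lagrange.basis, map_prod]
        simp only [Lagrange.basisDivisor, id, Finset.prod_mul_distrib]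
        ring
      have := congrArg (aeval x) e
      rw [map_mul, map_mul, hR, mul_zero, map_sub, aeval_X, aeval_C] at this
      exact this
    rw [sub_mul, sub_eq_zero] at this
    rw [this, Algebra.smul_def]

theorem fc_comm {B : Type} [CommRing B] [Algebra F B] [Finite J] {g : J → B}
    (h : ∀ j, Ss F (g j)) : ∃ (ev : ((J → F) → F) →ₐ[F] B) (S : Finset (J → F)), FC g ev S := by
  classical
  have := Fintype.ofFinite J
  choose R π h1 h2 using fun j => fc_one (h j)
  let G := Fintype.piFinset R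
  let p : (J → F) → B := fun l => ∏ j, π j (l j)
  have p1 : ∑ l ∈ G, p l = 1 := by
    rw [← Finset.prod_univ_sum]
    simp [h1]
  have p2 : ∀ l ∈ G, ∀ j, g j * p l = l j • p l := fun l hl j => by
    simp only [p]
    rw [← Finset.mul_prod_erase _ _ (Finset.mem_univ j), ← mul_assoc,
      h2 j _ (Fintype.mem_piFinset.1 hl j), smul_mul_assoc]
  have p3 : ∀ l ∈ G, ∀ l' ∈ G, l ≠ l' → p l * p l' = 0 := fun l hl l' hl' hn => by
    obtain ⟨j, hj⟩ := Function.ne_iff.1 hn
    have : (l j - l' j) • (p l * p l') = 0 := by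
      rw [sub_smul, ← smul_mul_assoc, ← p2 l hl, ← mul_smul_comm, ← p2 l' hl']
      ring
    exact (smul_eq_zero.1 this).resolve_left (sub_ne_zero.2 hj)
  have p4 : ∀ (f : (J → F) → F), ∀ l ∈ G, (∑ l' ∈ G, f l' • p l') * p l = f l • p l := by
    have k : ∀ (f : (J → F) → F), ∀ l ∈ G, (∑ l' ∈ G, f l' • p l') * p l = f l • (p l * p l) :=
      fun f l hl => by
        rw [Finset.sum_mul, Finset.sum_eq_single_of_mem l hl fun l' hl' hn => by
          rw [smul_mul_assoc, p3 l' hl' l hl hn, smul_zero], smul_mul_assoc]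
    intro f l hl
    have := k 1 l hl
    simp only [Pi.one_apply, one_smul, p1, one_mul] at this
    rw [k f l hl, ← this]
  let L : ((J → F) → F) →ₗ[F] B :=
    { toFun := fun f => ∑ l ∈ G, f l • p l
      map_add' := fun f f' => by simp [add_smul, Finset.sum_add_distrib]
      map_smul' := fun c f => by simp [Finset.smul_sum, mul_smul] }
  refine ⟨AlgHom.ofLinearMap L (by simpa [L] using p1) fun f f' => ?_,
    G.filter fun l => p l ≠ 0, fun j => ?_, fun f => ⟨fun k l hl => ?_, fun k => ?_⟩⟩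
  · change ∑ l ∈ G, (f l * f' l) • p l = (∑ l ∈ G, f l • p l) * ∑ l ∈ G, f' l • p l
    rw [Finset.mul_sum]
    refine Finset.sum_congr rfl fun l hl => ?_
    rw [mul_smul_comm, p4 f l hl, smul_smul, mul_comm]
  · change ∑ l ∈ G, l j • p l = g j
    rw [← mul_one (g j), ← p1, Finset.mul_sum]
    exact Finset.sum_congr rfl fun l hl => (p2 l hl j).symm
  · obtain ⟨k1, k2⟩ := Finset.mem_filter.1 hl
    have := p4 f l k1
    rw [show (∑ l' ∈ G, f l' • p l') = 0 from k, zero_mul] at this
    exact (smul_eq_zero.1 this.symm).resolve_right k2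
  · refine Finset.sum_eq_zero fun l hl => ?_
    by_cases z : p l = 0
    · rw [z, smul_zero]
    · rw [k l (Finset.mem_filter.2 ⟨hl, z⟩), zero_smul]

theorem fc_fin [Finite J] {g : J → A} (hc : ∀ i j, Commute (g i) (g j)) (h : ∀ j, Ss F (g j)) :
    ∃ (ev : ((J → F) → F) →ₐ[F] A) (S : Finset (J → F)), FC g ev S := by
  let B := Algebra.adjoin F (Set.range g)
  have hm : IsMulCommutative B := Algebra.isMulCommutative_adjoin F (by
    rintro _ ⟨i, rfl⟩ _ ⟨j, rfl⟩
    exact hc i j)
  let _ : CommRing B := { (inferInstance : Ring B) with mul_comm := hm.is_comm.comm }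
  obtain ⟨ev, S, k1, k2⟩ := fc_comm (F := F) (B := B)
    (g := fun j => ⟨g j, Algebra.subset_adjoin ⟨j, rfl⟩⟩) fun j => by
      obtain ⟨R, hR⟩ := h j
      exact ⟨R, Subtype.ext ((aeval_algHom_apply B.val _ _).symm.trans hR)⟩
  exact ⟨B.val.comp ev, S, fun j => congrArg Subtype.val (k1 j), fun f =>
    ⟨fun k => (k2 f).1 (Subtype.ext k), fun k => congrArg Subtype.val ((k2 f).2 k)⟩⟩

theorem fc_ex {g : J → A} (hf : {j | g j ≠ 0}.Finite) (hc : ∀ i j, Commute (g i) (g j))
    (h : ∀ j, Ss F (g j)) : ∃ (ev : ((J → F) → F) →ₐ[F] A) (S : Finset (J → F)), FC g ev S := by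
  classical
  have : Finite {j | g j ≠ 0} := hf
  obtain ⟨ev, S, k1, k2⟩ := fc_fin (F := F) (J := {j | g j ≠ 0}) (g := fun j => g j)
    (fun i j => hc i j) fun j => h j
  let ex : ({j | g j ≠ 0} → F) → J → F := fun l j => if z : g j ≠ 0 then l ⟨j, z⟩ else 0
  refine ⟨ev.comp (AlgHom.pi fun l => Pi.evalAlgHom F _ (ex l)), S.image ex, fun j => ?_,
    fun f => ?_⟩
  · change ev (fun l => ex l j) = _
    by_cases z : g j ≠ 0
    · simp only [ex, dif_pos z]
      exact k1 ⟨j, z⟩
    · simp only [ex, dif_neg z]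
      rw [not_not.1 z]
      exact map_zero ev
  · change ev (fun l => f (ex l)) = 0 ↔ _
    rw [k2, Finset.forall_mem_image]

/-- induction over the functions on a finite set of weights. -/
theorem fc_ind (S : Finset (J → F)) (P : ((J → F) → F) → Prop) (hc : ∀ c, P fun _ => c)
    (hj : ∀ j, P fun l => l j) (ha : ∀ f f', P f → P f' → P (f + f'))
    (hm : ∀ f f', P f → P f' → P (f * f'))
    (hS : ∀ f f', P f' → (∀ l ∈ S, f l = f' l) → P f) (f : (J → F) → F) : P f := by
  classical
  have sep : ∀ l l' : J → F, ∃ d, P d ∧ d l = 1 ∧ (l ≠ l' → d l' = 0) := fun l l' => by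
    by_cases e : l = l'
    · exact ⟨fun _ => 1, hc 1, rfl, fun k => (k e).elim⟩
    obtain ⟨j, k⟩ := Function.ne_iff.1 e
    refine ⟨_, hm _ _ (hc (l j - l' j)⁻¹) (ha _ _ (hj j) (hc (-l' j))), ?_, fun _ => by simp⟩
    simp only [Pi.mul_apply, Pi.add_apply, ← sub_eq_add_neg]
    exact inv_mul_cancel₀ (sub_ne_zero.2 k)
  choose d d1 d2 d3 using sep
  refine hS f (∑ l ∈ S, (fun _ => f l) * ∏ l' ∈ S, d l l')
    (Finset.sum_induction _ P ha (hc 0) fun l _ => hm _ _ (hc _)
      (Finset.prod_induction _ P hm (hc 1) fun l' _ => d1 l l')) fun m hm' => ?_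
  rw [Finset.sum_apply, Finset.sum_eq_single_of_mem m hm' fun l _ hn => ?_]
  · simp [Finset.prod_apply, d2]
  · rw [Pi.mul_apply, Finset.prod_apply,
      Finset.prod_eq_zero (f := fun c => d l c m) hm' (d3 l m hn), mul_zero]

variable {g : J → A} {ev : ((J → F) → F) →ₐ[F] A} {S : Finset (J → F)}

theorem FC.ext (h : FC g ev S) {f f' : (J → F) → F} : ev f = ev f' ↔ ∀ l ∈ S, f l = f' l := by
  rw [← sub_eq_zero, ← map_sub, h.ker]
  simp only [Pi.sub_apply, sub_eq_zero]

theorem ev_const (c : F) : ev (fun _ => c) = algebraMap F A c := ev.commutes c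

/-- an element that permutes the generators permutes the functions. -/
theorem FC.int (h : FC g ev S) {φ : A} {π : J → J} (k : ∀ j, φ * g j = g (π j) * φ)
    (f : (J → F) → F) : φ * ev f = ev (fun l => f (l ∘ π)) * φ := by
  classical
  have fin : ∀ f f' : (J → F) → F, (∀ l ∈ S ∪ S.image (· ∘ π), f l = f' l) →
      ev f = ev f' ∧ ev (fun l => f (l ∘ π)) = ev fun l => f' (l ∘ π) := fun f f' e =>
    ⟨h.ext.2 fun l hl => e l (Finset.mem_union_left _ hl), h.ext.2 fun l hl =>
      e _ (Finset.mem_union_right _ (Finset.mem_image_of_mem _ hl))⟩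
  refine fc_ind (S ∪ S.image (· ∘ π))
    (fun f => φ * ev f = ev (fun l => f (l ∘ π)) * φ) (fun c => ?_) (fun j => ?_)
    (fun f f' a b => ?_) (fun f f' a b => ?_) (fun f f' a e => ?_) f
  · rw [ev_const, Algebra.commutes]
  · rw [h.co, k, ← h.co]
    rfl
  · rw [map_add, mul_add, a, b, ← add_mul, ← map_add]
    rfl
  · rw [map_mul, ← mul_assoc, a, mul_assoc, b, ← mul_assoc, ← map_mul]
    rfl
  · rw [(fin f f' e).1, (fin f f' e).2, a]

theorem FC.com (h : FC g ev S) {φ : A} (k : ∀ j, Commute φ (g j)) (f : (J → F) → F) :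
    Commute φ (ev f) := h.int (π := id) k f

/-- a semilinear map that fixes the generators and the spectrum. -/
theorem FC.nat (h : FC g ev S) (γ : A →+* A) (σ : F →+* F)
    (hγ : ∀ c a, γ (c • a) = σ c • γ a) (k : ∀ j, γ (g j) = g j)
    (hS : ∀ l ∈ S, ∀ j, σ (l j) = l j) (f : (J → F) → F) : γ (ev f) = ev fun l => σ (f l) := by
  refine fc_ind S (fun f => γ (ev f) = ev fun l => σ (f l)) (fun c => ?_) (fun j => ?_)
    (fun f f' a b => ?_) (fun f f' a b => ?_) (fun f f' a e => ?_) f
  · rw [ev_const, ev_const, Algebra.algebraMap_eq_smul_one, hγ, map_one,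
      Algebra.algebraMap_eq_smul_one]
  · rw [h.co, k, ← h.co]
    exact h.ext.2 fun l hl => (hS l hl j).symm
  · rw [map_add, map_add, a, b, ← map_add]
    exact congrArg ev (funext fun l => (map_add σ _ _).symm)
  · rw [map_mul, map_mul, a, b, ← map_mul]
    exact congrArg ev (funext fun l => (map_mul σ _ _).symm)
  · rw [h.ext.2 e, a]
    exact h.ext.2 fun l hl => by rw [e l hl]

theorem FC.mem (h : FC g ev S) {B : Subalgebra F A} (k : ∀ j, g j ∈ B) (f : (J → F) → F) :
    ev f ∈ B := by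
  refine fc_ind S (fun f => ev f ∈ B) (fun c => ?_) (fun j => ?_)
    (fun f f' a b => ?_) (fun f f' a b => ?_) (fun f f' a e => ?_) f
  · rw [ev_const]
    exact B.algebraMap_mem c
  · rw [h.co]
    exact k j
  · rw [map_add]
    exact add_mem a b
  · rw [map_mul]
    exact mul_mem a b
  · rw [h.ext.2 e]
    exact a

end Pool.Agent.Lib.MP_1ae3da_al.CT.A
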