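import Pool.Agent.Lib.MP_1ae3da_al.A.Reg
import Pool.Agent.Lib.MP_1ae3da_al.A.Brd

/-! The natural unit that conjugates the two ends of a family of square roots. -/

namespace Pool.Agent.Lib.MP_1ae3da_al.CT.A

variable {F A : Type} [Field F] [Ring A] [Algebra F A]

/-- the parameters that are used. -/
def Gd (u v : F) : Prop := v = 1 ∨ v = u ∨ ∃ m : ℕ, 2 ≤ m ∧ v = m

theorem Gd.fix {u v : F} (h : Gd u v) {σ : RingAut F} (hσ : σ u = u) : σ v = v := by
  rcases h with rfl | rfl | ⟨m, -, rfl⟩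
  · exact map_one σ
  · exact hσ
  · exact map_natCast σ m

/-- functions of the weights with regular values are regular. -/
theorem rg_ev {L : Type} (ev : (L → F) →ₗ[F] A) (S : Finset L)
    (hS : ∀ f : L → F, (∀ l ∈ S, f l = 0) → ev f = 0) {v0 : F} {g : F → L → F}
    (hg : ∀ l ∈ S, (fun v => g v l) ∈ RgS v0) : (fun v => ev (g v)) ∈ Rg A v0 := by
  classical
  have e : ∀ v, ev (g v) = ∑ l ∈ S, g v l • ev (Pi.single l 1) := fun v => by
    simp only [← map_smul]
    rw [← map_sum, ← sub_eq_zero, ← map_sub]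
    refine hS _ fun l hl => ?_
    simp [Finset.sum_apply, Pi.single_apply, hl]
  simp only [e]
  exact rg_sum _ fun l hl => rg_smul (hg l hl) _

theorem rg_wD {v0 : F} {t : F → ℕ → A} {m : ℕ} (h : ∀ i < m, (fun v => t v i) ∈ Rg A v0) :
    (fun v => wD (t v) m) ∈ Rg A v0 := by
  induction m with
  | zero => exact rg_const 1
  | succ m ih => exact rg_mul (h m (by omega)) (ih fun i hi => h i (by omega))

theorem rg_wH {v0 : F} {t : F → ℕ → A} {m : ℕ} (h : ∀ i < m, (fun v => t v i) ∈ Rg A v0) :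
    (fun v => wH (t v) m) ∈ Rg A v0 := by
  induction m with
  | zero => exact rg_const 1
  | succ m ih => exact rg_mul (ih fun i hi => h i (by omega)) (rg_wD h)

section step
variable {B : Type} [Ring B] {c : Bˣ} {x y : B}

theorem fl_unit (hx : x * x = c) : IsUnit x :=
  (isUnit_mul_self_iff.1 (hx ▸ c.isUnit) :)

theorem fl_mul (hx : x * x = c) : y * x * ↑c⁻¹ * x = y := by
  have : (c : B) * x = x * c := by rw [← hx, mul_assoc]
  have k : (↑c⁻¹ : B) * x = x * ↑c⁻¹ := by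
    rw [Units.inv_mul_eq_iff_eq_mul, ← mul_assoc, this, Units.mul_inv_cancel_right]
  rw [mul_assoc, k, ← mul_assoc, mul_assoc y, hx, Units.mul_inv_cancel_right]

theorem fl_int (hx : x * x = c) (hy : y * y = c) :
    (1 + y * x * ↑c⁻¹) * x = y * (1 + y * x * ↑c⁻¹) := by
  have : (c : B) * x = x * c := by rw [← hx, mul_assoc]
  rw [add_mul, fl_mul hx, mul_add, ← mul_assoc, ← mul_assoc, hy, this,
    Units.mul_inv_cancel_right, one_mul, mul_one, add_comm]

theorem fl_comm (hx : x * x = c) {s s' : B} (h1 : s * x = x * s') (h2 : s * y = y * s') :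
    Commute s (1 + y * x * ↑c⁻¹) := by
  refine (Commute.one_right s).add_right ((fl_unit hx).mul_right_cancel ?_)
  rw [mul_assoc s, fl_mul hx, mul_assoc _ s, h1, ← mul_assoc, fl_mul hx, h2]

theorem fl_fix (hx : x * x = c) (γ : B →+* B) {w w' : B} (h1 : w * x = x * w') (h2 : w * y = y * w')
    (g1 : γ x = w * x) (g2 : γ y = w * y) : γ (1 + y * x * ↑c⁻¹) = 1 + y * x * ↑c⁻¹ := by
  rw [map_add, map_one]
  congr 1
  refine ((fl_unit hx).map γ).mul_right_cancel ?_
  rw [← map_mul, fl_mul hx, g1, g2, h1, ← mul_assoc, fl_mul hx, h2]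

end step

theorem flp [CharZero F] [Module.Finite F A] {u : F} {b : F → A} {c : Aˣ} (r1 : b ∈ Rg A (1 : F))
    (ru : b ∈ Rg A u) (hb : ∀ v, Gd u v → b v * b v = c) :
    ∃ d : Aˣ, d * b 1 = b u * d ∧
      (∀ s s' : A, (∀ v, Gd u v → s * b v = b v * s') → Commute s d) ∧
      ∀ (γ : A →+* A) (w w' : A), (∀ v, Gd u v → w * b v = b v * w') →
        (∀ v, Gd u v → γ (b v) = w * b v) → γ d = d := by
  have g1 : Gd u 1 := Or.inl rfl
  have gu : Gd u u := Or.inr (Or.inl rfl)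
  have two : IsUnit (1 + 1 : A) := by
    have := (isUnit_iff_ne_zero.2 (two_ne_zero (α := F))).map (algebraMap F A)
    rwa [map_ofNat, ← one_add_one_eq_two] at this
  obtain ⟨m, hm, k1, k2⟩ := rg_nat (f := fun v => 1 + b u * b v * ↑c⁻¹)
    (g := fun v => 1 + b v * b 1 * ↑c⁻¹)
    (rg_add (rg_const 1) (rg_mul (rg_mul (rg_const (b u)) ru) (rg_const (↑c⁻¹ : A))))
    (by simpa only [hb u gu, Units.mul_inv] using two)
    (rg_add (rg_const 1) (rg_mul (f := fun v => b v * b 1) (rg_mul r1 (rg_const (b 1)))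
      (rg_const (↑c⁻¹ : A))))
    (by simpa only [hb 1 g1, Units.mul_inv] using two)
  have gm : Gd u m := Or.inr (Or.inr ⟨m, hm, rfl⟩)
  refine ⟨k1.unit * k2.unit, ?_, fun s s' h => ?_, fun γ w w' h k => ?_⟩
  all_goals simp only [Units.val_mul, IsUnit.unit_spec]
  · rw [mul_assoc, fl_int (hb 1 g1) (hb m gm), ← mul_assoc, fl_int (hb m gm) (hb u gu), mul_assoc]
  · exact (fl_comm (hb m gm) (h m gm) (h u gu)).mul_right (fl_comm (hb 1 g1) (h 1 g1) (h m gm))
  · rw [map_mul, fl_fix (hb m gm) γ (h m gm) (h u gu) (k m gm) (k u gu),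
      fl_fix (hb 1 g1) γ (h 1 g1) (h m gm) (k 1 g1) (k m gm)]

section nat
variable {B N : Type} [Ring B] [Group N] {d b : Bˣ} {Θ : N →* B} {n0 : N}

theorem flp_id (γ : B →+* B) {n n' : N} (h1 : γ (Θ n) = Θ n') (h2 : γ d = d) :
    γ (d * Θ n * ↑d⁻¹) = d * Θ n' * ↑d⁻¹ := by
  rw [eq_comm, Units.mul_inv_eq_iff_eq_mul]
  conv_rhs => arg 2; rw [← h2]
  rw [← map_mul, Units.inv_mul_cancel_right, map_mul, h1, h2]

theorem flp_nat (h : d * Θ n0 = b * d) (γ : B →+* B) {n n' : N}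
    (h1 : ↑b⁻¹ * γ (Θ n) * b = Θ (n0⁻¹ * n' * n0)) (h2 : ↑b⁻¹ * γ d * b = d) :
    γ (d * Θ n * ↑d⁻¹) = d * Θ n' * ↑d⁻¹ := by
  have e2 : γ d * b = b * d := by
    conv_rhs => rw [← h2]
    rw [← mul_assoc, ← mul_assoc, Units.mul_inv, one_mul]
  have e1 : γ (Θ n) * b = b * Θ (n0⁻¹ * n' * n0) := by
    rw [← h1, ← mul_assoc, ← mul_assoc, Units.mul_inv, one_mul]
  refine ((d.isUnit.map γ).mul b.isUnit).mul_right_cancel ?_
  rw [← mul_assoc, ← map_mul, Units.inv_mul_cancel_right, map_mul, mul_assoc, e1, ← mul_assoc, e2,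
    ← h, ← mul_assoc, Units.inv_mul_cancel_right, mul_assoc (d : B), mul_assoc (d : B), ← map_mul,
    ← map_mul]
  congr 2
  group

end nat

end Pool.Agent.Lib.MP_1ae3da_al.CT.A
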