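import Pool.Agent.Lib.MP_1ae3da_al.A.Ea

/-! Hecke data of type `A`: the Jucys-Murphy elements. -/

namespace Pool.Agent.Lib.MP_1ae3da_al.CT.A

open Equiv

variable (F : Type) {A N : Type} [Field F] [Ring A] [Algebra F A] [Group N]

/-- the Jucys-Murphy elements. -/
noncomputable def jA (q : ℕ) (s : ℕ → N) (ι : N → A) (τ : ℕ → A) : ℕ → A
  | 0 => 1
  | a + 1 => (q : F)⁻¹ • (ι (s a * s a)⁻¹ * (τ a * jA q s ι τ a * τ a))

/-- the commuting family. -/
noncomputable def gA (q n : ℕ) (T : Subgroup N) (s : ℕ → N) (π : N →* Perm ℕ) (ι : N → A)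
    (τ : ℕ → A) : ℕ × ℕ ⊕ ℕ → A
  | .inl p => eA F n T π ι p.1 p.2
  | .inr a => if a ≤ n then jA F q s ι τ a else 0

variable {F} {q n : ℕ} {T : Subgroup N} {s : ℕ → N} {π : N →* Perm ℕ} {ι : N → A} {τ : ℕ → A}
  {t : N} {y : A} {i a b c : ℕ}

namespace HA
variable (h : HA F q n T s π ι τ)
include h

theorem tor' (hi : i < n) (ht : t ∈ T) : τ i * ι (s i * t * (s i)⁻¹) = ι t * τ i := by
  rw [h.tor i hi _ (h.cj _ ht)]
  congr 2
  calc _ = s i * s i * t * (s i * s i)⁻¹ := by group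
    _ = t := by rw [h.ab _ (h.w.sq i hi) _ ht, mul_inv_cancel_right]

theorem t_i (hi : i < n) (ht : t ∈ T) (e : Commute t (s i)) : Commute (τ i) (ι t) := by
  change _ = _
  rw [h.tor i hi t ht, ← e.eq, mul_inv_cancel_right]

theorem j_T (ha : a ≤ n) : ∀ t ∈ T, Commute (ι t) (jA F q s ι τ a) := by
  induction a with
  | zero => exact fun _ _ => Commute.one_right _
  | succ a ih =>
    intro t ht
    refine ((h.ic ht (inv_mem (h.w.sq a ha))).mul_right ?_).smul_right _
    change _ = _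
    rw [← mul_assoc, ← mul_assoc, ← h.tor' ha ht, mul_assoc (τ a),
      (ih (by omega) _ (h.cj _ ht)).eq, mul_assoc, mul_assoc, ← h.tor a ha t ht]
    simp only [mul_assoc]

theorem j_up (hc : c < n) (ha : a < c) : Commute (τ c) (jA F q s ι τ a) := by
  induction a with
  | zero => exact Commute.one_right _
  | succ a ih =>
    have k : Commute (τ c) (τ a) := (h.bt.far a c ha hc).symm
    have k' : Commute (s a) (s c) := h.w.br.far a c ha hc
    exact ((h.t_i hc (inv_mem (h.w.sq a (by omega))) (k'.mul_left k').inv_left).mul_right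
      ((k.mul_right (ih (by omega))).mul_right k)).smul_right _

variable [CharZero F]

theorem q0 : (q : F) ≠ 0 := Nat.cast_ne_zero.2 (by have := h.q2; omega)

theorem q1 : (q : F) - 1 ≠ 0 := sub_ne_zero.2 (Nat.cast_ne_one.2 (by have := h.q2; omega))

theorem j_rec (hi : i < n) : τ i * jA F q s ι τ i * τ i =
    (q : F) • (ι (s i * s i) * jA F q s ι τ (i + 1)) := by
  rw [jA, mul_smul_comm, smul_inv_smul₀ h.q0, ← mul_assoc (ι _), h.iv' (h.w.sq i hi), one_mul]

theorem j_eq (ha : a ≤ n) :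
    wJ s a ∈ T ∧ wJ τ a = (q : F) ^ a • (ι (wJ s a) * jA F q s ι τ a) := by
  induction a with
  | zero => exact ⟨one_mem _, by simp [wJ, jA, h.i1]⟩
  | succ a ih =>
    obtain ⟨k1, k2⟩ := ih (by omega)
    have e : wJ s (a + 1) = s a * wJ s a * (s a)⁻¹ * (s a * s a) := by
      rw [wJ]
      group
    refine ⟨e ▸ mul_mem (h.cj _ k1) (h.w.sq a ha), ?_⟩
    rw [e, wJ, k2, mul_smul_comm, smul_mul_assoc, ← mul_assoc, h.tor a ha _ k1, mul_assoc (ι _),
      mul_assoc (ι _), h.j_rec ha, h.im _ (h.cj _ k1) _ (h.w.sq a ha), mul_smul_comm, smul_smul,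
      pow_succ, mul_assoc (ι _)]

theorem j_dn (ha : a ≤ n) (hc : c + 1 < a) : Commute (τ c) (jA F q s ι τ a) := by
  obtain ⟨k1, k2⟩ := h.j_eq ha
  have e : jA F q s ι τ a = ((q : F) ^ a)⁻¹ • (ι (wJ s a)⁻¹ * wJ τ a) := by
    rw [k2, mul_smul_comm, inv_smul_smul₀ (pow_ne_zero _ h.q0), ← mul_assoc, h.iv k1, one_mul]
  rw [e]
  exact ((h.t_i (by omega) (inv_mem k1) (h.w.br.wJ_s ha c hc).inv_left).mul_right
    (h.bt.wJ_s ha c hc).symm).smul_right _

theorem j_lt (hb : b ≤ n) (ha : a < b) : Commute (jA F q s ι τ b) (jA F q s ι τ a) := by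
  induction a with
  | zero => exact Commute.one_right _
  | succ a ih =>
    have k := (h.j_dn hb ha).symm
    exact ((h.j_T hb _ (inv_mem (h.w.sq a (by omega)))).symm.mul_right
      ((k.mul_right (ih (by omega))).mul_right k)).smul_right _

theorem j_cm (ha : a ≤ n) (hb : b ≤ n) : Commute (jA F q s ι τ a) (jA F q s ι τ b) := by
  rcases lt_trichotomy a b with l | rfl | l
  · exact (h.j_lt hb l).symm
  · exact Commute.refl _
  · exact h.j_lt ha l

variable [Finite N]

omit [CharZero F] in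
theorem t_e (hi : i < n) : Commute (τ i) (eA F n T π ι i (i + 1)) := by
  change _ = _
  rw [h.eA_t hi, swap_apply_left, swap_apply_right, eA_symm]

omit [Finite N] [CharZero F] in
theorem t_l (hi : i < n) :
    (τ i - ((q : F) - 1) • eA F n T π ι i (i + 1)) * τ i = (q : F) • ι (s i * s i) := by
  rw [sub_mul, h.qd i hi, smul_mul_assoc, h.eA_s hi, add_sub_cancel_right]

omit [CharZero F] in
theorem t_r (hi : i < n) :
    τ i * (τ i - ((q : F) - 1) • eA F n T π ι i (i + 1)) = (q : F) • ι (s i * s i) := by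
  rw [← h.t_l hi]
  exact ((Commute.refl _).sub_right ((h.t_e hi).smul_right _)).eq

omit [Finite N] in
theorem t_inj (hi : i < n) (e : τ i * y = 0) : y = 0 := by
  have k := congrArg (· * y) (h.t_l hi)
  simp only [mul_assoc, e, mul_zero, smul_mul_assoc] at k
  rw [← one_mul y, ← h.iv (h.w.sq i hi), mul_assoc, (smul_eq_zero.1 k.symm).resolve_left h.q0,
    mul_zero]

theorem t_inj' (hi : i < n) (e : y * τ i = 0) : y = 0 := by
  have k := congrArg (y * ·) (h.t_r hi)
  simp only [← mul_assoc, e, zero_mul, mul_smul_comm] at k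
  rw [← mul_one y, ← h.iv' (h.w.sq i hi), ← mul_assoc, (smul_eq_zero.1 k.symm).resolve_left h.q0,
    zero_mul]

omit [Finite N] in
theorem j_inj (ha : a ≤ n) : ∀ y, jA F q s ι τ a * y = 0 → y = 0 := by
  induction a with
  | zero => exact fun y e => by rwa [jA, one_mul] at e
  | succ a ih =>
    intro y e
    have k := congrArg (· * y) (h.j_rec ha)
    simp only [mul_assoc, e, mul_zero, smul_mul_assoc, smul_zero] at k
    exact h.t_inj ha (ih (by omega) _ (h.t_inj ha k))

omit [CharZero F] in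
theorem j_e (ha : a ≤ n) (b c : ℕ) : Commute (jA F q s ι τ a) (eA F n T π ι b c) :=
  h.eA_com (fun t ht => (h.j_T ha t ht).symm) b c

theorem r0 (hi : i < n) : τ i * jA F q s ι τ i = jA F q s ι τ (i + 1) * τ i -
    ((q : F) - 1) • (eA F n T π ι i (i + 1) * jA F q s ι τ (i + 1)) := by
  rw [← sub_eq_zero]
  refine h.t_inj' hi ?_
  rw [← (h.j_e hi _ _).eq, ← mul_smul_comm, ← mul_sub, sub_mul, h.j_rec hi, mul_assoc, h.t_l hi,
    (h.j_T hi _ (h.w.sq i hi)).eq, mul_smul_comm, sub_self]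

theorem r1 (hi : i < n) : τ i * jA F q s ι τ (i + 1) = jA F q s ι τ i * τ i +
    ((q : F) - 1) • (eA F n T π ι i (i + 1) * jA F q s ι τ (i + 1)) := by
  rw [← sub_eq_iff_eq_add, ← smul_mul_assoc, ← sub_mul, ← sub_eq_zero]
  refine h.t_inj hi ?_
  rw [mul_sub, ← mul_assoc, ← mul_assoc, h.t_r hi, h.j_rec hi, smul_mul_assoc, sub_self]

theorem g_cm (j j' : ℕ × ℕ ⊕ ℕ) : Commute (gA F q n T s π ι τ j) (gA F q n T s π ι τ j') := by
  have k : ∀ a b c, Commute (gA F q n T s π ι τ (.inr a)) (eA F n T π ι b c) := fun a b c => by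
    rw [gA]
    split_ifs with ha
    · exact h.j_e ha b c
    · exact Commute.zero_left _
  rcases j with p | a <;> rcases j' with p' | b
  · exact h.eA_cm _ _ _ _
  · exact (k _ _ _).symm
  · exact k _ _ _
  · rw [gA, gA]
    split_ifs with ha hb
    · exact h.j_cm ha hb
    · exact Commute.zero_right _
    all_goals exact Commute.zero_left _

omit h [CharZero F] [Finite N] in
theorem g_fin : {j | gA F q n T s π ι τ j ≠ 0}.Finite := by
  refine ((((Set.finite_Iic n).prod (Set.finite_Iic n)).image Sum.inl).union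
    ((Set.finite_Iic n).image Sum.inr)).subset ?_
  rintro (p | a) hj
  · exact Or.inl ⟨p, by_contra fun c => hj (if_neg c), rfl⟩
  · exact Or.inr ⟨a, by_contra fun c => hj (if_neg c), rfl⟩

theorem g_ex (hs : ∀ a ≤ n, Ss F (jA F q s ι τ a)) :
    ∃ (ev : ((ℕ × ℕ ⊕ ℕ → F) → F) →ₐ[F] A) (S : Finset (ℕ × ℕ ⊕ ℕ → F)),
      FC (gA F q n T s π ι τ) ev S := by
  refine fc_ex g_fin h.g_cm ?_
  rintro (p | a)
  · exact ss_idem (h.eA_idem _ _)
  · rw [gA]
    split_ifs with ha
    · exact hs a ha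
    · exact ss_idem (mul_zero _)

omit [CharZero F] in
theorem g_T (ht : t ∈ T) (j : ℕ × ℕ ⊕ ℕ) : Commute (ι t) (gA F q n T s π ι τ j) := by
  rcases j with p | a
  · exact h.eA_i ht _ _
  · rw [gA]
    split_ifs with ha
    · exact h.j_T ha t ht
    · exact Commute.zero_right _

omit [CharZero F] in
theorem g_cen (k1 : ∀ t ∈ T, Commute y (ι t)) (k2 : ∀ i < n, Commute y (τ i))
    (j : ℕ × ℕ ⊕ ℕ) : Commute y (gA F q n T s π ι τ j) := by
  rcases j with p | a
  · exact h.eA_com k1 _ _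
  · rw [gA]
    split_ifs with ha
    · induction a with
      | zero => exact Commute.one_right _
      | succ a ih =>
        exact ((k1 _ (inv_mem (h.w.sq a ha))).mul_right
          (((k2 a ha).mul_right (ih (by omega))).mul_right (k2 a ha))).smul_right _
    · exact Commute.zero_right _

end HA

end Pool.Agent.Lib.MP_1ae3da_al.CT.A
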