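import Pool.Agent.Lib.MP_1ae3da_al.A.Jm

/-! Hecke data of type `A`: the weights and the input of the machine. -/

namespace Pool.Agent.Lib.MP_1ae3da_al.CT.A

open Equiv

variable {F A N : Type} [Field F] [Ring A] [Algebra F A] [Group N]

/-- the exchange of two neighbouring positions on the index set. -/
def pA (i : ℕ) : ℕ × ℕ ⊕ ℕ → ℕ × ℕ ⊕ ℕ
  | .inl p => .inl (swap i (i + 1) p.1, swap i (i + 1) p.2)
  | .inr a => .inr (swap i (i + 1) a)

/-- the exchange on weights. -/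
def swA (i : ℕ) (l : ℕ × ℕ ⊕ ℕ → F) : ℕ × ℕ ⊕ ℕ → F := l ∘ pA i

/-- related positions. -/
def rA (a b : ℕ) (l : ℕ × ℕ ⊕ ℕ → F) : Prop := l (.inl (a, b)) = 1

open Classical in
/-- the contents. -/
noncomputable def xA (q : ℕ) (a : ℕ) (l : ℕ × ℕ ⊕ ℕ → F) : ℤ :=
  if h : ∃ m : ℤ, l (.inr a) = (q : F) ^ m then h.choose else 0

/-- the correction term of the intertwiner. -/
def aA (q i : ℕ) (l : ℕ × ℕ ⊕ ℕ → F) : F :=
  ((q : F) - 1) * l (.inl (i, i + 1)) * l (.inr (i + 1)) / (l (.inr i) - l (.inr (i + 1)))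

open Classical in
/-- the indicator of a weight. -/
noncomputable def dA (l m : ℕ × ℕ ⊕ ℕ → F) : F := if m = l then 1 else 0

omit [Field F] in
theorem swA_swA (i : ℕ) (l : ℕ × ℕ ⊕ ℕ → F) : swA i (swA i l) = l := by
  funext j
  rcases j with p | a <;> simp [swA, pA]

variable {q n : ℕ} {T : Subgroup N} {s : ℕ → N} {π : N →* Perm ℕ} {ι : N → A} {τ : ℕ → A}
  {i a b c : ℕ} {ev : ((ℕ × ℕ ⊕ ℕ → F) → F) →ₐ[F] A} {S : Finset (ℕ × ℕ ⊕ ℕ → F)}
  {l : ℕ × ℕ ⊕ ℕ → F}

theorem ev_d (f : (ℕ × ℕ ⊕ ℕ → F) → F) : ev f * ev (dA l) = f l • ev (dA l) := by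
  rw [ev_mul, ev_smul]
  congr 1
  funext m
  unfold dA
  split_ifs with e
  · rw [e]
  · rw [mul_zero, mul_zero]

section
variable {g : ℕ × ℕ ⊕ ℕ → A} (k : FC g ev S)
include k

theorem FC.d_ne (hl : l ∈ S) : ev (dA l) ≠ 0 := fun e => by
  simpa [dA] using (k.ker _).1 e l hl

theorem FC.g_d (j : ℕ × ℕ ⊕ ℕ) : g j * ev (dA l) = l j • ev (dA l) := by
  rw [← k.co, ev_d]

theorem FC.d_g (j : ℕ × ℕ ⊕ ℕ) : ev (dA l) * g j = l j • ev (dA l) := by
  rw [← k.co, (ev_comm _ _).eq, ev_d]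

end

namespace HA
variable [CharZero F] [Finite N] (h : HA F q n T s π ι τ) (k : FC (gA F q n T s π ι τ) ev S)

omit [CharZero F] [Finite N] in
include k in
theorem co_e (a b : ℕ) : ev (fun l => l (.inl (a, b))) = eA F n T π ι a b := k.co _

omit [CharZero F] [Finite N] in
include k in
theorem co_j (ha : a ≤ n) : ev (fun l => l (.inr a)) = jA F q s ι τ a :=
  (k.co _).trans (if_pos ha)

include h in
theorem eA_sw (hi : i < n) (a b : ℕ) : eA F n T π ι i (i + 1) * eA F n T π ι a b =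
    eA F n T π ι i (i + 1) * eA F n T π ι (swap i (i + 1) a) (swap i (i + 1) b) := by
  have c : Commute (eA F n T π ι i (i + 1) * τ i) (eA F n T π ι a b) :=
    h.eA_com (fun t ht => by
      change _ = _
      rw [mul_assoc, h.tor i hi t ht, ← mul_assoc, ← (h.eA_i (h.cj _ ht) _ _).eq, h.eA_T hi ht,
        mul_assoc]) a b
  rw [← sub_eq_zero]
  refine h.t_inj' hi ?_
  rw [sub_mul, mul_assoc _ (eA F n T π ι (swap _ _ a) _), ← h.eA_t hi, ← mul_assoc, c.eq,
    (h.eA_cm i (i + 1) a b).eq, mul_assoc, sub_self]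

include h k

theorem e01 (hl : l ∈ S) (a b : ℕ) : l (.inl (a, b)) = 0 ∨ l (.inl (a, b)) = 1 := by
  have e := h.eA_idem a b
  rw [← co_e k, ev_mul, k.ext] at e
  exact (eq_or_ne _ 0).imp_right fun c => mul_left_cancel₀ c ((e l hl).trans (mul_one _).symm)

omit [Finite N] in
theorem z_ne (hl : l ∈ S) (ha : a ≤ n) : l (.inr a) ≠ 0 := fun e =>
  k.d_ne hl (h.j_inj ha _ (by rw [← co_j k ha, ev_d, e, zero_smul]))

theorem ov2 (hl : l ∈ S) (hi : i < n) (hr : rA i (i + 1) l) : l (.inr i) ≠ l (.inr (i + 1)) := by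
  intro e
  have r := congrArg (fun y => ev (dA l) * y * ev (dA l)) (h.r0 hi)
  rw [← co_j k hi.le, ← co_j k hi, ← co_e k] at r
  simp only [mul_sub, sub_mul, mul_assoc, ev_d, mul_smul_comm, smul_mul_assoc] at r
  rw [← mul_assoc (ev (dA l)) (ev _) (τ i * _), (ev_comm (dA l) _).eq, ev_d, smul_mul_assoc, e,
    eq_comm, sub_eq_self, show l (.inl (i, i + 1)) = 1 from hr] at r
  simp only [dA, if_true, one_smul, smul_eq_zero, h.q1, h.z_ne k hl hi, false_or] at r
  exact k.d_ne hl r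

theorem a_id (hl : l ∈ S) (hi : i < n) : aA q i l * (l (.inr i) - l (.inr (i + 1))) =
    ((q : F) - 1) * (l (.inl (i, i + 1)) * l (.inr (i + 1))) := by
  rw [aA]
  rcases h.e01 k hl i (i + 1) with e | e
  · simp [e]
  · rw [div_mul_cancel₀ _ (sub_ne_zero.2 (h.ov2 k hl hi e)), mul_assoc]

theorem itw (hi : i < n) : Itw ev (swA i) (τ i + ev (aA q i)) := by
  refine k.int (π := pA i) fun j => ?_
  have c : ∀ j, ev (aA q i) * gA F q n T s π ι τ j = gA F q n T s π ι τ j * ev (aA q i) :=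
    fun j => by rw [← k.co, (ev_comm _ _).eq]
  have key : ev (aA q i) * jA F q s ι τ i - jA F q s ι τ (i + 1) * ev (aA q i) =
      ((q : F) - 1) • (eA F n T π ι i (i + 1) * jA F q s ι τ (i + 1)) := by
    rw [← co_j k hi.le, ← co_j k hi, ← co_e k, ev_mul, ev_mul, ev_mul, ev_sub, ev_smul, k.ext]
    intro l hl
    rw [← h.a_id k hl hi]
    ring
  rw [add_mul, mul_add]
  rcases j with p | a
  · have e : ev (aA q i) * eA F n T π ι p.1 p.2 =
        eA F n T π ι (swap i (i + 1) p.1) (swap i (i + 1) p.2) * ev (aA q i) := by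
      have e1 := h.eA_sw hi p.1 p.2
      rw [← co_e k, ← co_e k, ← co_e k, ev_mul, ev_mul, k.ext] at e1
      rw [← co_e k, ← co_e k, ev_mul, ev_mul, k.ext]
      intro l hl
      rw [aA]
      linear_combination ((q : F) - 1) * l (.inr (i + 1)) / (l (.inr i) - l (.inr (i + 1))) *
        e1 l hl
    exact congrArg₂ (· + ·) (h.eA_t hi _ _) e
  · by_cases h1 : a = i
    · subst h1
      simp only [gA, pA, swap_apply_left, if_pos hi.le, if_pos (Nat.succ_le_of_lt hi)]
      rw [h.r0 hi, ← key]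
      abel
    by_cases h2 : a = i + 1
    · subst h2
      have c1 := c (.inr i)
      have c2 := c (.inr (i + 1))
      simp only [gA, pA, swap_apply_right, if_pos hi.le, if_pos (Nat.succ_le_of_lt hi)] at c1 c2 ⊢
      rw [h.r1 hi, ← key, c1, c2]
      abel
    rw [pA, swap_apply_of_ne_of_ne h1 h2, c]
    congr 1
    rw [gA]
    split_ifs with ha
    · rcases Nat.lt_or_ge a i with l | l
      · exact (h.j_up hi l).eq
      · exact (h.j_dn ha (by omega)).eq
    · rw [mul_zero, zero_mul]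

theorem dich (hl : l ∈ S) (hi : i < n) : swA i l ∈ S ∨ (rA i (i + 1) l ∧
    τ i * ev (dA l) = -aA q i l • ev (dA l) ∧
      (l (.inr i) = q * l (.inr (i + 1)) ∨ l (.inr (i + 1)) = q * l (.inr i))) := by
  refine or_iff_not_imp_left.2 fun c => ?_
  have e : τ i * ev (dA l) = -aA q i l • ev (dA l) := by
    have e1 := h.itw k hi (dA l)
    rw [(k.ker fun m => dA l (swA i m)).2 fun m hm => if_neg fun e => c (by
      rw [← e, swA_swA]
      exact hm), zero_mul, add_mul, ev_d] at e1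
    rw [neg_smul]
    exact eq_neg_of_add_eq_zero_left e1
  have hr : rA i (i + 1) l := (h.e01 k hl i (i + 1)).resolve_left fun e0 =>
    k.d_ne hl (h.t_inj hi (by rw [e, aA, e0]; simp))
  have hr' : l (.inl (i, i + 1)) = 1 := hr
  refine ⟨hr, e, ?_⟩
  have e1 : eA F n T π ι i (i + 1) * ev (dA l) = ev (dA l) := by
    rw [← co_e k, ev_d, hr', one_smul]
  have e2 : ι (s i * s i) * ev (dA l) = ev (dA l) := by
    rw [← e1, ← mul_assoc, h.eA_1 hi]
  have e3 := congrArg (· * ev (dA l)) (h.qd i hi)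
  simp only [← h.eA_s hi, add_mul, smul_mul_assoc, mul_assoc, e, mul_smul_comm, e1, e2,
    smul_smul] at e3
  rw [← add_smul, ← sub_eq_zero, ← sub_smul, smul_eq_zero] at e3
  have e4 := e3.resolve_right (k.d_ne hl)
  have e5 := h.a_id k hl hi
  rw [hr'] at e5
  have e6 : (aA q i l - 1) * (aA q i l + q) = 0 := by linear_combination e4
  rcases mul_eq_zero.1 e6 with e7 | e7
  · left
    linear_combination e5 - (l (.inr i) - l (.inr (i + 1))) * e7
  · right
    linear_combination e5 - (l (.inr i) - l (.inr (i + 1))) * e7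

theorem z_pow (ha : a ≤ n) : ∀ l ∈ S, ∃ m : ℤ, l (.inr a) = (q : F) ^ m := by
  induction a with
  | zero =>
    intro l hl
    have e := co_j k ha
    rw [jA, ← ev_one (ev := ev), k.ext] at e
    exact ⟨0, by rw [e l hl, zpow_zero]⟩
  | succ a ih =>
    intro l hl
    obtain ⟨m, hm⟩ := ih (by omega) l hl
    rcases h.dich k hl ha with c | ⟨-, -, c | c⟩
    · simpa [swA, pA] using ih (by omega) _ c
    · refine ⟨m - 1, mul_left_cancel₀ h.q0 ?_⟩
      rw [← c, hm, zpow_sub_one₀ h.q0, mul_comm, inv_mul_cancel_right₀ h.q0]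
    · exact ⟨m + 1, by rw [c, hm, zpow_add_one₀ h.q0, mul_comm]⟩

theorem z_x (hl : l ∈ S) (ha : a ≤ n) : l (.inr a) = (q : F) ^ xA q a l := by
  have e := h.z_pow k ha l hl
  rw [xA, dif_pos e]
  exact e.choose_spec

theorem r_t (hl : l ∈ S) (ha : a ≤ n) (hb : b ≤ n) (hc : c ≤ n) (h1 : b ≠ c) (h2 : a ≠ c)
    (r1 : rA a b l) (r2 : rA b c l) : rA a c l := by
  have e := h.eA_3 ha hb hc h1 h2
  rw [← co_e k, ← co_e k, ← co_e k, ev_mul, ev_mul, k.ext] at e
  have := e l hl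
  rwa [show l (.inl (a, b)) = 1 from r1, show l (.inl (b, c)) = 1 from r2, mul_one,
    mul_one] at this

omit h [CharZero F] [Finite N] in
theorem r_s (hl : l ∈ S) (r1 : rA a b l) : rA b a l := by
  have e := eA_symm (F := F) (n := n) (T := T) (π := π) (ι := ι) (a := a) (b := b)
  rw [← co_e k, ← co_e k, k.ext] at e
  exact (e l hl).symm.trans r1

theorem ov3 (hl : l ∈ S) (hi : i + 1 < n) (hr : rA i (i + 2) l) :
    l (.inr i) ≠ l (.inr (i + 2)) := by
  intro e
  have hi' : i < n := by omega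
  have s1 : swap i (i + 1) (i + 1 + 1) = i + 2 := swap_apply_of_ne_of_ne (by omega) (by omega)
  have s2 : swap (i + 1) (i + 1 + 1) i = i := swap_apply_of_ne_of_ne (by omega) (by omega)
  rcases h.dich k hl hi' with c | ⟨r1, t1, -⟩
  · exact h.ov2 k c hi (by simpa only [rA, swA, pA, Function.comp, swap_apply_right, s1] using hr)
      (by simpa only [swA, pA, Function.comp, swap_apply_right, s1] using e)
  rcases h.dich k hl hi with c | ⟨r2, t2, -⟩
  · exact h.ov2 k c hi' (by simpa only [rA, swA, pA, Function.comp, swap_apply_left, s2] using hr)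
      (by simpa only [swA, pA, Function.comp, swap_apply_left, s2] using e)
  have b := congrArg (· * ev (dA l)) (h.bt.br i hi)
  simp only [mul_assoc, t1, t2, mul_smul_comm, smul_smul] at b
  have b1 := smul_left_injective F (k.d_ne hl) b
  have a1 := h.a_id k hl hi'
  have a2 := h.a_id k hl hi
  rw [show l (.inl (i, i + 1)) = 1 from r1, one_mul] at a1
  rw [show l (.inl (i + 1, i + 1 + 1)) = 1 from r2, one_mul, ← e] at a2
  have z1 := h.z_ne k hl hi'.le
  have z2 := h.z_ne k hl hi.le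
  have n1 : aA q i l ≠ 0 := fun c => mul_ne_zero h.q1 z2 (by rw [← a1, c, zero_mul])
  have n2 : aA q (i + 1) l ≠ 0 := fun c => mul_ne_zero h.q1 z1 (by rw [← a2, c, zero_mul])
  have b2 : aA q i l = aA q (i + 1) l :=
    mul_left_cancel₀ (mul_ne_zero n1 n2) (by linear_combination -b1)
  have b3 : l (.inr (i + 1)) + l (.inr i) = 0 :=
    mul_left_cancel₀ h.q1 (by rw [b2] at a1; linear_combination -a1 - a2)
  rw [h.z_x k hl hi.le, h.z_x k hl hi'.le] at b3
  have q0 : (0 : ℚ) < q := Nat.cast_pos.2 (by have := h.q2; omega)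
  have b4 : (((q : ℚ) ^ xA q (i + 1) l + (q : ℚ) ^ xA q i l : ℚ) : F) = 0 := by
    push_cast
    exact b3
  exact (add_pos (zpow_pos q0 _) (zpow_pos q0 _)).ne' (Rat.cast_eq_zero.1 b4)

theorem ev_E (a b : ℕ) : ev (fE F rA a b) = eA F n T π ι a b := by
  rw [← co_e k, k.ext]
  intro l hl
  unfold fE
  split_ifs with c
  · exact Eq.symm c
  · exact ((h.e01 k hl a b).resolve_right c).symm

theorem ev_A (hi : i < n) : ev (fA rA (xA q) (q : F) i (i + 1)) = ev (aA q i) := by
  rw [k.ext]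
  intro l hl
  unfold fA
  split_ifs with c
  · have a1 := h.a_id k hl hi
    have ne := h.ov2 k hl hi c
    rw [show l (.inl (i, i + 1)) = 1 from c, one_mul] at a1
    have a2 := qi_mul (Q := (q : F)) (xA q i l - xA q (i + 1) l)
    rw [zpow_sub₀ h.q0, ← h.z_x k hl hi.le, ← h.z_x k hl hi,
      div_sub_one (h.z_ne k hl hi), eq_div_iff (h.z_ne k hl hi)] at a2
    refine inv_eq_of_mul_eq_one_left (mul_left_cancel₀ (mul_ne_zero h.q1 (h.z_ne k hl hi)) ?_)
    linear_combination a1 + aA q i l * a2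
  · rw [aA, (h.e01 k hl _ _).resolve_right c]
    simp

theorem pre {u : F} (hu : u * u = q) : Pre q u n T s ι ev S swA rA (xA q) τ where
  q2 := h.q2
  uu := hu
  bs := h.w.br
  nrm := fun _ _ => h.w.nrm trivial
  sq := h.w.sq
  i1 := h.i1
  im := h.im
  ker := k.ker
  rsw := fun _ _ _ _ _ => Iff.rfl
  xsw := fun _ _ _ _ => rfl
  rs := fun _ hl _ _ _ _ => r_s k hl
  rt := fun _ hl _ ha _ hb _ hc _ h1 h2 => h.r_t k hl ha hb hc h1 h2
  x0 := fun l hl => by
    have e := co_j k (Nat.zero_le n)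
    rw [jA, ← ev_one (ev := ev), k.ext] at e
    have e1 := qi_mul (Q := (q : F)) (xA q 0 l)
    rw [← h.z_x k hl (Nat.zero_le n), e l hl, sub_self] at e1
    by_contra c
    exact mul_ne_zero h.q1 ((gq_nat h.q2).2 _ c) e1
  ov2 := fun l hl i hi hr e => h.ov2 k hl hi hr (by rw [h.z_x k hl hi.le, h.z_x k hl hi, e])
  ov3 := fun l hl i hi hr e =>
    h.ov3 k hl hi hr (by rw [h.z_x k hl (by omega : i ≤ n), h.z_x k hl (hi : i + 2 ≤ n), e])
  bt := h.bt
  qd := fun i hi => by rw [hu, h.ev_E k, h.eA_s hi, h.qd i hi]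
  int := fun i hi => by
    rw [hu, h.ev_A k hi]
    exact h.itw k hi
  tor := h.tor
  ie := fun t ht => k.com (h.g_T ht)
  eT := fun i hi t ht => by rw [h.ev_E k, h.eA_T hi ht]
  e1 := fun i hi => by rw [h.ev_E k, h.eA_1 hi]
  e2 := fun i hi => by rw [h.ev_E k, h.eA_2 hi]

theorem sp_fix (σ : F →+* F) (hl : l ∈ S) (j : ℕ × ℕ ⊕ ℕ) : σ (l j) = l j := by
  rcases j with p | a
  · rcases h.e01 k hl p.1 p.2 with e | e
    · rw [show l (.inl p) = 0 from e, map_zero]
    · rw [show l (.inl p) = 1 from e, map_one]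
  · by_cases ha : a ≤ n
    · rw [h.z_x k hl ha, map_zpow₀, map_natCast]
    · rw [(k.ker _).1 ((k.co (.inr a)).trans (if_neg ha)) l hl, map_zero]

end HA

end Pool.Agent.Lib.MP_1ae3da_al.CT.A
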