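import Pool.Agent.Lib.MP_1ae3da_al.A.Brd

/-! The Weyl group of type `A`: the coset count and homomorphisms out of `N`. -/

namespace Pool.Agent.Lib.MP_1ae3da_al.CT.A

section words
variable {G : Type} [Monoid G] {K : ℕ} {s : ℕ → G}

/-- `s j * ... * s (j + m - 1)`. -/
def wup (s : ℕ → G) : ℕ → ℕ → G
  | _, 0 => 1
  | j, m + 1 => s j * wup s (j + 1) m

theorem wup_far (hb : Brd K s) {i : ℕ} (m : ℕ) :
    ∀ j, i + 1 < j → j + m ≤ K → s i * wup s j m = wup s j m * s i := by
  induction m with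
  | zero => intro j _ _; simp [wup]
  | succ m ih =>
    intro j h1 h2
    rw [wup, ← mul_assoc, hb.far i j h1 (by omega), mul_assoc, ih (j + 1) (by omega) (by omega),
      mul_assoc]

theorem wup_in (hb : Brd K s) {i : ℕ} (m : ℕ) : ∀ j, j ≤ i → i + 1 < j + m → j + m ≤ K →
    s (i + 1) * wup s j m = wup s j m * s i := by
  induction m with
  | zero => intro j _ _ _; omega
  | succ m ih =>
    intro j h1 h2 h3
    rcases Nat.lt_or_ge j i with l | l
    · rw [wup, ← mul_assoc, ← hb.far j (i + 1) (by omega) (by omega), mul_assoc,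
        ih (j + 1) (by omega) (by omega) (by omega), mul_assoc]
    · obtain rfl : i = j := by omega
      obtain ⟨m, rfl⟩ : ∃ m', m = m' + 1 := ⟨m - 1, by omega⟩
      rw [wup, wup, mul_assoc, mul_assoc, ← wup_far hb m (i + 1 + 1) (by omega) (by omega)]
      simp only [← mul_assoc]
      rw [hb.br i (by omega)]

theorem rep_step {k : ℕ} (hs : ∀ i, i < k + 1 → s i * s i = 1) (hb : Brd (k + 1) s) {i a : ℕ}
    (hi : i ≤ k) (ha : a ≤ k + 1) :
    (∃ a' ≤ k + 1, s i * wup s a (k + 1 - a) = wup s a' (k + 1 - a')) ∨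
      ∃ i' < k, s i * wup s a (k + 1 - a) = wup s a (k + 1 - a) * s i' := by
  rcases Nat.lt_trichotomy (i + 1) a with l | rfl | l
  · exact Or.inr ⟨i, by omega, wup_far hb _ _ l (by omega)⟩
  · refine Or.inl ⟨i, by omega, ?_⟩
    rw [show k + 1 - i = k + 1 - (i + 1) + 1 by omega, wup]
  · rcases Nat.lt_or_ge a i with l' | l'
    · obtain ⟨i, rfl⟩ : ∃ i', i = i' + 1 := ⟨i - 1, by omega⟩
      exact Or.inr ⟨i, by omega, wup_in hb _ _ (by omega) (by omega) (by omega)⟩
    · obtain rfl : a = i := by omega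
      refine Or.inl ⟨a + 1, by omega, ?_⟩
      rw [show k + 1 - a = k + 1 - (a + 1) + 1 by omega, wup, ← mul_assoc, hs _ (by omega),
        one_mul]

end words

theorem card_leA {G : Type} [Group G] (k : ℕ) (s : ℕ → G) (hs : ∀ i, i < k → s i * s i = 1)
    (hb : Brd k s) : Finite (Subgroup.closure (s '' Set.Iio k)) ∧
      Nat.card (Subgroup.closure (s '' Set.Iio k)) ≤ (k + 1).factorial := by
  induction k with
  | zero =>
    have e : Subgroup.closure (s '' Set.Iio 0) = ⊥ := by simp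
    rw [e]
    exact ⟨inferInstance, by simp⟩
  | succ k ih =>
    obtain ⟨h1, h2⟩ := ih (fun i hi => hs i (by omega))
      ⟨fun i j a b => hb.far i j a (by omega), fun i a => hb.br i (by omega)⟩
    let f : Fin (k + 2) × Subgroup.closure (s '' Set.Iio k) → G :=
      fun x => wup s x.1 (k + 1 - x.1) * x.2
    have step : ∀ i, i < k + 1 → ∀ y ∈ Set.range f, s i * y ∈ Set.range f := by
      rintro i hi _ ⟨⟨a, y⟩, rfl⟩
      rcases rep_step hs hb (Nat.lt_succ_iff.1 hi) (Nat.lt_succ_iff.1 a.2) with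
        ⟨a', ha', e⟩ | ⟨i', hi', e⟩
      · exact ⟨⟨⟨a', Nat.lt_succ_iff.2 ha'⟩, y⟩, by simp only [f, ← mul_assoc, e]⟩
      · exact ⟨⟨a, ⟨s i', Subgroup.subset_closure ⟨i', hi', rfl⟩⟩ * y⟩, by
          simp only [f, ← mul_assoc, e, Subgroup.coe_mul]⟩
    have sub : (Subgroup.closure (s '' Set.Iio (k + 1)) : Set G) ⊆ Set.range f := by
      intro x hx
      induction hx using Subgroup.closure_induction_left with
      | one => exact ⟨⟨Fin.last (k + 1), 1⟩, by simp [f, wup]⟩
      | mul_left x hx y _ hy =>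
        obtain ⟨i, hi, rfl⟩ := hx
        exact step i hi y hy
      | inv_mul_cancel x hx y _ hy =>
        obtain ⟨i, hi, rfl⟩ := hx
        rw [inv_eq_of_mul_eq_one_right (hs i hi)]
        exact step i hi y hy
    have fin : (Set.range f).Finite := Set.finite_range f
    refine ⟨fin.subset sub, (Nat.card_mono fin sub).trans ((Finite.card_range_le f).trans ?_)⟩
    rw [Nat.card_prod, Nat.card_eq_fintype_card, Fintype.card_fin, Nat.factorial_succ (k + 1)]
    exact Nat.mul_le_mul_left _ h2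

/-- `N / T` is the symmetric group on `k + 1` letters and the `n i` are Tits lifts. -/
structure WA {X : Type} [Group X] (k : ℕ) (N T : Subgroup X) (n : ℕ → X) : Prop where
  le : T ≤ N
  nrm : N ≤ Subgroup.normalizer (T : Set X)
  mem : ∀ i, i < k → n i ∈ N
  sq : ∀ i, i < k → n i * n i ∈ T
  br : Brd k n
  gen : N ≤ Subgroup.closure ((T : Set X) ∪ n '' Set.Iio k)
  card : T.relIndex N = (k + 1).factorial

variable {k : ℕ} {X : Type} [Group X] {N T : Subgroup X} {n : ℕ → X}

theorem WA.lift [Finite X] (h : WA k N T n) {G : Type} [Monoid G] (j : X → G) (j1 : j 1 = 1)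
    (hj : ∀ t ∈ T, ∀ t' ∈ T, j (t * t') = j t * j t') (s : ℕ → G)
    (hs : ∀ i, i < k → ∀ t ∈ T, s i * j t = j (n i * t * (n i)⁻¹) * s i)
    (h2 : ∀ i, i < k → s i * s i = j (n i * n i)) (hb : Brd k s) :
    ∃ Θ : N →* G, (∀ t : N, (t : X) ∈ T → Θ t = j t) ∧
      ∀ i, i < k → ∀ x : N, (x : X) = n i → Θ x = s i := by
  classical
  let j0 : T →* G := ⟨⟨fun t => j t, j1⟩, fun a b => hj a a.2 b b.2⟩
  let J : T →* X × Gˣ := T.subtype.prod j0.toHomUnits
  have hu : ∀ i, i < k → IsUnit (s i) := fun i hi => by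
    rw [← isUnit_pow_iff two_ne_zero, pow_two, h2 i hi]
    exact (j0.toHomUnits ⟨_, h.sq i hi⟩).isUnit
  let M := Subgroup.normalizer (J.range : Set (X × Gˣ))
  have : Finite J.range := Finite.of_surjective _ J.rangeRestrict_surjective
  have hm : ∀ i (hi : i < k), ((n i, (hu i hi).unit) : X × Gˣ) ∈ M := fun i hi => by
    refine Subgroup.mem_normalizer_fintype ?_
    rintro _ ⟨t, rfl⟩
    refine ⟨⟨_, (Subgroup.mem_normalizer_iff.1 (h.nrm (h.mem i hi)) t).1 t.2⟩, ?_⟩
    rw [eq_mul_inv_iff_mul_eq]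
    refine Prod.ext (by simp [J]) (Units.ext ?_)
    exact (hs i hi t t.2).symm
  let σ : ℕ → M := fun i => if hi : i < k then ⟨_, hm i hi⟩ else 1
  have e1 : ∀ i, i < k → (σ i).1.1 = n i := fun i hi => by simp only [σ, dif_pos hi]
  have e2 : ∀ i, i < k → ((σ i).1.2 : G) = s i := fun i hi => by
    simp only [σ, dif_pos hi, IsUnit.unit_spec]
  have ext : ∀ x y : M, x.1.1 = y.1.1 → (x.1.2 : G) = y.1.2 → x = y := fun x y a b =>
    Subtype.ext (Prod.ext a (Units.ext b))
  let D := J.range.subgroupOf M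
  have hD : D.Normal := Subgroup.normal_in_normalizer
  let q := QuotientGroup.mk' D
  have bσ : Brd k σ := by
    refine ⟨fun a b h1 h3 => ext _ _ ?_ ?_, fun a h1 => ext _ _ ?_ ?_⟩
    all_goals
      simp (disch := omega) only [Subgroup.coe_mul, Prod.fst_mul, Prod.snd_mul, Units.val_mul,
        e1, e2]
    exacts [h.br.far a b h1 h3, hb.far a b h1 h3, h.br.br a h1, hb.br a h1]
  obtain ⟨c1, c2⟩ := card_leA k (fun i => q (σ i))
    (fun i hi => by
      rw [← map_mul]
      refine (QuotientGroup.eq_one_iff _).2 ⟨⟨_, h.sq i hi⟩, Prod.ext ?_ (Units.ext ?_)⟩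
      · change n i * n i = (σ i).1.1 * (σ i).1.1
        rw [e1 i hi]
      · change j (n i * n i) = (σ i).1.2 * (σ i).1.2
        rw [e2 i hi, h2 i hi])
    ⟨fun a b h1 h3 => by simp only [← map_mul, bσ.far a b h1 h3],
      fun a h1 => by simp only [← map_mul, bσ.br a h1]⟩
  let C := Subgroup.closure ((fun i => q (σ i)) '' Set.Iio k)
  let Γ := C.comap q
  let π : Γ →* X := (MonoidHom.fst X Gˣ).comp (M.subtype.comp Γ.subtype)
  have mT : ∀ t : T, ∃ γ : Γ, γ.1.1 = J t := fun t => by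
    let y : M := ⟨J t, Subgroup.le_normalizer (⟨t, rfl⟩ : J t ∈ J.range)⟩
    have e : q y = 1 := (QuotientGroup.eq_one_iff (N := D) y).2 ⟨t, rfl⟩
    exact ⟨⟨y, Subgroup.mem_comap.2 (e ▸ one_mem _)⟩, rfl⟩
  have mσ : ∀ i, i < k → σ i ∈ Γ := fun i hi => Subgroup.subset_closure ⟨i, hi, rfl⟩
  have le : N ≤ π.range := h.gen.trans ((Subgroup.closure_le _).2 (by
    rintro x (hx | ⟨i, hi, rfl⟩)
    · obtain ⟨γ, e⟩ := mT ⟨x, hx⟩
      exact ⟨γ, congrArg Prod.fst e⟩
    · exact ⟨⟨_, mσ i hi⟩, e1 i hi⟩))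
  have cD : Nat.card D ≤ Nat.card T := by
    rw [Nat.card_congr (Subgroup.subgroupOfEquivOfLe Subgroup.le_normalizer).toEquiv]
    exact Nat.card_le_card_of_surjective _ J.rangeRestrict_surjective
  have fD : Finite D := Finite.of_equiv _
    (Subgroup.subgroupOfEquivOfLe (H := J.range) Subgroup.le_normalizer).toEquiv.symm
  have cΓ : Nat.card Γ = Nat.card D * Nat.card C :=
    QuotientGroup.card_preimage_mk D (C : Set (M ⧸ D))
  have fΓ : Finite Γ := Nat.finite_of_card_ne_zero (by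
    rw [cΓ]
    exact mul_ne_zero Nat.card_pos.ne' Nat.card_pos.ne')
  have cN : Nat.card T * (k + 1).factorial = Nat.card N := by
    rw [← h.card, ← Nat.card_congr (Subgroup.subgroupOfEquivOfLe h.le).toEquiv]
    exact Subgroup.card_mul_index _
  have inj : Function.Injective π := by
    have b := π.rangeRestrict_surjective.bijective_of_nat_card_le (by
      rw [cΓ]
      exact (Nat.mul_le_mul cD c2).trans (cN.le.trans (Subgroup.card_le_of_le le)))
    exact fun x y e => b.1 (Subtype.ext e)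
  let Θ : N →* G := (Units.coeHom G).comp ((MonoidHom.snd X Gˣ).comp (M.subtype.comp
    (Γ.subtype.comp ((MonoidHom.ofInjective inj).symm.toMonoidHom.comp (Subgroup.inclusion le)))))
  have key : ∀ (x : N) (γ : Γ), γ.1.1.1 = x → Θ x = γ.1.1.2 := fun x γ e => by
    have : (MonoidHom.ofInjective inj).symm (Subgroup.inclusion le x) = γ :=
      (MulEquiv.symm_apply_eq _).2 (Subtype.ext e.symm)
    exact congrArg (fun y : Γ => (y.1.1.2 : G)) this
  refine ⟨Θ, fun t ht => ?_, fun i hi x hx => ?_⟩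
  · obtain ⟨γ, e⟩ := mT ⟨t, ht⟩
    rw [key t γ (congrArg Prod.fst e), e]
    rfl
  · rw [key x ⟨_, mσ i hi⟩ ((e1 i hi).trans hx.symm), e2 i hi]

end Pool.Agent.Lib.MP_1ae3da_al.CT.A
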