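import Pool.Agent.Lib.MP_1ae3da_al.A.Jp

/-! Hecke data of type `A`: the natural homomorphism out of the group. -/

namespace Pool.Agent.Lib.MP_1ae3da_al.CT.A

open Equiv

variable {F A N : Type} [Field F] [Ring A] [Algebra F A] [Group N]

/-- conjugation by a unit. -/
def cjH (b : Aˣ) : A →+* A where
  toFun a := ↑b⁻¹ * a * b
  map_one' := by simp
  map_mul' x y := by simp [mul_assoc]
  map_zero' := by simp
  map_add' x y := by simp [mul_add, add_mul]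

theorem cjH_eq {b : Aˣ} {x y : A} : cjH b x = y ↔ x * b = b * y := by
  change ↑b⁻¹ * x * b = y ↔ _
  rw [mul_assoc, Units.inv_mul_eq_iff_eq_mul]

variable {q n : ℕ} {T : Subgroup N} {s : ℕ → N} {π : N →* Perm ℕ} {ι : N → A} {τ : ℕ → A}
  {ev : ((ℕ × ℕ ⊕ ℕ → F) → F) →ₐ[F] A} {S : Finset (ℕ × ℕ ⊕ ℕ → F)} {u : F}

namespace HA
variable [CharZero F] [Finite N] (h : HA F q n T s π ι τ)
include h

omit [CharZero F] [Finite N] in
theorem hom_ext {M : Type} [Monoid M] {f g : N →* M} (h1 : ∀ t ∈ T, f t = g t)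
    (h2 : ∀ i < n, f (s i) = g (s i)) (x : N) : f x = g x := by
  refine DFunLike.congr_fun (MonoidHom.eq_of_eqOn_dense (top_unique h.w.gen) ?_) x
  rintro y (hy | ⟨i, hi, rfl⟩)
  · exact h1 y hy
  · exact h2 i hi

section
variable (γ : A →+* A) (σ : RingAut F) (δ : MulAut N) (hγ : ∀ (c : F) a, γ (c • a) = σ c • γ a)
  (hT : ∀ x, δ x ∈ T ↔ x ∈ T) (hι : ∀ t ∈ T, γ (ι t) = ι (δ t))
  (hs : ∀ i < n, ∃ w ∈ T, δ (s i) = w * s i ∧ γ (τ i) = ι w * τ i)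
include hγ hT hι hs

omit [CharZero F] in
theorem n_e (a b : ℕ) : γ (eA F n T π ι a b) = eA F n T π ι a b := by
  unfold eA
  split_ifs
  · rw [h.eG_map γ σ hγ δ hT hι]
    refine h.eG_congr (h.hom_ext (f := π.comp δ.toMonoidHom) (fun t ht => ?_) (fun i hi => ?_) _)
    · exact ((h.pk _).2 ((hT t).2 ht)).trans ((h.pk _).2 ht).symm
    · obtain ⟨w, hw, e, -⟩ := hs i hi
      change π (δ (s i)) = _
      rw [e, map_mul, (h.pk _).2 hw, one_mul]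
  · exact map_zero γ

omit [CharZero F] [Finite N] hT in
theorem n_j {a : ℕ} (ha : a ≤ n) : γ (jA F q s ι τ a) = jA F q s ι τ a := by
  induction a with
  | zero => exact map_one γ
  | succ a ih =>
    obtain ⟨w, hw, e1, e2⟩ := hs a ha
    have sq := h.w.sq a ha
    rw [jA, hγ, map_inv₀, map_natCast, map_mul, map_mul, map_mul, ih (by omega), e2,
      hι _ (inv_mem sq), map_inv, map_mul, e1]
    congr 1
    have e : (w * s a * (w * s a))⁻¹ = (s a * s a)⁻¹ * (w * (s a * w * (s a)⁻¹))⁻¹ := by group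
    have m := mul_mem hw (h.cj (s a) hw)
    rw [e, h.im _ (inv_mem sq) _ (inv_mem m), mul_assoc (ι w * τ a), ← mul_assoc (jA F q s ι τ a),
      ← (h.j_T (by omega) w hw).eq, mul_assoc (ι w) (jA F q s ι τ a), ← mul_assoc (ι w * τ a),
      mul_assoc (ι w), h.tor a ha w hw, ← mul_assoc (ι w), ← h.im _ hw _ (h.cj _ hw),
      mul_assoc (ι _) (ι _), mul_assoc (ι (w * _)), ← mul_assoc (ι (w * _)⁻¹), h.iv m, one_mul,
      mul_assoc (τ a)]

theorem n_w {i : ℕ} (hi : i < n) {w : N} (hw : w ∈ T) (e1 : δ (s i) = w * s i)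
    (e2 : γ (τ i) = ι w * τ i) : ι w * eA F n T π ι i (i + 1) = eA F n T π ι i (i + 1) := by
  have sq := h.w.sq i hi
  have c := h.cj (s i) hw
  have e := congrArg γ (h.qd i hi)
  rw [← h.eA_s hi, map_add, hγ, hγ, map_sub, map_one, map_natCast, map_mul, map_mul,
    h.n_e γ σ δ hγ hT hι hs, e2, hι _ sq, map_mul, e1, mul_assoc, ← mul_assoc (τ i),
    h.tor i hi w hw, mul_assoc, h.qd i hi, ← h.eA_s hi,
    show w * s i * (w * s i) = w * (s i * w * (s i)⁻¹ * (s i * s i)) by group,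
    h.im _ hw _ (mul_mem c sq), h.im _ c _ sq, mul_add, mul_add, mul_smul_comm, mul_smul_comm,
    mul_smul_comm, mul_smul_comm, add_right_inj, ← mul_assoc (ι (s i * w * _)), h.eA_T hi hw,
    ← mul_assoc (eA F n T π ι i (i + 1)), ← (h.eA_i hw _ _).eq] at e
  have e3 := congrArg (ι w⁻¹ * ·) (smul_right_injective A h.q1 e)
  simp only [← mul_assoc, h.iv hw, one_mul] at e3
  rw [← sub_eq_zero]
  exact h.t_inj' hi (by rw [sub_mul, e3, sub_self])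

theorem n_t (k : FC (gA F q n T s π ι τ) ev S) (hu : u * u = q) (hσ : σ u = u) {v : F}
    (hv : Gd u v) : γ (rV ev (xA q) n v) = rV ev (xA q) n v ∧
      ∀ i < n, ∀ w ∈ T, δ (s i) = w * s i → γ (τ i) = ι w * τ i →
        γ (tV ev rA (xA q) τ u v i) = ι w * tV ev rA (xA q) τ u v i := by
  obtain ⟨k1, k2⟩ := (h.pre k hu).nat γ σ hσ (k.nat γ σ hγ (fun j => by
    rcases j with p | a
    · exact h.n_e γ σ δ hγ hT hι hs _ _
    · rw [gA]
      split_ifs with ha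
      · exact h.n_j γ σ δ hγ hι hs ha
      · exact map_zero γ) fun l hl => h.sp_fix k σ hl) hv
  exact ⟨k1, fun i hi w hw e1 e2 => k2 i _ e2 (by
    rw [h.ev_E k]
    exact h.n_w γ σ δ hγ hT hι hs hi hw e1 e2)⟩

end

theorem main [Module.Finite F A] (hu : u * u = q) (ss : ∀ a ≤ n, Ss F (jA F q s ι τ a)) :
    ∃ (Θ : N →* A) (d : Aˣ), (∀ t ∈ T, Θ t = ι t) ∧ (∀ t ∈ T, Commute (ι t) d) ∧
      (∀ B : Subalgebra F A, (∀ x, Θ x ∈ B) → ∀ i < n, τ i ∈ B) ∧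
      (∀ y : Aˣ, (∀ t ∈ T, Commute (ι t) y) → (∀ i < n, Commute (τ i) y) →
        (∀ x, Commute (Θ x) y) ∧ Commute (d : A) y) ∧
      ∀ (γ : A →+* A) (σ : RingAut F) (δ : MulAut N), (∀ (c : F) a, γ (c • a) = σ c • γ a) →
        σ u = u → (∀ x, δ x ∈ T ↔ x ∈ T) → (∀ t ∈ T, γ (ι t) = ι (δ t)) →
        ((∀ i < n, ∃ w ∈ T, δ (s i) = w * s i ∧ γ (τ i) = ι w * τ i) ∨
          ∀ i j, i + j + 1 = n → ∃ w ∈ T, δ (s i) = w * s j ∧ γ (τ i) = ι w * τ j) →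
        ∀ x, γ (d * Θ x * ↑d⁻¹) = d * Θ (δ x) * ↑d⁻¹ := by
  obtain ⟨ev, S, k⟩ := h.g_ex ss
  have P := h.pre k hu
  obtain ⟨Θ0, t1, t2⟩ := h.w.lift ι h.i1 h.im (tV ev rA (xA q) τ u 1)
    (fun i hi t ht => P.t_tor hi ht) (fun i hi => P.t_sq1 hi) (P.brd (Or.inl rfl))
  let Θ : N →* A := Θ0.comp Subgroup.topEquiv.symm.toMonoidHom
  have a1 : ∀ t ∈ T, Θ t = ι t := fun t ht => t1 ⟨t, trivial⟩ ht
  have a2 : ∀ i < n, Θ (s i) = tV ev rA (xA q) τ u 1 i := fun i hi => t2 i hi _ rfl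
  clear_value Θ
  have M := P.fam a1 a2
  obtain ⟨b, d, b1, b2, b3, b4⟩ := M.flip
  have gu : Gd u u := Or.inr (Or.inl rfl)
  have nat : ∀ (γ : A →+* A) (σ : RingAut F) (δ : MulAut N),
      (∀ (c : F) a, γ (c • a) = σ c • γ a) → σ u = u → (∀ x, δ x ∈ T ↔ x ∈ T) →
      (∀ t ∈ T, γ (ι t) = ι (δ t)) →
      (∀ i < n, ∃ w ∈ T, δ (s i) = w * s i ∧ γ (τ i) = ι w * τ i) →
      (∀ x, γ (Θ x) = Θ (δ x)) ∧ γ d = d := fun γ σ δ hγ hσ hT hι hs => by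
    have nt := fun v hv => h.n_t γ σ δ hγ hT hι hs k hu hσ (v := v) hv
    refine ⟨h.hom_ext (f := γ.toMonoidHom.comp Θ) (g := Θ.comp δ.toMonoidHom) (fun t ht => ?_)
      fun i hi => ?_, b4 γ (fun i hi => ?_) fun v hv => (nt v hv).1⟩
    · change γ (Θ t) = Θ (δ t)
      rw [a1 t ht, a1 _ ((hT t).2 ht), hι t ht]
    · obtain ⟨w, hw, e1, e2⟩ := hs i hi
      change γ (Θ (s i)) = Θ (δ (s i))
      rw [e1, map_mul, a2 i hi, a1 w hw, (nt 1 (Or.inl rfl)).2 i hi w hw e1 e2]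
    · obtain ⟨w, hw, e1, e2⟩ := hs i hi
      exact ⟨w, hw, fun v hv => by rw [a1 w hw, (nt v hv).2 i hi w hw e1 e2]⟩
  refine ⟨Θ, d, a1, fun t ht => a1 t ht ▸ b3 t ht, fun B hB i hi => ?_, fun y y1 y2 => ?_,
    fun γ σ δ hγ hσ hT hι hs x => ?_⟩
  · have m : ∀ t ∈ T, ι t ∈ B := fun t ht => a1 t ht ▸ hB t
    refine P.onto m (fun j hj => ?_) (fun j hj => a2 j hj ▸ hB _) hi
    rw [h.ev_E k, h.eA_s hj]
    exact h.eG_mem m _
  · obtain ⟨c1, c2⟩ := nat (cjH y) 1 1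
      (fun c a => cjH_eq.2 (by
        rw [mul_smul_comm, smul_mul_assoc, cjH_eq.1 (rfl : cjH y a = _)]
        rfl)) rfl (fun _ => Iff.rfl)
      (fun t ht => cjH_eq.2 (y1 t ht).eq)
      fun i hi => ⟨1, one_mem _, (one_mul _).symm, by
        rw [h.i1, one_mul]
        exact cjH_eq.2 (y2 i hi).eq⟩
    exact ⟨fun x => cjH_eq.1 (c1 x), cjH_eq.1 c2⟩
  rcases hs with hs | hs
  · obtain ⟨c1, c2⟩ := nat γ σ δ hγ hσ hT hι hs
    exact flp_id γ (c1 x) c2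
  have cj : ∀ t ∈ T, (wH s n)⁻¹ * t * wH s n ∈ T := fun t ht => by
    simpa using h.cj (wH s n)⁻¹ ht
  have bi : ∀ t ∈ T, ι t * b = b * ι ((wH s n)⁻¹ * t * wH s n) := fun t ht => by
    rw [← a1 t ht, ← a1 _ (cj t ht), b1, M.b_inv gu ht]
  have ed : ∀ x, (MulAut.conj (wH s n)⁻¹ * δ) x = (wH s n)⁻¹ * δ x * wH s n := fun x => by simp
  obtain ⟨c1, c2⟩ := nat ((cjH b).comp γ) σ (MulAut.conj (wH s n)⁻¹ * δ)
    (fun c a => cjH_eq.2 (by
      rw [hγ, mul_smul_comm, smul_mul_assoc, cjH_eq.1 (rfl : cjH b (γ a) = _)]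
      rfl)) hσ
    (fun x => by
      rw [ed, ← hT x]
      exact ⟨fun c => by simpa [mul_assoc] using h.cj (wH s n) c, cj _⟩)
    (fun t ht => cjH_eq.2 (by rw [hι t ht, ed, bi _ ((hT t).2 ht)]))
    fun i hi => by
      obtain ⟨j, hj⟩ : ∃ j, i + j + 1 = n := ⟨n - i - 1, by omega⟩
      obtain ⟨w, hw, e1, e2⟩ := hs i j hj
      refine ⟨_, cj w hw, ?_, cjH_eq.2 ?_⟩
      · rw [ed, e1, mul_assoc, mul_assoc, ← h.w.br.wH_s le_rfl hj]
        simp only [mul_assoc]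
      · have e := M.b_t gu hj
        rw [P.t_u, P.t_u, ← b1] at e
        rw [e2, mul_assoc, ← e, ← mul_assoc, bi w hw, mul_assoc]
  exact flp_nat b2 γ ((c1 x).trans (congrArg Θ (ed x))) c2

end HA

end Pool.Agent.Lib.MP_1ae3da_al.CT.A
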