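import Pool.Agent.Lib.MP_1ae3da_al.A.Tw
import Pool.Agent.Lib.MP_1ae3da_al.A.Fc

/-! The input of the type `A` machine and the family `τ v`. -/

namespace Pool.Agent.Lib.MP_1ae3da_al.CT.A

open Classical in
/-- the `Q`-integer `[c]`. -/
noncomputable def qi {F : Type} [Field F] (Q : F) (c : ℤ) : F :=
  if Q = 1 then c else (Q ^ c - 1) / (Q - 1)

variable {F A N L : Type} [Field F] [Ring A] [Algebra F A] [Group N]

open Classical in
/-- the indicator of `r a b`. -/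
noncomputable def fE (F : Type) [Field F] (r : ℕ → ℕ → L → Prop) (a b : ℕ) (l : L) : F :=
  if r a b l then 1 else 0

open Classical in
/-- `e / [x a - x b]`. -/
noncomputable def fA (r : ℕ → ℕ → L → Prop) (x : ℕ → L → ℤ) (Q : F) (a b : ℕ) (l : L) : F :=
  if r a b l then (qi Q (x a l - x b l))⁻¹ else 0

/-- the square of the intertwiner on related weights. -/
noncomputable def ps (Q : F) (c : ℤ) : F := Q + (qi Q c)⁻¹ * (qi Q (-c))⁻¹

open Classical in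
/-- the normalising factor of the intertwiner. -/
noncomputable def fH (r : ℕ → ℕ → L → Prop) (x : ℕ → L → ℤ) (u v : F) (a b : ℕ) (l : L) : F :=
  if r a b l then
    (if 2 ≤ x a l - x b l then ps (v * v) (x a l - x b l) / ps (u * u) (x a l - x b l) else 1)
  else v / u

/-- the input: `τ0` are the Hecke generators, `r a b` says that the idempotent `e a b` acts as `1`,
`q ^ x a` is the eigenvalue of the Jucys-Murphy element, positions are `0, ..., n`. -/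
structure Pre (q : ℕ) (u : F) (n : ℕ) (T : Subgroup N) (s : ℕ → N) (ι : N → A)
    (ev : (L → F) →ₐ[F] A) (S : Finset L) (sw : ℕ → L → L) (r : ℕ → ℕ → L → Prop)
    (x : ℕ → L → ℤ) (τ0 : ℕ → A) : Prop where
  q2 : 2 ≤ q
  uu : u * u = q
  bs : Brd n s
  nrm : ∀ i < n, s i ∈ Subgroup.normalizer (T : Set N)
  sq : ∀ i < n, s i * s i ∈ T
  i1 : ι 1 = 1
  im : ∀ t ∈ T, ∀ t' ∈ T, ι (t * t') = ι t * ι t'
  ker : ∀ f, ev f = 0 ↔ ∀ l ∈ S, f l = 0
  rsw : ∀ i < n, ∀ a b l, r a b (sw i l) ↔ r (Equiv.swap i (i + 1) a) (Equiv.swap i (i + 1) b) l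
  xsw : ∀ i < n, ∀ a l, x a (sw i l) = x (Equiv.swap i (i + 1) a) l
  rs : ∀ l ∈ S, ∀ a ≤ n, ∀ b ≤ n, r a b l → r b a l
  rt : ∀ l ∈ S, ∀ a ≤ n, ∀ b ≤ n, ∀ c ≤ n, a ≠ b → b ≠ c → a ≠ c → r a b l → r b c l → r a c l
  x0 : ∀ l ∈ S, x 0 l = 0
  ov2 : ∀ l ∈ S, ∀ i < n, r i (i + 1) l → x i l ≠ x (i + 1) l
  ov3 : ∀ l ∈ S, ∀ i, i + 1 < n → r i (i + 2) l → x i l ≠ x (i + 2) l
  bt : Brd n τ0
  qd : ∀ i < n, τ0 i * τ0 i =
    (u * u) • ι (s i * s i) + (u * u - 1) • (ev (fE F r i (i + 1)) * τ0 i)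
  int : ∀ i < n, ∀ f, (τ0 i + ev (fA r x (u * u) i (i + 1))) * ev f =
    ev (fun l => f (sw i l)) * (τ0 i + ev (fA r x (u * u) i (i + 1)))
  tor : ∀ i < n, ∀ t ∈ T, τ0 i * ι t = ι (s i * t * (s i)⁻¹) * τ0 i
  ie : ∀ t ∈ T, ∀ f, Commute (ι t) (ev f)
  eT : ∀ i < n, ∀ t ∈ T,
    ι (s i * t * (s i)⁻¹) * ev (fE F r i (i + 1)) = ι t * ev (fE F r i (i + 1))
  e1 : ∀ i < n, ι (s i * s i) * ev (fE F r i (i + 1)) = ev (fE F r i (i + 1))
  e2 : ∀ i, i + 1 < n →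
    ι (s i * s i) * ev (fE F r i (i + 2)) = ι (s (i + 1) * s (i + 1)) * ev (fE F r i (i + 2))

/-- the normalised intertwiner. -/
noncomputable def pV (ev : (L → F) →ₐ[F] A) (r : ℕ → ℕ → L → Prop) (x : ℕ → L → ℤ) (τ0 : ℕ → A)
    (u v : F) (i : ℕ) : A :=
  (τ0 i + ev (fA r x (u * u) i (i + 1))) * ev (fH r x u v i (i + 1))

/-- the family of generators; `tV u = τ0`, and `tV 1` are the images of the `s i`. -/
noncomputable def tV (ev : (L → F) →ₐ[F] A) (r : ℕ → ℕ → L → Prop) (x : ℕ → L → ℤ) (τ0 : ℕ → A)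
    (u v : F) (i : ℕ) : A :=
  pV ev r x τ0 u v i - ev (fA r x (v * v) i (i + 1))

/-- the Jucys-Murphy elements of the family. -/
noncomputable def zV (ev : (L → F) →ₐ[F] A) (x : ℕ → L → ℤ) (v : F) (a : ℕ) : A :=
  ev fun l => (v * v) ^ ((a : ℤ) + x a l)

/-- the inverse root of the full twist. -/
noncomputable def rV (ev : (L → F) →ₐ[F] A) (x : ℕ → L → ℤ) (n : ℕ) (v : F) : A :=
  ev fun l => v ^ (-∑ a ∈ Finset.range (n + 1), ((a : ℤ) + x a l))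

end Pool.Agent.Lib.MP_1ae3da_al.CT.A
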