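import Pool.Agent.Lib.MP_1ae3da_al.A.Pre

/-! The `Q`-integers. -/

namespace Pool.Agent.Lib.MP_1ae3da_al.CT.A

variable {F : Type} [Field F] {Q : F}

theorem qi_one (c : ℤ) : qi (1 : F) c = c := if_pos rfl

theorem qi_mul (c : ℤ) : (Q - 1) * qi Q c = Q ^ c - 1 := by
  unfold qi
  split_ifs with h
  · simp [h]
  · rw [mul_div_cancel₀ _ (sub_ne_zero.2 h)]

theorem qi_add (h : Q ≠ 0) (a b : ℤ) : qi Q (a + b) = qi Q a + Q ^ a * qi Q b := by
  unfold qi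
  split_ifs with k
  · simp [k]
  · have := sub_ne_zero.2 k
    rw [zpow_add₀ h]
    field_simp
    ring

theorem qi_add' (h : Q ≠ 0) (a b : ℤ) :
    qi Q (a + b) = qi Q a + qi Q b + (Q - 1) * qi Q a * qi Q b := by
  rw [qi_add h, qi_mul]
  ring

theorem qi_0 : qi Q 0 = 0 := by simp [qi]

theorem qi_1 : qi Q 1 = 1 := by
  unfold qi
  split_ifs with k
  · simp
  · rw [zpow_one, div_self (sub_ne_zero.2 k)]

/-- no `Q`-integer vanishes. -/
def Gq (Q : F) : Prop := Q ≠ 0 ∧ ∀ c : ℤ, c ≠ 0 → qi Q c ≠ 0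

theorem gq_nat [CharZero F] {m : ℕ} (hm : 2 ≤ m) : Gq (m : F) := by
  refine ⟨Nat.cast_ne_zero.2 (by omega), fun c hc k => ?_⟩
  have := qi_mul (Q := (m : F)) c
  rw [k, mul_zero, eq_comm, sub_eq_zero] at this
  have e : (((m : ℚ) ^ c : ℚ) : F) = ((1 : ℚ) : F) := by simpa using this
  have e2 : (1 : ℚ) < m := by exact_mod_cast hm
  exact hc ((zpow_eq_one_iff_right₀ (by positivity) e2.ne').1 (Rat.cast_injective e))

theorem Gd.gq [CharZero F] {q : ℕ} {u v : F} (h : Gd u v) (hq : 2 ≤ q) (hu : u * u = q) :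
    Gq (v * v) := by
  rcases h with rfl | rfl | ⟨m, hm, rfl⟩
  · exact ⟨by simp, fun c hc => by rw [mul_one, qi_one]; exact Int.cast_ne_zero.2 hc⟩
  · exact hu ▸ gq_nat hq
  · have := gq_nat (F := F) (m := m * m) (by nlinarith)
    rwa [Nat.cast_mul] at this

theorem Gq.neg (h : Gq Q) {c : ℤ} (hc : c ≠ 0) : (qi Q (-c))⁻¹ = -(Q - 1) - (qi Q c)⁻¹ := by
  have a := h.2 c hc
  have b := h.2 (-c) (neg_ne_zero.2 hc)
  have e := qi_add' h.1 c (-c)
  rw [add_neg_cancel, qi_0] at e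
  field_simp
  linear_combination -e

theorem Gq.i1 (h : Gq Q) {a b : ℤ} (ha : a ≠ 0) (hb : b ≠ 0) (hc : a + b ≠ 0) :
    (qi Q b)⁻¹ * (qi Q a)⁻¹ + (qi Q (-a))⁻¹ * (qi Q (a + b))⁻¹ =
      (qi Q (a + b))⁻¹ * (qi Q b)⁻¹ := by
  have e := qi_add' h.1 a b
  have := h.2 a ha
  have := h.2 b hb
  have := h.2 _ hc
  rw [h.neg ha]
  field_simp
  linear_combination e

theorem ps_neg (c : ℤ) : ps Q (-c) = ps Q c := by rw [ps, ps, neg_neg, mul_comm]

theorem Gq.ps_eq (h : Gq Q) {c : ℤ} (hc : c ≠ 0) :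
    ps Q c * (qi Q c * qi Q c) = Q * qi Q (c + 1) * qi Q (c + -1) := by
  have a := h.2 c hc
  have m : Q * qi Q (-1) = -1 := by
    have e := qi_add h.1 1 (-1)
    rw [add_neg_cancel, qi_0, qi_1, zpow_one] at e
    linear_combination -e
  rw [ps, h.neg hc, qi_add' h.1, qi_add' h.1, qi_1]
  field_simp
  linear_combination (-(1 + Q * qi Q c) * (1 + (Q - 1) * qi Q c)) * m

theorem Gq.ps_1 (h : Gq Q) : ps Q 1 = 0 := by
  have := h.ps_eq one_ne_zero
  rwa [add_neg_cancel, qi_0, qi_1, mul_zero, mul_one, mul_one] at this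

theorem Gq.ps_ne (h : Gq Q) {c : ℤ} (hc : 2 ≤ c) : ps Q c ≠ 0 := fun k => by
  have := h.ps_eq (c := c) (by omega)
  rw [k, zero_mul] at this
  exact mul_ne_zero (mul_ne_zero h.1 (h.2 _ (by omega))) (h.2 _ (by omega)) this.symm

theorem rgS_congr {v0 : F} (h0 : v0 ≠ 0) {f g : F → F} (hf : f ∈ RgS v0)
    (e : ∀ v, v ≠ 0 → g v = f v) : g ∈ RgS v0 := by
  obtain ⟨N, D, h, k⟩ := hf
  refine ⟨N * Polynomial.X, D * Polynomial.X, by simp [h, h0], fun v hv => ?_⟩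
  simp only [Polynomial.eval_mul, Polynomial.eval_X, mul_ne_zero_iff] at hv ⊢
  rw [e v hv.2, ← mul_assoc, k v hv.1]

theorem rgS_qi {v0 : F} (h0 : v0 ≠ 0) (c : ℤ) : (fun v => qi (v * v) c) ∈ RgS v0 := by
  have z : ∀ c : ℤ, (fun v : F => (v * v) ^ c) ∈ RgS v0 := fun c =>
    rgS_zpow (rgS_mul rgS_id rgS_id) (mul_ne_zero h0 h0) c
  induction c using Int.induction_on with
  | zero => simpa only [qi_0] using rgS_const (0 : F)
  | succ c ih =>
    exact rgS_congr h0 (rgS_add ih (z c)) fun v hv => by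
      rw [qi_add (mul_ne_zero hv hv), qi_1, mul_one]
  | pred c ih =>
    exact rgS_congr h0 (rgS_add ih (rgS_neg (z (-c - 1)))) fun v hv => by
      have := qi_add (mul_ne_zero hv hv) (-c - 1) 1
      rw [sub_add_cancel, qi_1, mul_one] at this
      rw [this, add_neg_cancel_right]

theorem rgS_qinv {v0 : F} (h0 : Gq (v0 * v0)) (c : ℤ) : (fun v => (qi (v * v) c)⁻¹) ∈ RgS v0 := by
  by_cases hc : c = 0
  · simpa only [hc, qi_0, inv_zero] using rgS_const (0 : F)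
  · exact rgS_inv (rgS_qi (left_ne_zero_of_mul h0.1) c) (h0.2 c hc)

theorem rgS_ps {v0 : F} (h0 : Gq (v0 * v0)) (c : ℤ) : (fun v => ps (v * v) c) ∈ RgS v0 :=
  rgS_add (rgS_mul rgS_id rgS_id) (rgS_mul (rgS_qinv h0 c) (rgS_qinv h0 _))

theorem qi_fix (σ : F →+* F) (h : σ Q = Q) (c : ℤ) : σ (qi Q c) = qi Q c := by
  unfold qi
  split_ifs <;> simp [h]

theorem ps_fix (σ : F →+* F) (h : σ Q = Q) (c : ℤ) : σ (ps Q c) = ps Q c := by
  simp [ps, h, qi_fix σ h]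

section ring
variable {A : Type} [Ring A] {p1 p2 a12 a21 a13 a23 a32 : A}

/-- the expansion of the braid relation. -/
theorem br_exp (k1 : a12 * p1 = p1 * a21) (k2 : a23 * p1 = p1 * a13) (k3 : a13 * p1 = p1 * a23)
    (k4 : a23 * p2 = p2 * a32) (k5 : a12 * p2 = p2 * a13) (k6 : a13 * p2 = p2 * a12)
    (i1 : a23 * a12 + a21 * a13 = a13 * a23) (i2 : a12 * a23 + a32 * a13 = a13 * a12)
    (i3 : p1 * p1 * a13 + a12 * a23 * a12 = p2 * p2 * a13 + a23 * a12 * a23) :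
    (p1 - a12) * (p2 - a23) * (p1 - a12) - (p2 - a23) * (p1 - a12) * (p2 - a23) =
      p1 * p2 * p1 - p2 * p1 * p2 := by
  have e1 : p1 * a23 * p1 = p1 * p1 * a13 := by rw [mul_assoc, k2, mul_assoc]
  have e2 : a12 * p2 * p1 = p2 * p1 * a23 := by rw [k5, mul_assoc, k3, mul_assoc]
  have e3 : a12 * p2 * a12 = p2 * (a13 * a12) := by rw [k5, mul_assoc]
  have e4 : a12 * a23 * p1 = p1 * (a21 * a13) := by rw [mul_assoc, k2, ← mul_assoc, k1, mul_assoc]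
  have f1 : p2 * a12 * p2 = p2 * p2 * a13 := by rw [mul_assoc, k5, mul_assoc]
  have f2 : a23 * p1 * p2 = p1 * p2 * a12 := by rw [k2, mul_assoc, k6, mul_assoc]
  have f3 : a23 * p1 * a23 = p1 * (a13 * a23) := by rw [k2, mul_assoc]
  have f4 : a23 * a12 * p2 = p2 * (a32 * a13) := by rw [mul_assoc, k5, ← mul_assoc, k4, mul_assoc]
  have g1 := congrArg (p1 * ·) i1
  have g2 := congrArg (p2 * ·) i2
  simp only [mul_add] at g1 g2
  simp only [mul_sub, sub_mul]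
  rw [e1, e2, e3, e4, f1, f2, f3, f4, ← g1, ← g2, mul_assoc p1 a23, mul_assoc p2 a12,
    eq_sub_of_add_eq i3]
  abel

end ring

end Pool.Agent.Lib.MP_1ae3da_al.CT.A
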