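import Mathlib

/-! Functions of one parameter that are rational and regular at a point; units among them. -/

namespace Pool.Agent.Lib.MP_1ae3da_al.CT.A

open Polynomial

variable {F : Type} [Field F]

/-- scalar functions that agree with a rational function which is regular at `v0`. -/
def RgS (v0 : F) : Subring (F → F) where
  carrier := {g | ∃ N D : F[X], D.eval v0 ≠ 0 ∧ ∀ v, D.eval v ≠ 0 → g v * D.eval v = N.eval v}
  one_mem' := ⟨1, 1, by simp, by simp⟩
  zero_mem' := ⟨0, 1, by simp, by simp⟩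
  mul_mem' := by
    rintro a b ⟨N, D, h, k⟩ ⟨N', D', h', k'⟩
    refine ⟨N * N', D * D', by simp [h, h'], fun v hv => ?_⟩
    rw [eval_mul, mul_ne_zero_iff] at hv
    rw [eval_mul, eval_mul, ← k v hv.1, ← k' v hv.2, Pi.mul_apply]
    ring
  add_mem' := by
    rintro a b ⟨N, D, h, k⟩ ⟨N', D', h', k'⟩
    refine ⟨N * D' + N' * D, D * D', by simp [h, h'], fun v hv => ?_⟩
    rw [eval_mul, mul_ne_zero_iff] at hv
    rw [eval_add, eval_mul, eval_mul, eval_mul, ← k v hv.1, ← k' v hv.2, Pi.add_apply]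
    ring
  neg_mem' := by
    rintro a ⟨N, D, h, k⟩
    refine ⟨-N, D, h, fun v hv => ?_⟩
    rw [eval_neg, ← k v hv, Pi.neg_apply]
    ring

variable {v0 : F}

theorem rgS_const (c : F) : (fun _ => c) ∈ RgS v0 := ⟨C c, 1, by simp, by simp⟩

theorem rgS_id : (fun v => v) ∈ RgS v0 := ⟨X, 1, by simp, by simp⟩

theorem rgS_mul {f g : F → F} (hf : f ∈ RgS v0) (hg : g ∈ RgS v0) :
    (fun v => f v * g v) ∈ RgS v0 := mul_mem hf hg

theorem rgS_add {f g : F → F} (hf : f ∈ RgS v0) (hg : g ∈ RgS v0) :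
    (fun v => f v + g v) ∈ RgS v0 := add_mem hf hg

theorem rgS_neg {f : F → F} (hf : f ∈ RgS v0) : (fun v => -f v) ∈ RgS v0 := neg_mem hf

theorem rgS_pow {f : F → F} (hf : f ∈ RgS v0) (n : ℕ) : (fun v => f v ^ n) ∈ RgS v0 :=
  pow_mem hf n

theorem rgS_sum {I : Type} (s : Finset I) {f : I → F → F} (hf : ∀ i ∈ s, f i ∈ RgS v0) :
    (fun v => ∑ i ∈ s, f i v) ∈ RgS v0 := by
  have := sum_mem hf
  rwa [show (∑ i ∈ s, f i) = fun v => ∑ i ∈ s, f i v from funext fun v => Finset.sum_apply _ _ _]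
    at this

theorem rgS_inv {f : F → F} (hf : f ∈ RgS v0) (h0 : f v0 ≠ 0) : (fun v => (f v)⁻¹) ∈ RgS v0 := by
  obtain ⟨N, D, h, k⟩ := hf
  refine ⟨D * D, D * N, by rw [eval_mul, ← k v0 h]; simp [h, h0], fun v hv => ?_⟩
  rw [eval_mul, mul_ne_zero_iff] at hv
  have e := k v hv.1
  have : f v ≠ 0 := fun z => hv.2 (by rw [← e, z, zero_mul])
  rw [eval_mul, eval_mul, ← e]
  field_simp

theorem rgS_div {f g : F → F} (hf : f ∈ RgS v0) (hg : g ∈ RgS v0) (h0 : g v0 ≠ 0) :
    (fun v => f v / g v) ∈ RgS v0 := by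
  simp only [div_eq_mul_inv]
  exact rgS_mul hf (rgS_inv hg h0)

theorem rgS_zpow {f : F → F} (hf : f ∈ RgS v0) (h0 : f v0 ≠ 0) (n : ℤ) :
    (fun v => f v ^ n) ∈ RgS v0 := by
  cases n with
  | ofNat n => simpa using rgS_pow hf n
  | negSucc n =>
    simp only [zpow_negSucc]
    exact rgS_inv (rgS_pow hf _) (pow_ne_zero _ h0)

theorem rgS_fin {f : F → F} (hf : f ∈ RgS v0) (h0 : f v0 ≠ 0) : {v | f v = 0}.Finite := by
  classical
  obtain ⟨N, D, h, k⟩ := hf
  have hn : D * N ≠ 0 := fun z => by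
    have := congrArg (eval v0) z
    rw [eval_mul, ← k v0 h] at this
    simp [h, h0] at this
  refine (D * N).roots.toFinset.finite_toSet.subset fun v hv => ?_
  rw [Finset.mem_coe, Multiset.mem_toFinset, mem_roots hn, IsRoot, eval_mul]
  by_cases z : D.eval v = 0
  · rw [z, zero_mul]
  · rw [← k v z, show f v = 0 from hv, zero_mul, mul_zero]

variable {A : Type} [Ring A] [Algebra F A]

/-- functions with values in an algebra that are regular at `v0`. -/
def Rg (A : Type) [Ring A] [Algebra F A] (v0 : F) : Subring (F → A) :=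
  Subring.closure {f | ∃ g ∈ RgS v0, ∃ a : A, f = fun v => g v • a}

theorem rg_smul {g : F → F} (hg : g ∈ RgS v0) (a : A) : (fun v => g v • a) ∈ Rg A v0 :=
  Subring.subset_closure ⟨g, hg, a, rfl⟩

theorem rg_const (a : A) : (fun _ => a) ∈ Rg A v0 := by
  simpa using rg_smul (v0 := v0) (rgS_const 1) a

theorem rg_mul {f g : F → A} (hf : f ∈ Rg A v0) (hg : g ∈ Rg A v0) :
    (fun v => f v * g v) ∈ Rg A v0 := mul_mem hf hg

theorem rg_add {f g : F → A} (hf : f ∈ Rg A v0) (hg : g ∈ Rg A v0) :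
    (fun v => f v + g v) ∈ Rg A v0 := add_mem hf hg

theorem rg_sub {f g : F → A} (hf : f ∈ Rg A v0) (hg : g ∈ Rg A v0) :
    (fun v => f v - g v) ∈ Rg A v0 := sub_mem hf hg

theorem rg_sum {I : Type} (s : Finset I) {f : I → F → A} (hf : ∀ i ∈ s, f i ∈ Rg A v0) :
    (fun v => ∑ i ∈ s, f i v) ∈ Rg A v0 := by
  have := sum_mem hf
  rwa [show (∑ i ∈ s, f i) = fun v => ∑ i ∈ s, f i v from funext fun v => Finset.sum_apply _ _ _]
    at this

theorem rg_lin {f : F → A} (hf : f ∈ Rg A v0) (φ : A →ₗ[F] F) :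
    (fun v => φ (f v)) ∈ RgS v0 := by
  have key : ∀ h : F → A, (∀ φ : A →ₗ[F] F, (fun v => φ (h v)) ∈ RgS v0) →
      ∀ φ : A →ₗ[F] F, (fun v => φ (f v * h v)) ∈ RgS v0 := by
    clear φ
    induction hf using Subring.closure_induction with
    | mem x hx =>
      obtain ⟨g, hg, b, rfl⟩ := hx
      intro h k φ
      simpa using rgS_mul hg (k (φ ∘ₗ LinearMap.mulLeft F b))
    | zero => exact fun h k φ => by simpa using rgS_const (v0 := v0) 0
    | one => exact fun h k φ => by simpa using k φ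
    | add x y _ _ hx hy => exact fun h k φ => by simpa [add_mul] using rgS_add (hx h k φ) (hy h k φ)
    | neg x _ hx => exact fun h k φ => by simpa using rgS_neg (hx h k φ)
    | mul x y _ _ hx hy => exact fun h k φ => by simpa [mul_assoc] using hx _ (hy h k) φ
  simpa using key (fun _ => 1) (fun φ => rgS_const _) φ

theorem rg_unit [Module.Finite F A] {f : F → A} (hf : f ∈ Rg A v0) (h0 : IsUnit (f v0)) :
    {v | ¬ IsUnit (f v)}.Finite := by
  classical
  let b := Module.finBasis F A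
  have key : ∀ a : A, IsUnit a ↔ (Algebra.leftMulMatrix b a).det ≠ 0 := fun a => by
    rw [← isUnit_iff_ne_zero, ← Matrix.isUnit_iff_isUnit_det, Algebra.leftMulMatrix_apply,
      ← Algebra.lmul_isUnit_iff (R := F), LinearMap.isUnit_toMatrix_iff]
  have : (fun v => (Algebra.leftMulMatrix b (f v)).det) ∈ RgS v0 := by
    simp only [Matrix.det_apply']
    refine rgS_sum _ fun σ _ => rgS_mul (rgS_const _) ?_
    have := prod_mem (S := RgS v0) (t := Finset.univ)
      (f := fun i v => Algebra.leftMulMatrix b (f v) (σ i) i) fun i _ => by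
        simpa [Algebra.leftMulMatrix_eq_repr_mul] using
          rg_lin hf (b.coord (σ i) ∘ₗ LinearMap.mulRight F (b i))
    rwa [show (∏ i, fun v => Algebra.leftMulMatrix b (f v) (σ i) i) =
      fun v => ∏ i, Algebra.leftMulMatrix b (f v) (σ i) i from
        funext fun v => Finset.prod_apply _ _ _] at this
  refine (rgS_fin this ((key _).1 h0)).subset fun v hv => ?_
  by_contra k
  exact hv ((key _).2 k)

/-- two families that are units at their base points are both units at some natural number. -/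
theorem rg_nat [CharZero F] [Module.Finite F A] {v1 : F} {f g : F → A} (hf : f ∈ Rg A v0)
    (h0 : IsUnit (f v0)) (hg : g ∈ Rg A v1) (h1 : IsUnit (g v1)) :
    ∃ m : ℕ, 2 ≤ m ∧ IsUnit (f m) ∧ IsUnit (g m) := by
  have := ((rg_unit hf h0).union (rg_unit hg h1)).preimage
    (f := fun m : ℕ => (m : F)) Nat.cast_injective.injOn
  obtain ⟨m, hm, k⟩ := (Set.Ici_infinite 2).exists_notMem_finite this
  exact ⟨m, hm, by_contra fun z => k (Or.inl z), by_contra fun z => k (Or.inr z)⟩

end Pool.Agent.Lib.MP_1ae3da_al.CT.A
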