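import Pool.Agent.Lib.MP_1ae3da_al.A.Sl1
import Pool.Agent.Lib.MP_1ae3da_al.J.Gd

/-! `SL_(k+1)(F)` as a split Tits system of type `A`. -/

namespace Pool.Agent.Lib.MP_1ae3da_al.SLI

open Matrix Matrix.SpecialLinearGroup CT.A JM

variable {F : Type} [Field F] {m k r : ℕ}

lemma sn_ne {i : ℕ} (h : i < k) :
    (⟨i, by omega⟩ : Fin (k + 1)) ≠ ⟨i + 1, by omega⟩ := fun e => by
  simp [Fin.ext_iff] at e

/-- the Tits lifts of the simple reflections. -/
noncomputable def sn (k : ℕ) (F : Type) [Field F] (i : ℕ) : SLm (k + 1) F :=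
  if h : i < k then wn (sn_ne h) else 1

lemma sn_eq {i : ℕ} (h : i < k) : sn k F i = wn (sn_ne h) := dif_pos h

lemma sn_brd : Brd k (sn k F) := by
  refine ⟨fun i j h hj => ?_, fun i hi => ?_⟩
  · rw [sn_eq hj, sn_eq (by omega : i < k)]
    refine wn_far _ _ ?_ ?_ ?_ ?_ <;> simp only [ne_eq, Fin.ext_iff] <;> omega
  · rw [sn_eq hi, sn_eq (by omega : i < k)]
    refine wn_br _ _ ?_
    simp only [ne_eq, Fin.ext_iff]
    omega

lemma tv_zero {a b : Fin m} (h : a ≠ b) : transvection h (0 : F) = 1 := by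
  apply Subtype.ext
  show 1 + single a b (0 : F) = 1
  simp

lemma sl_tor [Finite F] {U : Sylow r (SLm m F)} (hU : (U : Subgroup (SLm m F)) = US m F)
    {t : SLm m F} : t ∈ Tor U (MonS m F) ↔ IsMon t.1 1 := by
  have e : (U : Set (SLm m F)) = US m F := hU ▸ rfl
  rw [Subgroup.mem_inf, e]
  constructor
  · rintro ⟨⟨σ, h1⟩, h2⟩
    have hm : StrictMono σ := fun a b hab => lt_of_conj h1
      ((Subgroup.mem_normalizer_iff''.mp h2 _).mp (tv_US hab 1)) hab.ne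
      (by rw [tv_val]; exact one_ne_zero)
    have : σ = 1 := by
      ext1 i
      exact le_antisymm hm.apply_le hm.le_apply
    exact this ▸ h1
  · intro ht
    refine ⟨⟨1, ht⟩, Subgroup.mem_normalizer_fintype fun u hu => ?_⟩
    have := dg_norm (mon_inv ht) hu
    rwa [inv_inv] at this

lemma ex_word (σ : Equiv.Perm (Fin (k + 1))) :
    ∃ g ∈ Subgroup.closure (sn k F '' Set.Iio k), IsMon g.1 σ := by
  have h : σ ∈ Submonoid.closure (Set.range fun i : Fin k => Equiv.swap i.castSucc i.succ) := by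
    rw [Equiv.Perm.mclosure_swap_castSucc_succ]
    trivial
  induction h using Submonoid.closure_induction with
  | mem x hx =>
    obtain ⟨i, rfl⟩ := hx
    refine ⟨_, Subgroup.subset_closure ⟨i, i.2, rfl⟩, ?_⟩
    rw [sn_eq i.2]
    exact wn_mon _
  | one => exact ⟨1, one_mem _, mon_one⟩
  | mul x y _ _ a b =>
    obtain ⟨g, h1, h2⟩ := a
    obtain ⟨g', h3, h4⟩ := b
    exact ⟨g' * g, mul_mem h3 h1, mon_mul h4 h2⟩

section
variable [Finite F] {U : Sylow r (SLm m F)} (hU : (U : Subgroup (SLm m F)) = US m F)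
include hU

omit [Finite F] in
lemma sl_U {u : SLm m F} : u ∈ U ↔ u ∈ US m F := hU ▸ Iff.rfl

lemma sl_nrm : MonS m F ≤ Subgroup.normalizer (Tor U (MonS m F) : Set (SLm m F)) := by
  rintro n ⟨σ, hn⟩
  refine Subgroup.mem_normalizer_fintype fun t ht => (sl_tor hU).mpr ?_
  have := mon_mul (mon_mul hn ((sl_tor hU).mp ht)) (mon_inv hn)
  rwa [one_mul, inv_mul_cancel] at this

lemma wn_tits {a b : Fin m} (h : a ≠ b) (hab : (a : ℕ) + 1 = b) :
    ∀ g ∈ MonS m F, ∀ u ∈ U, ∃ v ∈ U, ∃ t ∈ Tor U (MonS m F), ∃ w ∈ U,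
      wn h * u * g = v * (t * (wn h * g)) * w ∨ wn h * u * g = v * (t * g) * w := by
  rintro g ⟨σ, hg⟩ u hu
  have lt : a < b := by
    show (a : ℕ) < b
    omega
  obtain ⟨v, hv, c, e⟩ := wn_split h hab ((sl_U hU).mp hu)
  rw [e]
  by_cases hc : c = 0
  · refine ⟨v, (sl_U hU).mpr hv, 1, one_mem _, 1, one_mem _, Or.inl ?_⟩
    rw [hc, tv_zero]
    group
  rcases lt_or_gt_of_ne (σ.injective.ne h) with l | l
  · refine ⟨v, (sl_U hU).mpr hv, 1, one_mem _, _, (sl_U hU).mpr (tv_conj hg h l c), Or.inl ?_⟩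
    group
  · obtain ⟨z, rfl⟩ : ∃ z : Fˣ, c = z := ⟨Units.mk0 c hc, rfl⟩
    refine ⟨_, (sl_U hU).mpr (mul_mem hv (tv_US lt (-(z : F)⁻¹))), _,
      (sl_tor hU).mpr (el_mon h (-z⁻¹)), _, (sl_U hU).mpr (tv_conj hg h.symm l (z : F)⁻¹),
      Or.inr ?_⟩
    rw [wn_tv]
    group

lemma wn_one {a b c : Fin m} (h : a ≠ b) (hab : (a : ℕ) + 1 = b) (h1 : a ≠ c) (h2 : b ≠ c) :
    ∀ u ∈ U, wn h * u * (wn h)⁻¹ ∈ U ∨ ∃ s ∈ Tor U (MonS m F), ∃ v ∈ U, ∃ w ∈ U,
      wn h * u * (wn h)⁻¹ = v * (s * wn h * s⁻¹) * w := by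
  intro u hu
  have lt : a < b := by
    show (a : ℕ) < b
    omega
  obtain ⟨v, hv, d, e⟩ := wn_split h hab ((sl_U hU).mp hu)
  rw [e]
  by_cases hc : d = 0
  · left
    rw [hc, tv_zero, mul_one, mul_inv_cancel_right]
    exact (sl_U hU).mpr hv
  obtain ⟨z, rfl⟩ : ∃ z : Fˣ, d = z := ⟨Units.mk0 d hc, rfl⟩
  refine Or.inr ⟨_, (sl_tor hU).mpr (el_mon h1 z⁻¹), _,
    (sl_U hU).mpr (mul_mem hv (tv_US lt (-(z : F)⁻¹))), _,
    (sl_U hU).mpr (tv_US lt (-(z : F)⁻¹)), ?_⟩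
  rw [wn_tv', ← el_wn h h1 h2]
  group

lemma sl_orb {p : ℕ} (hp : p.Prime) (h2 : p ≠ 2) (hq : p ∣ Nat.card F - 1) :
    ∀ u ∈ U, u ≠ 1 → p ∣ (Subgroup.centralizer {u}).relIndex (Tor U (MonS m F)) := by
  intro u hu h1
  have := Fact.mk hp
  obtain ⟨z, hz⟩ := exists_prime_orderOf_dvd_card' (G := Fˣ) p (by rwa [Nat.card_units])
  obtain ⟨i, j, hij, h0⟩ := ex_off ((sl_U hU).mp hu) h1
  have : ((Subgroup.centralizer {u}).subgroupOf (Tor U (MonS m F))).Normal :=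
    ⟨fun a ha g => by
      have : g * a * g⁻¹ = a := by
        rw [mul_inv_eq_iff_eq_mul]
        exact Subtype.ext (mon_one_comm ((sl_tor hU).mp g.2) ((sl_tor hU).mp a.2))
      rwa [this]⟩
  have h3 := Subgroup.pow_index_mem ((Subgroup.centralizer {u}).subgroupOf (Tor U (MonS m F)))
    ⟨el hij z, (sl_tor hU).mpr (el_mon hij z)⟩
  set s := (Subgroup.centralizer {u}).relIndex (Tor U (MonS m F)) with hs
  have h4 : el hij z ^ s * u = u * el hij z ^ s := Subgroup.mem_centralizer_singleton_iff.mp h3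
  rw [el_pow] at h4
  have h5 := el_comm hij _ h0 h4.symm
  rw [← pow_mul] at h5
  exact ((Nat.coprime_primes hp Nat.prime_two).mpr h2).dvd_of_dvd_mul_right
    (hz ▸ orderOf_dvd_of_pow_eq_one h5)

lemma sl_quad {p : ℕ} (hp : p.Prime) (h2 : p ≠ 2) (hq : p ∣ Nat.card F - 1)
    (h3 : m = 3 → p = 3 → 9 ∣ Nat.card F - 1) : ∀ g ∈ MonS m F,
      (∀ d ∈ Tor U (MonS m F), (∃ c, d ^ p ^ c = 1) → Commute (d * g * d⁻¹ * g⁻¹) g) →
        g ∈ Tor U (MonS m F) := by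
  rintro g ⟨σ, hg⟩ H
  have := Fact.mk hp
  have key : ∀ d : SLm m F, IsMon d.1 1 → (∃ c, d ^ p ^ c = 1) → ∀ i,
      d.1 i i * d.1 (σ (σ i)) (σ (σ i)) = d.1 (σ i) (σ i) * d.1 (σ i) (σ i) := by
    intro d hd hc i
    have c := (H d ((sl_tor hU).mpr hd) hc).eq
    have hx : IsMon (d * g * d⁻¹ * g⁻¹).1 1 := by
      have := mon_mul (mon_mul (mon_mul hd hg) (mon_inv hd)) (mon_inv hg)
      simpa using this
    generalize ex : d * g * d⁻¹ * g⁻¹ = x at c hx
    have e1 : x * g * d = d * g := by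
      rw [← ex]
      group
    have k1 : ∀ j, x.1 j j * d.1 (σ j) (σ j) = d.1 j j := fun j => by
      have a : (x.1 * g.1 * d.1) j (σ j) = (d.1 * g.1) j (σ j) :=
        congrArg (fun y : SLm m F => y.1 j (σ j)) e1
      have b := mon_r hd (x.1 * g.1) j (σ j)
      simp only [Equiv.Perm.coe_one, id] at b
      rw [b, mon_l hx, mon_l hd] at a
      simp only [Equiv.Perm.coe_one, id] at a
      exact mul_right_cancel₀ (mon_ne hg j) (by rw [← a]; ring)
    have k2 : x.1 i i = x.1 (σ i) (σ i) := by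
      have a : (x.1 * g.1) i (σ i) = (g.1 * x.1) i (σ i) :=
        congrArg (fun y : SLm m F => y.1 i (σ i)) c
      rw [mon_l hx, mon_l hg] at a
      simp only [Equiv.Perm.coe_one, id] at a
      exact mul_right_cancel₀ (mon_ne hg i) (a.trans (mul_comm _ _))
    rw [← k1 i, k2]
    linear_combination d.1 (σ i) (σ i) * k1 (σ i)
  have kel : ∀ {a b : Fin m} (h : a ≠ b) (z : Fˣ) (c : ℕ), z ^ p ^ c = 1 →
      ∃ c, el h z ^ p ^ c = 1 := fun h z c e => ⟨c, by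
    rw [el_pow, e]
    apply Subtype.ext
    rw [el_val]
    simp⟩
  obtain ⟨z, hz⟩ := exists_prime_orderOf_dvd_card' (G := Fˣ) p (by rwa [Nat.card_units])
  have z1 : z ^ p ^ 1 = 1 := by rw [pow_one, ← hz, pow_orderOf_eq_one]
  refine (sl_tor hU).mpr ?_
  suffices e : σ = 1 from e ▸ hg
  ext1 i
  by_contra ne
  have ne' : i ≠ σ i := fun e => ne e.symm
  have n2 : σ (σ i) ≠ σ i := σ.injective.ne ne
  by_cases c : σ (σ i) = i
  · have a := key _ (el_mon ne' z) (kel ne' z 1 z1) i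
    simp only [c, el_val, diagonal_apply_eq, if_true, if_neg ne'.symm, ← Units.val_mul,
      Units.val_inj] at a
    have b : z ^ 2 ^ 2 = 1 := by
      rw [show 2 ^ 2 = 2 + 2 from rfl, pow_add, pow_two]
      nth_rewrite 1 [a]
      group
    exact h2 ((Nat.prime_dvd_prime_iff_eq hp Nat.prime_two).mp
      (hp.dvd_of_dvd_pow (hz ▸ orderOf_dvd_of_pow_eq_one b)))
  by_cases c4 : ∃ e, e ≠ i ∧ e ≠ σ i ∧ e ≠ σ (σ i)
  · obtain ⟨e, e1, e2, e3⟩ := c4
    have a := key _ (el_mon e1.symm z) (kel e1.symm z 1 z1) i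
    simp only [el_val, diagonal_apply_eq, if_true, if_neg ne'.symm, if_neg c, if_neg e2.symm,
      if_neg e3.symm, ← Units.val_mul, Units.val_inj, mul_one] at a
    rw [a, orderOf_one] at hz
    exact hp.one_lt.ne hz
  have cube : ∀ (y : Fˣ) (c : ℕ), y ^ p ^ c = 1 → y ^ 3 = 1 := fun y j e => by
    have a := key _ (el_mon ne' y) (kel ne' y j e) i
    simp only [el_val, diagonal_apply_eq, if_true, if_neg ne'.symm, if_neg c, if_neg n2,
      ← Units.val_mul, Units.val_inj, mul_one] at a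
    rw [pow_succ', pow_two]
    nth_rewrite 1 [a]
    group
  have p3 : p = 3 := (Nat.prime_dvd_prime_iff_eq hp Nat.prime_three).mp
    (hz ▸ orderOf_dvd_of_pow_eq_one (cube z 1 z1))
  have m3 : m = 3 := by
    have u : (Finset.univ : Finset (Fin m)) = {i, σ i, σ (σ i)} := by
      ext e
      simp only [Finset.mem_univ, Finset.mem_insert, Finset.mem_singleton, true_iff]
      by_contra k
      push Not at k
      exact c4 ⟨e, k⟩
    have := congrArg Finset.card u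
    rwa [Finset.card_univ, Fintype.card_fin,
      Finset.card_eq_three.mpr ⟨_, _, _, ne', Ne.symm c, n2.symm, rfl⟩] at this
  obtain ⟨y, hy⟩ := IsCyclic.exists_ofOrder_eq_natCard (α := Fˣ)
  rw [Nat.card_units] at hy
  have h1 : 1 < Nat.card F := Finite.one_lt_card
  have ho := orderOf_pow_orderOf_div (x := y) (by omega) (hy ▸ h3 m3 p3)
  have := orderOf_dvd_of_pow_eq_one (cube (y ^ (orderOf y / 9)) 2 (by
    rw [p3, show 3 ^ 2 = 9 from rfl]
    exact orderOf_dvd_iff_pow_eq_one.mp ho.dvd))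
  rw [ho] at this
  omega

lemma sl_bv {p : ℕ} (hp : p.Prime) (h2 : p ≠ 2) (hpr : p ≠ r) (hq : p ∣ Nat.card F - 1)
    (h3 : m = 3 → p = 3 → 9 ∣ Nat.card F - 1) : BV p U (MonS m F) :=
  ⟨hpr, fun _ hx _ hy => mon_one_comm ((sl_tor hU).mp hx) ((sl_tor hU).mp hy), sl_nrm hU,
    fun x => by
      obtain ⟨u, hu, n, hn, v, hv, e⟩ := bruhat x
      exact ⟨u, (sl_U hU).mpr hu, n, hn, v, (sl_U hU).mpr hv, e⟩,
    sl_orb hU hp h2 hq, sl_quad hU hp h2 hq h3⟩

end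

section
variable [Finite F] {U : Sylow r (SLm (k + 1) F)}
  (hU : (U : Subgroup (SLm (k + 1) F)) = US (k + 1) F)
include hU

lemma sl_wa : WA k (MonS (k + 1) F) (Tor U (MonS (k + 1) F)) (sn k F) := by
  refine ⟨inf_le_left, sl_nrm hU, fun i hi => ?_, fun i hi => ?_, sn_brd, ?_, ?_⟩
  · rw [sn_eq hi]
    exact ⟨_, wn_mon _⟩
  · rw [sn_eq hi, sl_tor hU]
    have := mon_mul (wn_mon (F := F) (sn_ne hi)) (wn_mon (F := F) (sn_ne hi))
    rwa [Equiv.swap_mul_self] at this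
  · rintro g ⟨σ, hg⟩
    obtain ⟨w, h1, h2⟩ := ex_word (F := F) σ
    have := mon_mul hg (mon_inv h2)
    rw [inv_mul_cancel] at this
    have e : g = g * w⁻¹ * w := by group
    rw [e]
    exact mul_mem (Subgroup.subset_closure (Or.inl ((sl_tor hU).mpr this)))
      (Subgroup.closure_mono Set.subset_union_right h1)
  · have e : (Tor U (MonS (k + 1) F)).subgroupOf (MonS (k + 1) F) = (wey (k + 1) F).ker := by
      ext g
      obtain ⟨σ, h⟩ := g.2
      rw [MonoidHom.mem_ker, Subgroup.mem_subgroupOf, sl_tor hU, wey_eq h, inv_eq_one]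
      exact ⟨mon_uniq' h, fun e => e ▸ h⟩
    have s : Function.Surjective (wey (k + 1) F) := fun σ => by
      obtain ⟨w, -, h2⟩ := ex_word (F := F) σ⁻¹
      exact ⟨⟨w, _, h2⟩, (wey_eq h2).trans (inv_inv σ)⟩
    rw [Subgroup.relIndex, e, Subgroup.index_ker, MonoidHom.range_eq_top.mpr s, Subgroup.card_top,
      Nat.card_perm, Nat.card_eq_fintype_card, Fintype.card_fin]

lemma sl_tits : ∀ i, i < k → ∀ g ∈ MonS (k + 1) F, ∀ u ∈ U, ∃ v ∈ U,
    ∃ t ∈ Tor U (MonS (k + 1) F), ∃ w ∈ U, sn k F i * u * g = v * (t * (sn k F i * g)) * w ∨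
      sn k F i * u * g = v * (t * g) * w := fun i hi => by
  rw [sn_eq hi]
  exact wn_tits hU _ rfl

lemma sl_one (hk : 2 ≤ k) : ∀ i, i < k → ∀ u ∈ U, sn k F i * u * (sn k F i)⁻¹ ∈ U ∨
    ∃ s ∈ Tor U (MonS (k + 1) F), ∃ v ∈ U, ∃ w ∈ U,
      sn k F i * u * (sn k F i)⁻¹ = v * (s * sn k F i * s⁻¹) * w := fun i hi => by
  rw [sn_eq hi]
  rcases Nat.eq_zero_or_pos i with rfl | h0
  · exact wn_one hU (c := ⟨2, by omega⟩) _ rfl (by simp [Fin.ext_iff]) (by simp [Fin.ext_iff])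
  · refine wn_one hU (c := ⟨0, by omega⟩) _ rfl ?_ ?_ <;> simp only [ne_eq, Fin.ext_iff] <;> omega

end

end Pool.Agent.Lib.MP_1ae3da_al.SLI
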