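import Pool.Agent.Lib.MP_1ae3da_al.A.Lft

/-! The Weyl group of type `A`: the map to permutations and the symmetries of the diagram. -/

namespace Pool.Agent.Lib.MP_1ae3da_al.CT.A

variable {k : ℕ} {X : Type} [Group X] {N T : Subgroup X} {n : ℕ → X}

theorem brd_swap (k : ℕ) : Brd k fun i => Equiv.swap i (i + 1) := by
  refine ⟨fun i j h _ => ?_, fun i _ => ?_⟩
  · ext x
    simp only [Equiv.Perm.coe_mul, Function.comp, Equiv.swap_apply_def]
    split_ifs <;> omega
  · ext x
    simp only [Equiv.Perm.coe_mul, Function.comp, Equiv.swap_apply_def]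
    split_ifs <;> omega

theorem WA.perm [Finite X] (h : WA k N T n) : ∃ π : N →* Equiv.Perm ℕ,
    (∀ t : N, (t : X) ∈ T → π t = 1) ∧
      ∀ i, i < k → ∀ x : N, (x : X) = n i → π x = Equiv.swap i (i + 1) :=
  WA.lift h (G := Equiv.Perm ℕ) (fun _ => 1) rfl (fun _ _ _ _ => (one_mul _).symm)
    (fun i => Equiv.swap i (i + 1))
    (fun _ _ _ _ => by rw [mul_one, one_mul]) (fun _ _ => Equiv.swap_mul_self _ _) (brd_swap k)

theorem WA.nt [Finite X] (h : WA k N T n) {i : ℕ} (hi : i < k) : n i ∉ T := fun c => by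
  obtain ⟨π, h1, h2⟩ := h.perm
  have e := (h1 ⟨_, h.mem i hi⟩ c).symm.trans (h2 i hi _ rfl)
  have := congrArg (· i) e
  simp at this

theorem WA.ne1 [Finite X] (h : WA k N T n) {i j : ℕ} (hi : i < k) (hj : j < k) (hne : i ≠ j) :
    (n i)⁻¹ * n j ∉ T := fun c => by
  obtain ⟨π, h1, h2⟩ := h.perm
  have e := h1 ((⟨_, h.mem i hi⟩ : N)⁻¹ * ⟨_, h.mem j hj⟩) c
  rw [map_mul, map_inv, h2 i hi _ rfl, h2 j hj _ rfl, inv_mul_eq_one] at e
  have e1 := congrArg (· i) e
  have e2 := congrArg (· (i + 1)) e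
  simp only [Equiv.swap_apply_def] at e1 e2
  split_ifs at e1 e2 <;> omega

theorem WA.ne2 [Finite X] (h : WA k N T n) {i : ℕ} (hi : i + 1 < k) :
    (n i * n (i + 1))⁻¹ * (n (i + 1) * n i) ∉ T := fun c => by
  obtain ⟨π, h1, h2⟩ := h.perm
  have hi' : i < k := by omega
  have e := h1 ((⟨_, h.mem i hi'⟩ * ⟨_, h.mem _ hi⟩ : N)⁻¹ * (⟨_, h.mem _ hi⟩ * ⟨_, h.mem i hi'⟩)) c
  rw [map_mul, map_inv, map_mul, map_mul, h2 i hi' _ rfl, h2 _ hi _ rfl, inv_mul_eq_one] at e
  have e1 := congrArg (· i) e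
  simp only [Equiv.Perm.coe_mul, Function.comp, Equiv.swap_apply_def] at e1
  split_ifs at e1 <;> omega

theorem walk {k : ℕ} (f : ℕ → ℕ) (h1 : ∀ i, i < k → f i < k)
    (h2 : ∀ i j, i < k → j < k → f i = f j → i = j)
    (h3 : ∀ i, i + 1 < k → f (i + 1) = f i + 1 ∨ f (i + 1) + 1 = f i) :
    (∀ i, i < k → f i = i) ∨ ∀ i, i < k → f i + i + 1 = k := by
  rcases Nat.lt_or_ge 1 k with l | l
  · rcases h3 0 l with e | e
    · have key : ∀ i, i + 1 < k → f (i + 1) = f i + 1 ∧ f i = f 0 + i := fun i => by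
        induction i with
        | zero => exact fun _ => ⟨e, rfl⟩
        | succ i ih =>
          intro hi
          obtain ⟨a, b⟩ := ih (by omega)
          rcases h3 _ hi with c | c
          · omega
          · have := h2 (i + 1 + 1) i hi (by omega) (by omega)
            omega
      obtain ⟨m, rfl⟩ : ∃ m, k = m + 2 := ⟨k - 2, by omega⟩
      have a := key m (by omega)
      have b := h1 (m + 1) (by omega)
      refine Or.inl fun i hi => ?_
      rcases Nat.lt_or_ge (i + 1) (m + 2) with c | c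
      · have := key i c
        omega
      · obtain rfl : i = m + 1 := by omega
        omega
    · have key : ∀ i, i + 1 < k → f (i + 1) + 1 = f i ∧ f i + i = f 0 := fun i => by
        induction i with
        | zero => exact fun _ => ⟨e, rfl⟩
        | succ i ih =>
          intro hi
          obtain ⟨a, b⟩ := ih (by omega)
          rcases h3 _ hi with c | c
          · have := h2 (i + 1 + 1) i hi (by omega) (by omega)
            omega
          · omega
      obtain ⟨m, rfl⟩ : ∃ m, k = m + 2 := ⟨k - 2, by omega⟩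
      have a := key m (by omega)
      have b := h1 0 (by omega)
      refine Or.inr fun i hi => ?_
      rcases Nat.lt_or_ge (i + 1) (m + 2) with c | c
      · have := key i c
        omega
      · obtain rfl : i = m + 1 := by omega
        omega
  · exact Or.inl fun i hi => by
      have := h1 i hi
      omega

/-- the only symmetry of the diagram of type `A` is the flip. -/
theorem WA.rigid [Finite X] (h : WA k N T n) (δ : MulAut X) (hT : ∀ x, δ x ∈ T ↔ x ∈ T)
    (h1 : ∀ i, i < k → ∃ j, j < k ∧ δ (n i) * (n j)⁻¹ ∈ T) :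
    (∀ i, i < k → δ (n i) * (n i)⁻¹ ∈ T) ∨
      ∀ i j, i + j + 1 = k → δ (n i) * (n j)⁻¹ ∈ T := by
  choose! f f1 f2 using h1
  obtain ⟨π, p1, p2⟩ := h.perm
  have hN : ∀ i, i < k → δ (n i) ∈ N := fun i hi => by
    simpa using mul_mem (h.le (f2 i hi)) (h.mem _ (f1 i hi))
  have cj : ∀ x ∈ N, ∀ t ∈ T, x⁻¹ * t * x ∈ T := fun x hx t ht =>
    (Subgroup.mem_normalizer_iff''.1 (h.nrm hx) t).1 ht
  have g : ∀ i, i < k → (n (f i))⁻¹ * δ (n i) ∈ T := fun i hi => by
    simpa [mul_assoc] using cj _ (h.mem _ (f1 i hi)) _ (f2 i hi)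
  have inj : ∀ i j, i < k → j < k → f i = f j → i = j := fun i j hi hj e => by
    by_contra c
    refine h.ne1 hi hj c ((hT _).1 ?_)
    have := mul_mem (inv_mem (g i hi)) (g j hj)
    rw [e] at this
    simpa [mul_assoc] using this
  have adj : ∀ i, i + 1 < k → f (i + 1) = f i + 1 ∨ f (i + 1) + 1 = f i := fun i hi => by
    have hi' : i < k := by omega
    by_contra c
    have ne : f i ≠ f (i + 1) := fun e => by
      have := inj _ _ hi' hi e
      omega
    have cm : n (f i) * n (f (i + 1)) = n (f (i + 1)) * n (f i) := by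
      rcases Nat.lt_or_ge (f i) (f (i + 1)) with l | l
      · exact h.br.far _ _ (by omega) (f1 _ hi)
      · exact (h.br.far _ _ (by omega) (f1 _ hi')).symm
    refine h.ne2 hi ((hT _).1 ?_)
    have a := mul_mem (cj _ (h.mem _ (f1 _ hi)) _ (g i hi')) (g _ hi)
    have b := mul_mem (cj _ (h.mem _ (f1 _ hi')) _ (g _ hi)) (g _ hi')
    have e1 : (n (f (i + 1)))⁻¹ * ((n (f i))⁻¹ * δ (n i)) * n (f (i + 1)) *
        ((n (f (i + 1)))⁻¹ * δ (n (i + 1))) =
        (n (f i) * n (f (i + 1)))⁻¹ * (δ (n i) * δ (n (i + 1))) := by group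
    have e2 : (n (f i))⁻¹ * ((n (f (i + 1)))⁻¹ * δ (n (i + 1))) * n (f i) *
        ((n (f i))⁻¹ * δ (n i)) =
        (n (f (i + 1)) * n (f i))⁻¹ * (δ (n (i + 1)) * δ (n i)) := by group
    rw [e1, cm] at a
    rw [e2] at b
    have := mul_mem (inv_mem a) b
    simpa [mul_assoc] using this
  rcases walk f f1 inj adj with e | e
  · exact Or.inl fun i hi => by simpa [e i hi] using f2 i hi
  · refine Or.inr fun i j hij => ?_
    have hi : i < k := by omega
    have := e i hi
    obtain rfl : j = f i := by omega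
    exact f2 i hi

end Pool.Agent.Lib.MP_1ae3da_al.CT.A
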