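import Pool.Agent.Lib.MP_1ae3da_al.Z.Cl3
import Pool.Agent.Lib.MP_1ae3da_al.A.Wa

/-! The Tits lifts in `SL_m(F)`: two by two blocks, the braid relations, the rank one relations. -/

namespace Pool.Agent.Lib.MP_1ae3da_al.SLI

open Matrix Matrix.SpecialLinearGroup

variable {F : Type} [Field F] {m : ℕ}

/-- the identity matrix with a block at the positions `a`, `b`. -/
def Bk (a b : Fin m) (p q r s : F) : Matrix (Fin m) (Fin m) F :=
  1 + single a a (p - 1) + single a b q + single b a r + single b b (s - 1)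

lemma Bk_mul {a b : Fin m} (h : a ≠ b) (p q r s p' q' r' s' : F) :
    Bk a b p q r s * Bk a b p' q' r' s' =
      Bk a b (p * p' + q * r') (p * q' + q * s') (r * p' + s * r') (r * q' + s * s') := by
  have hs : ∀ (x y : Fin m) (c : F), single x y c = c • single x y (1 : F) := fun x y c => by
    rw [smul_single, smul_eq_mul, mul_one]
  simp only [Bk, mul_add, add_mul, mul_one, one_mul, single_mul_single_same,
    single_mul_single_of_ne _ _ _ _ h, single_mul_single_of_ne _ _ _ _ h.symm, add_zero]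
  generalize hA : single a a (1 : F) = A
  generalize hB : single a b (1 : F) = B
  generalize hC : single b a (1 : F) = C
  generalize hD : single b b (1 : F) = D
  have e1 : ∀ c : F, single a a c = c • A := fun c => by rw [hs, hA]
  have e2 : ∀ c : F, single a b c = c • B := fun c => by rw [hs, hB]
  have e3 : ∀ c : F, single b a c = c • C := fun c => by rw [hs, hC]
  have e4 : ∀ c : F, single b b c = c • D := fun c => by rw [hs, hD]
  simp only [e1, e2, e3, e4]
  module

lemma Bk_apply {a b : Fin m} (h : a ≠ b) (p q r s : F) (i j : Fin m) : Bk a b p q r s i j =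
    if i = a then (if j = a then p else if j = b then q else 0)
    else if i = b then (if j = a then r else if j = b then s else 0)
    else if i = j then 1 else 0 := by
  simp only [Bk, Matrix.add_apply, one_apply, single_apply]
  by_cases h1 : i = a <;> by_cases h2 : i = b <;> by_cases h3 : j = a <;> by_cases h4 : j = b <;>
    simp_all [eq_comm]

lemma tv_Bk {a b : Fin m} (h : a ≠ b) (c : F) : (transvection h c).1 = Bk a b 1 c 0 1 := by
  show 1 + single a b c = _
  simp [Bk]

lemma tv_Bk' {a b : Fin m} (h : a ≠ b) (c : F) : (transvection h.symm c).1 = Bk a b 1 0 c 1 := by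
  show 1 + single b a c = _
  simp [Bk]

lemma el_Bk {a b : Fin m} (h : a ≠ b) (z : Fˣ) : (el h z).1 = Bk a b (z : F) 0 0 (z : F)⁻¹ := by
  rw [el_val]
  ext i j
  rw [Bk_apply h, diagonal_apply]
  by_cases h1 : i = a <;> by_cases h2 : i = b <;> by_cases h3 : j = a <;> by_cases h4 : j = b <;>
    simp_all [eq_comm]

lemma el_mon {a b : Fin m} (h : a ≠ b) (z : Fˣ) : IsMon (el h z).1 1 := fun i j hij => by
  rw [el_val]
  exact diagonal_apply_ne _ (Ne.symm hij)

/-- the lift of the transposition of `a` and `b`. -/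
noncomputable def wn {a b : Fin m} (h : a ≠ b) : SLm m F :=
  transvection h 1 * transvection h.symm (-1) * transvection h 1

lemma wn_Bk {a b : Fin m} (h : a ≠ b) : (wn h : SLm m F).1 = Bk a b 0 1 (-1) 0 := by
  show (transvection h (1 : F)).1 * (transvection h.symm (-1 : F)).1 * (transvection h (1 : F)).1 = _
  rw [tv_Bk, tv_Bk' h, Bk_mul h, Bk_mul h]
  simp

lemma wn_apply {a b : Fin m} (h : a ≠ b) (i j : Fin m) : (wn h : SLm m F).1 i j =
    if j = Equiv.swap a b i then (if i = b then -1 else 1) else 0 := by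
  rw [wn_Bk, Bk_apply h, Equiv.swap_apply_def]
  by_cases h1 : i = a
  · subst h1
    by_cases h4 : j = b
    · simp [h4, h, h.symm]
    · simp [h4]
  · by_cases h2 : i = b
    · subst h2
      simp [h1]
    · simp only [if_neg h1, if_neg h2]
      exact if_congr eq_comm rfl rfl

lemma wn_mon {a b : Fin m} (h : a ≠ b) : IsMon (wn h : SLm m F).1 (Equiv.swap a b) :=
  fun i j hj => by rw [wn_apply, if_neg hj]

lemma wn_dg {a b : Fin m} (h : a ≠ b) (i : Fin m) :
    (wn h : SLm m F).1 i (Equiv.swap a b i) = if i = b then -1 else 1 := by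
  rw [wn_apply, if_pos rfl]

lemma mon_ext {g g' : SLm m F} {σ σ' : Equiv.Perm (Fin m)} (h : IsMon g.1 σ) (h' : IsMon g'.1 σ')
    (e : σ = σ') (k : ∀ i, g.1 i (σ i) = g'.1 i (σ' i)) : g = g' := by
  subst e
  apply Subtype.ext
  ext i j
  by_cases c : j = σ i
  · rw [c, k]
  · rw [h i j c, h' i j c]

lemma mon_mul_val {g g' : Matrix (Fin m) (Fin m) F} {σ σ' : Equiv.Perm (Fin m)} (h : IsMon g σ)
    (i : Fin m) : (g * g') i ((σ' * σ) i) = g i (σ i) * g' (σ i) (σ' (σ i)) := mon_l h _ _ _

lemma wn_far {a b c d : Fin m} (h : a ≠ b) (h' : c ≠ d) (h1 : a ≠ c) (h2 : a ≠ d) (h3 : b ≠ c)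
    (h4 : b ≠ d) : (wn h * wn h' : SLm m F) = wn h' * wn h := by
  refine mon_ext (mon_mul (wn_mon h) (wn_mon h')) (mon_mul (wn_mon h') (wn_mon h)) ?_ fun i => ?_
  · ext i
    simp only [Equiv.Perm.coe_mul, Function.comp, Equiv.swap_apply_def]
    split_ifs <;> simp_all
  · refine (mon_mul_val (wn_mon h) i).trans (Eq.trans ?_ (mon_mul_val (wn_mon h') i).symm)
    simp only [wn_dg]
    simp only [Equiv.swap_apply_def]
    split_ifs <;> simp_all

lemma wn_br {a b c : Fin m} (h : a ≠ b) (h' : b ≠ c) (h1 : a ≠ c) :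
    (wn h * wn h' * wn h : SLm m F) = wn h' * wn h * wn h' := by
  refine mon_ext (mon_mul (mon_mul (wn_mon h) (wn_mon h')) (wn_mon h))
    (mon_mul (mon_mul (wn_mon h') (wn_mon h)) (wn_mon h')) ?_ fun i => ?_
  · ext i
    simp only [Equiv.Perm.coe_mul, Function.comp, Equiv.swap_apply_def]
    split_ifs <;> simp_all
  · refine (mon_mul_val (mon_mul (wn_mon h) (wn_mon h')) i).trans
      (Eq.trans ?_ (mon_mul_val (mon_mul (wn_mon h') (wn_mon h)) i).symm)
    rw [mon_mul_val (wn_mon h), mon_mul_val (wn_mon h')]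
    simp only [wn_dg, Equiv.Perm.coe_mul, Function.comp]
    simp only [Equiv.swap_apply_def]
    split_ifs <;> simp_all

/-- the first rank one relation. -/
lemma wn_tv {a b : Fin m} (h : a ≠ b) (z : Fˣ) : wn h * transvection h (z : F) =
    transvection h (-(z : F)⁻¹) * el h (-z⁻¹) * transvection h.symm (z : F)⁻¹ := by
  apply Subtype.ext
  show (wn h : SLm m F).1 * (transvection h (z : F)).1 =
    (transvection h (-(z : F)⁻¹)).1 * (el h (-z⁻¹)).1 * (transvection h.symm (z : F)⁻¹).1
  rw [wn_Bk, tv_Bk, tv_Bk, tv_Bk' h, el_Bk, Bk_mul h, Bk_mul h, Bk_mul h]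
  simp

/-- the second rank one relation. -/
lemma wn_tv' {a b : Fin m} (h : a ≠ b) (z : Fˣ) : wn h * transvection h (z : F) =
    transvection h (-(z : F)⁻¹) * (el h z⁻¹ * wn h) * transvection h (-(z : F)⁻¹) * wn h := by
  apply Subtype.ext
  show (wn h : SLm m F).1 * (transvection h (z : F)).1 = (transvection h (-(z : F)⁻¹)).1 *
    ((el h z⁻¹).1 * (wn h : SLm m F).1) * (transvection h (-(z : F)⁻¹)).1 * (wn h : SLm m F).1
  rw [wn_Bk, tv_Bk, tv_Bk, el_Bk, Bk_mul h, Bk_mul h, Bk_mul h, Bk_mul h, Bk_mul h]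
  simp

/-- a third position turns a left multiple into a conjugate. -/
lemma el_wn {a b c : Fin m} (h : a ≠ b) (h1 : a ≠ c) (h2 : b ≠ c) (z : Fˣ) :
    el h z * wn h * el h1 z = el h1 z * wn h := by
  refine mon_ext (mon_mul (mon_mul (el_mon h z) (wn_mon h)) (el_mon h1 z))
    (mon_mul (el_mon h1 z) (wn_mon h)) (by simp) fun i => ?_
  refine (mon_mul_val (mon_mul (el_mon h z) (wn_mon h)) i).trans
    (Eq.trans ?_ (mon_mul_val (el_mon h1 z) i).symm)
  rw [mon_mul_val (el_mon h z)]
  simp only [Equiv.Perm.coe_mul, Function.comp, Equiv.Perm.coe_one, id, wn_dg, el_val,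
    diagonal_apply_eq]
  simp only [Equiv.swap_apply_def]
  split_ifs <;> simp_all

/-- conjugation of a root element by a monomial matrix. -/
lemma tv_conj {n : SLm m F} {σ : Equiv.Perm (Fin m)} (hn : IsMon n.1 σ) {a b : Fin m} (h : a ≠ b)
    (hl : σ a < σ b) (c : F) : n⁻¹ * transvection h c * n ∈ US m F := by
  refine mem_US'.mpr ⟨fun x y hxy => ?_, fun x => ?_⟩
  · obtain ⟨i, rfl⟩ := σ.surjective x
    obtain ⟨j, rfl⟩ := σ.surjective y
    rw [conj_zero hn]
    show (1 + single a b c : Matrix _ _ F) i j = 0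
    rw [Matrix.add_apply, one_apply_ne fun e => hxy.ne' (congrArg σ e), zero_add]
    refine single_apply_of_ne _ _ _ _ _ ?_
    rintro ⟨rfl, rfl⟩
    exact lt_asymm hl hxy
  · obtain ⟨i, rfl⟩ := σ.surjective x
    rw [conj_dg hn]
    show (1 + single a b c : Matrix _ _ F) i i = 1
    rw [Matrix.add_apply, one_apply_eq, single_apply_of_ne _ _ _ _ _ fun e => h (e.1.trans e.2.symm),
      add_zero]

/-- splitting off a simple root element. -/
lemma wn_split {a b : Fin m} (h : a ≠ b) (hab : (a : ℕ) + 1 = b) {u : SLm m F} (hu : u ∈ US m F) :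
    ∃ v ∈ US m F, ∃ c : F, wn h * u = v * (wn h * transvection h c) := by
  have lt : a < b := by
    show (a : ℕ) < b
    omega
  have hu' : u * transvection h (-u.1 a b) ∈ US m F := mul_mem hu (tv_US lt _)
  have h0 : (u * transvection h (-u.1 a b)).1 a b = 0 := by
    show (u.1 * (1 + single a b (-u.1 a b))) a b = 0
    rw [mul_add, mul_one, Matrix.add_apply, mul_single_apply_same, (mem_US'.mp hu).2]
    ring
  refine ⟨(wn h)⁻¹⁻¹ * (u * transvection h (-u.1 a b)) * (wn h)⁻¹, ?_, u.1 a b, ?_⟩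
  · have hn := mon_inv (wn_mon (F := F) h)
    refine mem_US'.mpr ⟨fun x y hxy => ?_, fun x => ?_⟩
    · obtain ⟨i, rfl⟩ := (Equiv.swap a b)⁻¹.surjective x
      obtain ⟨j, rfl⟩ := (Equiv.swap a b)⁻¹.surjective y
      rw [conj_zero hn]
      by_cases e : j < i
      · exact (mem_US'.mp hu').1 i j e
      · have : i = a ∧ j = b := by
          simp only [Equiv.swap_inv, Equiv.swap_apply_def, Fin.lt_def, Fin.ext_iff] at hxy e ⊢
          split_ifs at hxy <;> omega
        rw [this.1, this.2, h0]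
    · obtain ⟨i, rfl⟩ := (Equiv.swap a b)⁻¹.surjective x
      rw [conj_dg hn]
      exact (mem_US'.mp hu').2 i
  · rw [inv_inv, ← transvection_inv]
    group

end Pool.Agent.Lib.MP_1ae3da_al.SLI
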