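import Pool.Agent.Lib.MP_1ae3da_al.C.Defs

/-! A square root of `q` that is fixed by the Galois group of the modular system. -/

namespace Pool.Agent.Lib.MP_1ae3da_al.CT.A

open Polynomial

variable {F k : Type} [Field F] [Field k] {p : ℕ} {O R : Subring F} {r : F → k}
  {GG : Subgroup (RingAut F)}

theorem sq_fix (hP : PM p O R r GG) (hp2 : p ≠ 2) {q : ℕ} (hq : (p : ℤ) ∣ (q : ℤ) - 1) :
    ∃ u : F, u * u = q ∧ ∀ σ ∈ GG, σ u = u := by
  have := hP.cpl
  have := hP.chark
  have hd : ¬ p ∣ 2 := fun h => hp2 ((Nat.prime_dvd_prime_iff_eq hP.prime Nat.prime_two).1 h)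
  have c0 := hP.charF
  have h2 : IsUnit (2 : O) := by
    refine IsUnit.of_mul_eq_one ⟨((2 : ℕ) : F)⁻¹, hP.inv 2 hd⟩ (Subtype.ext ?_)
    change (2 : F) * ((2 : ℕ) : F)⁻¹ = 1
    norm_num
  obtain ⟨m, hm⟩ := hq
  obtain ⟨a, ha, hb⟩ := HenselianRing.is_henselian (I := Ideal.span {(p : O)})
    (X ^ 2 - C (q : O)) (monic_X_pow_sub_C _ two_ne_zero) 1
    (by
      rw [Ideal.mem_span_singleton]
      refine ⟨-(m : O), ?_⟩
      have : ((q : ℤ) : O) - 1 = (p : ℤ) * (m : O) := by exact_mod_cast congrArg (Int.cast (R := O)) hm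
      simp only [eval_sub, eval_pow, eval_X, eval_C, one_pow]
      push_cast at this
      linear_combination -this)
    (by
      have : (X ^ 2 - C (q : O)).derivative.eval 1 = 2 := by simp; norm_num
      rw [this]
      exact h2.map _)
  have e : (a : F) * a = q := by
    have : a ^ 2 - (q : O) = 0 := by simpa using ha
    have := congrArg (Subtype.val : O → F) this
    push_cast at this
    linear_combination this
  obtain ⟨y, hy⟩ := Ideal.mem_span_singleton.1 hb
  have hy' : (a : F) - 1 = p * y := by exact_mod_cast congrArg (Subtype.val : O → F) hy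
  have r0 : r ((a : F) - 1) = 0 := (hP.ker _ (sub_mem a.2 (one_mem _))).2 ⟨y, y.2, hy'⟩
  have aR : (a : F) ∈ R := hP.le a.2
  have r1 : r a = 1 := by
    have := hP.add _ (sub_mem aR (one_mem _)) _ (one_mem R)
    rwa [sub_add_cancel, r0, zero_add, hP.one] at this
  refine ⟨a, e, fun σ hσ => ?_⟩
  obtain ⟨-, -, τ, hτ⟩ := hP.gal σ hσ
  have e2 : (σ a - a) * (σ a + a) = 0 := by
    have : σ a * σ a = q := by rw [← map_mul, e, map_natCast]
    linear_combination this - e
  refine (mul_eq_zero.1 e2).elim sub_eq_zero.1 fun k0 => ?_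
  exfalso
  have k1 : σ a = -a := eq_neg_of_add_eq_zero_left k0
  have k2 := hτ _ aR
  rw [k1, r1, map_one] at k2
  have k3 := hP.add _ (neg_mem aR) _ aR
  have k4 := hP.add 0 (zero_mem R) 0 (zero_mem R)
  rw [add_zero] at k4
  have k5 : r 0 = 0 := by linear_combination -k4
  rw [neg_add_cancel, k2, r1, k5] at k3
  have : ((2 : ℕ) : k) = 0 := by push_cast; linear_combination -k3
  exact hd ((CharP.cast_eq_zero_iff k p 2).1 this)

end Pool.Agent.Lib.MP_1ae3da_al.CT.A
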