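import Pool.Agent.Lib.MP_1ae3da_al.A.Nt
import Pool.Agent.Lib.MP_1ae3da_al.A.Adj
import Pool.Agent.Lib.MP_1ae3da_al.J.G6
import Pool.Agent.Lib.MP_1ae3da_al.J.D3a

/-! The inductive condition for split Tits systems of type `A`. -/

namespace Pool.Agent.Lib.MP_1ae3da_al.JM

open SLI CT CT.Z CT.A Submodule

variable {p r k : ℕ} {X : Type} [Group X]

/-- all the hypotheses in type `A`. -/
structure TA (p k : ℕ) (U : Sylow r X) (N : Subgroup X) (n : ℕ → X) : Prop where
  v : BV p U N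
  w : WA k N (Tor U N) n
  k0 : 0 < k
  tits : ∀ i, i < k → ∀ m ∈ N, ∀ u ∈ U, ∃ v ∈ U, ∃ t ∈ Tor U N, ∃ w ∈ U,
    n i * u * m = v * (t * (n i * m)) * w ∨ n i * u * m = v * (t * m) * w
  one : ∀ i, i < k → ∀ u ∈ U, n i * u * (n i)⁻¹ ∈ U ∨
    ∃ s ∈ Tor U N, ∃ v ∈ U, ∃ w ∈ U, n i * u * (n i)⁻¹ = v * (s * n i * s⁻¹) * w

open Classical in
/-- the generators as elements of `N`. -/
noncomputable def sN (N : Subgroup X) (n : ℕ → X) (i : ℕ) : N :=
  if h : n i ∈ N then ⟨n i, h⟩ else 1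

theorem sN_val {N : Subgroup X} {n : ℕ → X} {i : ℕ} (h : n i ∈ N) : (sN N n i : X) = n i := by
  rw [sN, dif_pos h]

theorem wa_sub {N T : Subgroup X} {n : ℕ → X} (h : WA k N T n) :
    WA k ⊤ (T.subgroupOf N) (sN N n) := by
  have e : ∀ i < k, (sN N n i : X) = n i := fun i hi => sN_val (h.mem i hi)
  refine ⟨le_top, fun g _ => Subgroup.mem_normalizer_iff.2 fun t =>
    Subgroup.mem_normalizer_iff.1 (h.nrm g.2) t, fun _ _ => trivial, fun i hi => ?_,
    ⟨fun i j h1 h2 => Subtype.ext ?_, fun i h1 => Subtype.ext ?_⟩, fun g _ => ?_, ?_⟩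
  · change (sN N n i : X) * sN N n i ∈ T
    rw [e i hi]
    exact h.sq i hi
  · simp only [Subgroup.coe_mul, e i (by omega), e j h2]
    exact h.br.far i j h1 h2
  · simp only [Subgroup.coe_mul, e i (by omega), e _ h1]
    exact h.br.br i h1
  · rw [← Subgroup.mem_map_iff_mem N.subtype_injective, MonoidHom.map_closure]
    refine Subgroup.closure_mono ?_ (h.gen g.2)
    rintro x (hx | ⟨i, hi, rfl⟩)
    · exact ⟨⟨x, h.le hx⟩, Or.inl hx, rfl⟩
    · exact ⟨_, Or.inr ⟨i, hi, rfl⟩, e i hi⟩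
  · rw [Subgroup.relIndex_top_right]
    exact h.card

variable [Finite X] [hp : Fact p.Prime] [hr : Fact r.Prime]
  {U : Sylow r X} {N : Subgroup X} {n : ℕ → X} {F : Type} [Field F] [CharZero F]

namespace TA
variable (h : TA p k U N n)
include h

omit hp hr in
theorem ts : TS k U N n := ⟨h.w.mem, h.w.sq, fun _ hi => h.w.nt hi, h.w.gen, h.tits⟩

theorem aa1 {i j : ℕ} (hi : i < k) (hj : j < k) (hne : i ≠ j) :
    AA (U : Subgroup X) (n i) (n j) := by
  have := h.ts.aa_step h.v hi hj (one_mem N) (aa_T (N := N) (one_mem _))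
    (by rw [mul_one, one_mul]; exact h.w.ne1 hi hj hne)
  rwa [one_mul] at this

theorem aa2 {i : ℕ} (hi : i + 1 < k) : AA (U : Subgroup X) (n i) (n (i + 1) * n i) ∧
    AA (U : Subgroup X) (n (i + 1)) (n i * n (i + 1)) := by
  have h0 : i < k := by omega
  refine ⟨h.ts.aa_step h.v h0 h0 (h.w.mem _ hi) (h.aa1 h0 hi (by omega)) (h.w.ne2 hi),
    h.ts.aa_step h.v hi hi (h.w.mem _ h0) (h.aa1 hi h0 (by omega)) fun e => h.w.ne2 hi ?_⟩
  simpa only [mul_inv_rev, inv_inv] using inv_mem e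

theorem qn_s {i : ℕ} (hi : i + 1 < k) :
    Qn (U : Subgroup X) (n i) = Qn (U : Subgroup X) (n (i + 1)) :=
  have h0 : i < k := by omega
  d3_step h.v (h.w.mem _ h0) (h.w.mem _ hi) (h.w.sq _ h0) (h.w.sq _ hi) (h.ts.atom h.v h0)
    (h.ts.atom h.v hi) (h.w.nt hi) (h.w.br.br i hi) (h.aa1 h0 hi (by omega))
    (h.aa1 hi h0 (by omega)) (h.aa2 hi).1 (h.aa2 hi).2

theorem qn_eq {i : ℕ} (hi : i < k) : Qn (U : Subgroup X) (n i) = Qn (U : Subgroup X) (n 0) := by
  induction i with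
  | zero => rfl
  | succ i ih => rw [← h.qn_s hi, ih (by omega)]

theorem ha : ∃ π, HA F (Qn (U : Subgroup X) (n 0)) k ((Tor U N).subgroupOf N) (sN N n) π
    (fun x => jt F (U : Subgroup X) x) fun i => tau F (U : Subgroup X) (n i) := by
  have e : ∀ i < k, (sN N n i : X) = n i := fun i hi => sN_val (h.w.mem i hi)
  obtain ⟨π, p1, p2, p3⟩ := (wa_sub h.w).perm'
  refine ⟨π, qn_gt (h.w.mem 0 h.k0) (h.w.nt h.k0), wa_sub h.w,
    fun x hx y hy => Subtype.ext (h.v.ab _ hx _ hy), p1, p2, p3, jt_one,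
    fun t ht t' ht' => jt_mul ht ht', ⟨fun i j h1 h2 => ?_, fun i h1 => ?_⟩, fun i hi t ht => ?_,
    fun i hi => ?_, fun i hi => ?_⟩
  · exact d3_cm (h.aa1 (by omega) h2 (by omega)) (h.aa1 h2 (by omega) (by omega))
      (h.w.br.far i j h1 h2)
  · exact d3_br (h.aa1 (by omega) h1 (by omega)) (h.aa1 h1 (by omega) (by omega)) (h.aa2 h1).1
      (h.aa2 h1).2 (h.w.br.br i h1) (h.qn_s h1)
  · simp only [Subgroup.coe_mul, Subgroup.coe_inv, e i hi]
    exact tau_jt h.v (h.w.mem i hi) ht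
  · have c := Subgroup.subgroupOfEquivOfLe h.w.le
    have g : eG F ((Tor U N).subgroupOf N) (fun x => jt F (U : Subgroup X) x) (sN N n i) =
        g4e U N F (n i) := by
      rw [eG, g4e, Nat.card_congr (Subgroup.subgroupOfEquivOfLe h.w.le).toEquiv,
        ← finsum_comp_equiv (Subgroup.subgroupOfEquivOfLe h.w.le).toEquiv]
      simp only [Subgroup.coe_mul, Subgroup.coe_inv, e i hi]
      rfl
    simp only [g, Subgroup.coe_mul, e i hi, ← h.qn_eq hi]
    exact d3_qT h.v (h.w.mem i hi) (h.w.sq i hi) (h.w.nt hi) (h.ts.atom h.v hi) (h.one i hi)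
  · obtain ⟨-, c, hc, ec⟩ := d3_s2 h.v (h.w.mem i hi) (h.w.sq i hi) (h.w.nt hi) (h.one i hi)
    exact ⟨⟨c, hc.1⟩, hc, Subtype.ext (by
      simpa only [Subgroup.coe_mul, Subgroup.coe_inv, e i hi] using ec)⟩

omit h hp hr in
theorem adj_jt {t : X} (ht : t ∈ Tor U N) :
    Adj (jt F (U : Subgroup X) t) (jt F (U : Subgroup X) t⁻¹) := by
  have := ((adj_gu (F := F) t).mul (adj_av (U : Subgroup X))).add
    (adj_one.sub (adj_av (U : Subgroup X)))
  rwa [← av_comm.2 (inv_mem ht.2)] at this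

omit hp hr in
theorem adj_tau {i : ℕ} (hi : i < k) : Adj (tau F (U : Subgroup X) (n i))
    (jt F (U : Subgroup X) (n i * n i)⁻¹ * tau F (U : Subgroup X) (n i)) := by
  have := ((adj_an (F := F) (U : Subgroup X) (n i)).add
    (adj_one.sub (adj_av (U : Subgroup X)))).smul (Qn (U : Subgroup X) (n i) : ℚ)
  rw [Rat.cast_natCast] at this
  rw [g4b_tau, mul_smul_comm, g4b_jl (inv_mem (h.w.sq i hi)),
    show (n i * n i)⁻¹ * n i = (n i)⁻¹ by group]
  exact this

omit hp hr in
theorem adj_j {π : N →* Equiv.Perm ℕ} {q : ℕ} (H : HA F q k ((Tor U N).subgroupOf N) (sN N n) π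
    (fun x => jt F (U : Subgroup X) x) fun i => tau F (U : Subgroup X) (n i)) {a : ℕ}
    (ha : a ≤ k) : Adj
      (jA F q (sN N n) (fun x => jt F (U : Subgroup X) x) (fun i => tau F U (n i)) a)
      (jA F q (sN N n) (fun x => jt F (U : Subgroup X) x) (fun i => tau F U (n i)) a) := by
  induction a with
  | zero => exact adj_one
  | succ a ih =>
    have sq := H.w.sq a ha
    have c1 := (H.j_T (Nat.le_of_lt ha) _ (inv_mem sq)).eq
    have c2 := (H.t_i ha sq ((Commute.refl _).mul_left (Commute.refl _))).eq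
    have c3 := (H.t_i ha (inv_mem sq) ((Commute.refl _).mul_left (Commute.refl _)).inv_left).eq
    have c4 := H.iv sq
    have := ((adj_jt (F := F) (inv_mem (h.w.sq a ha))).mul
      (((h.adj_tau ha).mul (ih (by omega))).mul (h.adj_tau ha))).smul (q : ℚ)⁻¹
    rw [Rat.cast_inv, Rat.cast_natCast, inv_inv] at this
    rw [jA]
    simp only [Subgroup.coe_mul, Subgroup.coe_inv, sN_val (h.w.mem a ha)] at c1 c2 c3 c4 ⊢
    rwa [mul_assoc _ _ (jt F _ (n a * n a)), mul_assoc _ _ (jt F _ (n a * n a)),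
      mul_assoc _ _ (jt F _ (n a * n a)), c2, ← mul_assoc _ (jt F _ (n a * n a)), c4, one_mul,
      mul_assoc (jt F _ _) (tau F _ _), ← mul_assoc (tau F _ _) (jA _ _ _ _ _ _)] at this

theorem cor (h2 : p ≠ 2) {κ : Type} [Field κ] {O R : Subring F} {ρ : F → κ}
    {GG : Subgroup (RingAut F)} (hP : PM p O R ρ GG) :
    ∃ Θ, Cor (Ga GG h.v.D) N (av F U) Θ := by
  have := hP.algF
  obtain ⟨π, H⟩ := h.ha (F := F)
  have e : ∀ i < k, (sN N n i : X) = n i := fun i hi => sN_val (h.w.mem i hi)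
  obtain ⟨u, hu, du⟩ := sq_fix hP h2 (q := Qn (U : Subgroup X) (n 0)) (by
    simpa using (qn_mod h.v (h.w.mem 0 h.k0) (h.w.sq 0 h.k0) (h.ts.atom h.v h.k0)).symm.dvd)
  obtain ⟨Θ, d, t1, t2, t3, t4, t5⟩ := H.main hu fun a ha => (h.adj_j H ha).ss
  have i2 := av_idem (F := F) (E := (U : Subgroup X))
  have y1 : (1 + av F (U : Subgroup X)) * (1 - (2 : F)⁻¹ • av F (U : Subgroup X)) = 1 := by
    simp only [mul_sub, add_mul, mul_one, one_mul, mul_smul_comm, i2]
    match_scalars <;> norm_num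
  have y2 : (1 - (2 : F)⁻¹ • av F (U : Subgroup X)) * (1 + av F (U : Subgroup X)) = 1 := by
    simp only [sub_mul, mul_add, mul_one, one_mul, smul_mul_assoc, i2]
    match_scalars <;> norm_num
  have cy : ∀ z, Commute z (1 + av F (U : Subgroup X)) ↔ av F (U : Subgroup X) * z = z * av F U :=
    fun z => by rw [commute_iff_eq, mul_add, add_mul, mul_one, one_mul, add_right_inj, eq_comm]
  obtain ⟨c1, c2⟩ := t4 ⟨_, _, y1, y2⟩ (fun t ht => (cy _).2 (e_jt ht))
    fun i _ => (cy _).2 (e_tau _)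
  have cm : ∀ m, av F (U : Subgroup X) * Θ m = Θ m * av F U := fun m => (cy _).1 (c1 m)
  have cd : Commute (av F (U : Subgroup X)) d := (cy _).1 c2
  have cd' := cd.units_inv_right.eq
  have cm' := fun m => ((cd.mul_right (cm m)).mul_right cd.units_inv_right).eq
  refine h.v.cor (fun m => (d : MonoidAlgebra F X) * Θ m * ↑d⁻¹ * av F (U : Subgroup X)) (fun x y => ?_) (fun t ht => ?_)
    (fun m hm => ?_) ?_
  · rw [mul_assoc _ (av F _), ← mul_assoc (av F _), cm', mul_assoc _ (av F _), i2, map_mul]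
    simp only [mul_assoc, Units.inv_mul_cancel_left]
  · rw [t1 t ht, ← (t2 t ht).eq, Units.mul_inv_cancel_right, jt_e]
  · let B : Subalgebra F (MonoidAlgebra F X) := Algebra.adjoin F (Set.range Θ)
    have hB := t3 B fun x => Algebra.subset_adjoin ⟨x, rfl⟩
    have ml : ∀ y ∈ B, ∀ z ∈ span F (Set.range fun m => Θ m * av F (U : Subgroup X)),
        y * z ∈ span F (Set.range fun m => Θ m * av F (U : Subgroup X)) := fun y hy => by
      induction hy using Algebra.adjoin_induction with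
      | mem y hy =>
        obtain ⟨x, rfl⟩ := hy
        intro z hz
        refine (span_le (p := Submodule.comap (LinearMap.mulLeft F (Θ x))
          (span F (Set.range fun m => Θ m * av F (U : Subgroup X))))).2 ?_ hz
        rintro _ ⟨m, rfl⟩
        exact subset_span ⟨x * m, by simp only [map_mul, LinearMap.mulLeft_apply, mul_assoc]⟩
      | algebraMap c => exact fun z hz => by rw [← Algebra.smul_def]; exact smul_mem _ _ hz
      | add a b _ _ ha hb => exact fun z hz => by rw [add_mul]; exact add_mem (ha z hz) (hb z hz)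
      | mul a b _ _ ha hb => exact fun z hz => by rw [mul_assoc]; exact ha _ (hb z hz)
    have on : ∀ m ∈ N, an F (U : Subgroup X) m ∈
        span F (Set.range fun m => Θ m * av F (U : Subgroup X)) :=
      h.ts.red h.v _ (fun t ht => subset_span ⟨⟨t, ht.1⟩, by
        change Θ _ * _ = _
        rw [t1 _ ht, jt_e, an_nrm ht.2]⟩) fun i hi m _ ha hm => by
      have q : (Qn (U : Subgroup X) (n i) : F) ≠ 0 :=
        Nat.cast_ne_zero.2 (by have := qn_gt (h.w.mem i hi) (h.w.nt hi); omega)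
      rw [← aa_an ha, ← smul_mem_iff _ q, ← tau_an]
      exact ml _ (hB i hi) _ hm
    have o1 := (span_le.2 (by
      rintro _ ⟨x, rfl⟩
      exact on x (h.v.norm_eq.le x.2))) (an_span (F := F) h.v.pg (↑d⁻¹ * an F U m * d))
    have o2 := mem_map_of_mem (f := (LinearMap.mulRight F (↑d⁻¹ : MonoidAlgebra F X)).comp
      (LinearMap.mulLeft F (d : MonoidAlgebra F X))) o1
    rw [Submodule.map_span, ← Set.range_comp] at o2
    convert o2 using 1
    · congr 2
      funext x
      simp only [Function.comp, LinearMap.comp_apply, LinearMap.mulRight_apply,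
        LinearMap.mulLeft_apply]
      rw [mul_assoc _ _ (av F _), ← cd', ← mul_assoc, mul_assoc (d : MonoidAlgebra F X)]
    · simp only [LinearMap.comp_apply, LinearMap.mulRight_apply, LinearMap.mulLeft_apply]
      rw [mul_assoc (av F _), mul_assoc _ _ (av F _), ← cd.eq, mul_assoc (↑d⁻¹ : MonoidAlgebra F X),
        ← mul_assoc (an F _ m), (av_an m).2, ← mul_assoc (av F _), cd', mul_assoc _ (av F _),
        ← mul_assoc (av F _), (av_an m).1, Units.mul_inv_cancel_left, Units.mul_inv_cancel_right]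
  intro σ hσ γ hγ δ hδ hU hN x y exy
  obtain ⟨n1, n2, n3⟩ := nat_gen hγ hδ hU
  have hT : ∀ x, δ x ∈ Tor U N ↔ x ∈ Tor U N := map_T δ hU hN
  have key : ∀ i j, i < k → j < k → δ (n i) * (n j)⁻¹ ∈ Tor U N →
      ∃ w ∈ (Tor U N).subgroupOf N, resA N δ hN (sN N n i) = w * sN N n j ∧
        γ (tau F U (n i)) = jt F (U : Subgroup X) w * tau F U (n j) := fun i j hi hj c =>
    ⟨⟨_, c.1⟩, c, Subtype.ext (by
      change δ (sN N n i) = _ * (sN N n j : X)
      rw [e i hi, e j hj, inv_mul_cancel_right]), by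
      rw [n3, ← tau_left c, inv_mul_cancel_right]⟩
  have m := t5 γ σ (resA N δ hN) hγ (du σ hσ) (fun x => hT x) (fun t _ => n2 t)
    ((h.w.rigid δ hT fun i hi => h.ts.perm h.v δ hU hN hi).imp
      (fun c i hi => key i i hi hi (c i hi))
      fun c i j hij => key i j (by omega) (by omega) (c i j hij)) x
  change γ (_ * _) = _
  rw [map_mul, n1, show y = resA N δ hN x from Subtype.ext exy]
  exact congrArg (· * _) m

theorem ind (h2 : p ≠ 2) : (∃ R : Sylow p X, (R : Subgroup X) ≤ N) ∧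
    ∀ R : Sylow p X, (R : Subgroup X) ≤ N → NSV.IndN p X R N := by
  refine h.v.ind (fun e => h.w.nt h.k0 (Subgroup.mem_inf.2 ⟨h.w.mem 0 h.k0, ?_⟩))
    fun F κ _ _ O R ρ GG hP => ?_
  · change n 0 ∈ Subgroup.normalizer ((U : Subgroup X) : Set X)
    rw [e]
    exact Subgroup.mem_normalizer_iff.2 fun x => by simp
  · have := hP.charF
    exact h.cor h2 hP

end TA

end Pool.Agent.Lib.MP_1ae3da_al.JM
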