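import Pool.Agent.Lib.MP_1ae3da_al.A.Flp

/-! The normalised half twist of a family of braid representations and the flip. -/

namespace Pool.Agent.Lib.MP_1ae3da_al.CT.A

variable {F A N : Type} [Field F] [Ring A] [Algebra F A] [Group N]

/-- `z 1 * ... * z m`. -/
def wP {M : Type} [Monoid M] (z : ℕ → M) : ℕ → M
  | 0 => 1
  | m + 1 => wP z m * z (m + 1)

/-- a family `τ v` of braid representations over the torus `T` with `τ 1 = Θ ∘ s`; `Z v a` is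
the Jucys-Murphy element times `v ^ (2 * a)`, and `ρ v` is the inverse root of their product. -/
structure Fam (u : F) (n : ℕ) (T : Subgroup N) (s : ℕ → N) (Θ : N →* A) (τ Z : F → ℕ → A)
    (ρ : F → A) : Prop where
  bs : Brd n s
  nrm : ∀ i < n, s i ∈ Subgroup.normalizer (T : Set N)
  sq : ∀ i < n, s i * s i ∈ T
  bt : ∀ v, Gd u v → Brd n (τ v)
  tor : ∀ v, Gd u v → ∀ i < n, ∀ t ∈ T, τ v i * Θ t = Θ (s i * t * (s i)⁻¹) * τ v i
  z0 : ∀ v, Gd u v → Z v 0 = 1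
  zs : ∀ v, Gd u v → ∀ i < n, τ v i * Z v i * τ v i = Θ (s i * s i) * Z v (i + 1)
  zt : ∀ v, Gd u v → ∀ i ≤ n, ∀ t ∈ T, Commute (Θ t) (Z v i)
  rr : ∀ v, Gd u v → wP (Z v) n * (ρ v * ρ v) = 1
  rt : ∀ v, Gd u v → ∀ i < n, Commute (ρ v) (τ v i)
  rT : ∀ v, Gd u v → ∀ t ∈ T, Commute (Θ t) (ρ v)
  t1 : ∀ i < n, τ 1 i = Θ (s i)
  r1 : ρ 1 = 1
  gt1 : ∀ i < n, (fun v => τ v i) ∈ Rg A (1 : F)
  gtu : ∀ i < n, (fun v => τ v i) ∈ Rg A u
  gr1 : ρ ∈ Rg A (1 : F)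
  gru : ρ ∈ Rg A u

variable {u : F} {n : ℕ} {T : Subgroup N} {s : ℕ → N} {Θ : N →* A} {τ Z : F → ℕ → A} {ρ : F → A}

/-- `x` acts on the torus like `g`. -/
def Lk (T : Subgroup N) (Θ : N →* A) (g : N) (x : A) : Prop :=
  g ∈ Subgroup.normalizer (T : Set N) ∧ ∀ t ∈ T, x * Θ t = Θ (g * t * g⁻¹) * x

theorem Lk.one : Lk T Θ 1 1 := ⟨one_mem _, fun t _ => by simp⟩

theorem Lk.mul {g g' : N} {x x' : A} (h : Lk T Θ g x) (h' : Lk T Θ g' x') :
    Lk T Θ (g * g') (x * x') :=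
  ⟨mul_mem h.1 h'.1, fun t ht => by
    rw [mul_assoc, h'.2 t ht, ← mul_assoc, h.2 _ ((Subgroup.mem_normalizer_iff.1 h'.1 t).1 ht),
      mul_assoc]
    congr 2
    group⟩

theorem Fam.lk (h : Fam u n T s Θ τ Z ρ) {v : F} (hv : Gd u v) {i : ℕ} (hi : i < n) :
    Lk T Θ (s i) (τ v i) := ⟨h.nrm i hi, h.tor v hv i hi⟩

theorem Fam.lkD (h : Fam u n T s Θ τ Z ρ) {v : F} (hv : Gd u v) {m : ℕ} (hm : m ≤ n) :
    Lk T Θ (wD s m) (wD (τ v) m) := by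
  induction m with
  | zero => exact Lk.one
  | succ m ih => exact (h.lk hv hm).mul (ih (by omega))

theorem Fam.lkH (h : Fam u n T s Θ τ Z ρ) {v : F} (hv : Gd u v) {m : ℕ} (hm : m ≤ n) :
    Lk T Θ (wH s m) (wH (τ v) m) := by
  induction m with
  | zero => exact Lk.one
  | succ m ih => exact (ih (by omega)).mul (h.lkD hv hm)

theorem Fam.eJ (h : Fam u n T s Θ τ Z ρ) {v : F} (hv : Gd u v) {m : ℕ} (hm : m ≤ n) :
    wJ s m ∈ T ∧ wJ (τ v) m = Θ (wJ s m) * Z v m := by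
  induction m with
  | zero => exact ⟨one_mem _, by simp [wJ, h.z0 v hv]⟩
  | succ m ih =>
    obtain ⟨k1, k2⟩ := ih (by omega)
    have e : wJ s (m + 1) = s m * wJ s m * (s m)⁻¹ * (s m * s m) := by
      rw [wJ]
      group
    refine ⟨e ▸ mul_mem ((Subgroup.mem_normalizer_iff.1 (h.nrm m hm) _).1 k1) (h.sq m hm), ?_⟩
    rw [e, wJ, k2, ← mul_assoc, h.tor v hv m hm _ k1, map_mul Θ _ (s m * s m), mul_assoc _ (Θ _),
      ← h.zs v hv m hm]
    simp only [mul_assoc]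

theorem Fam.eZ (h : Fam u n T s Θ τ Z ρ) {v : F} (hv : Gd u v) {m : ℕ} (hm : m ≤ n) :
    (∀ t ∈ T, Commute (Θ t) (wP (Z v) m)) ∧ wZ (τ v) m = Θ (wZ s m) * wP (Z v) m := by
  induction m with
  | zero => exact ⟨fun t _ => Commute.one_right _, by simp [wZ, wP]⟩
  | succ m ih =>
    obtain ⟨k1, k2⟩ := ih (by omega)
    obtain ⟨k3, k4⟩ := h.eJ hv hm
    refine ⟨fun t ht => (k1 t ht).mul_right (h.zt v hv _ hm t ht), ?_⟩
    rw [wZ, wZ, wP, k2, k4, map_mul, mul_assoc, ← mul_assoc (wP _ _), ← (k1 _ k3).eq]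
    simp only [mul_assoc]

/-- the normalised half twist. -/
def bT (n : ℕ) (τ : F → ℕ → A) (ρ : F → A) (v : F) : A := wH (τ v) n * ρ v

theorem Fam.b_sq (h : Fam u n T s Θ τ Z ρ) {v : F} (hv : Gd u v) :
    bT n τ ρ v * bT n τ ρ v = Θ (wH s n * wH s n) := by
  have c := (wH_comm (h.rt v hv)).eq
  rw [bT, mul_assoc, ← mul_assoc (ρ v), c, ← mul_assoc, ← mul_assoc, (h.bt v hv).wH_sq le_rfl,
    h.bs.wH_sq le_rfl, (h.eZ hv le_rfl).2, mul_assoc, mul_assoc, h.rr v hv, mul_one]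

theorem Fam.b_lk (h : Fam u n T s Θ τ Z ρ) {v : F} (hv : Gd u v) : Lk T Θ (wH s n) (bT n τ ρ v) :=
  ⟨(h.lkH hv le_rfl).1, fun t ht => by
    rw [bT, mul_assoc, ← (h.rT v hv t ht).eq, ← mul_assoc, (h.lkH hv le_rfl).2 t ht, mul_assoc]⟩

theorem Fam.b_t (h : Fam u n T s Θ τ Z ρ) {v : F} (hv : Gd u v) {i j : ℕ} (hij : i + j + 1 = n) :
    bT n τ ρ v * τ v i = τ v j * bT n τ ρ v := by
  rw [bT, mul_assoc, (h.rt v hv i (by omega)).eq, ← mul_assoc, (h.bt v hv).wH_s le_rfl hij,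
    mul_assoc]

theorem Fam.b_one (h : Fam u n T s Θ τ Z ρ) : bT n τ ρ 1 = Θ (wH s n) := by
  have kD : ∀ m ≤ n, wD (τ 1) m = Θ (wD s m) := fun m hm => by
    induction m with
    | zero => simp [wD]
    | succ m ih => rw [wD, wD, map_mul, ih (by omega), h.t1 m hm]
  have kH : ∀ m ≤ n, wH (τ 1) m = Θ (wH s m) := fun m hm => by
    induction m with
    | zero => simp [wH]
    | succ m ih => rw [wH, wH, map_mul, ih (by omega), kD _ hm]
  rw [bT, h.r1, mul_one, kH n le_rfl]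

theorem Fam.b_inv (h : Fam u n T s Θ τ Z ρ) {v : F} (hv : Gd u v) {t : N} (ht : t ∈ T) :
    Θ t * bT n τ ρ v = bT n τ ρ v * Θ ((wH s n)⁻¹ * t * wH s n) := by
  obtain ⟨k1, k2⟩ := h.b_lk hv
  have := (Subgroup.mem_normalizer_iff.1 (inv_mem k1) t).1 ht
  rw [inv_inv] at this
  rw [k2 _ this]
  congr 2
  group

/-- `γ` moves the family `f` by one torus element. -/
def Mv (u : F) (T : Subgroup N) (Θ : N →* A) (γ : A →+* A) (f : F → A) : Prop :=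
  ∃ w ∈ T, ∀ v, Gd u v → γ (f v) = Θ w * f v

omit [Algebra F A] in
theorem Mv.mul {γ : A →+* A} {f f' : F → A} {g : N} (h : Mv u T Θ γ f) (h' : Mv u T Θ γ f')
    (k : ∀ v, Gd u v → Lk T Θ g (f v)) : Mv u T Θ γ fun v => f v * f' v := by
  obtain ⟨w, hw, e⟩ := h
  obtain ⟨w', hw', e'⟩ := h'
  refine ⟨w * (g * w' * g⁻¹),
    mul_mem hw ((Subgroup.mem_normalizer_iff.1 (k 1 (Or.inl rfl)).1 _).1 hw'), fun v hv => ?_⟩
  rw [map_mul, e v hv, e' v hv, mul_assoc, ← mul_assoc (f v), (k v hv).2 _ hw', map_mul Θ w]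
  simp only [mul_assoc]

theorem Fam.mv (h : Fam u n T s Θ τ Z ρ) {γ : A →+* A} (k : ∀ i < n, Mv u T Θ γ fun v => τ v i)
    (kr : ∀ v, Gd u v → γ (ρ v) = ρ v) : Mv u T Θ γ (bT n τ ρ) := by
  have o : Mv u T Θ γ fun _ => 1 := ⟨1, one_mem _, fun v _ => by simp⟩
  have kD : ∀ m ≤ n, Mv u T Θ γ fun v => wD (τ v) m := fun m hm => by
    induction m with
    | zero => exact o
    | succ m ih => exact (k m hm).mul (ih (by omega)) fun v hv => h.lk hv hm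
  have kH : ∀ m ≤ n, Mv u T Θ γ fun v => wH (τ v) m := fun m hm => by
    induction m with
    | zero => exact o
    | succ m ih => exact (ih (by omega)).mul (kD _ hm) fun v hv => h.lkH hv (by omega)
  exact (kH n le_rfl).mul ⟨1, one_mem _, fun v hv => by rw [kr v hv, map_one, one_mul]⟩
    fun v hv => h.lkH hv le_rfl

/-- the unit `b` (half twist at `u`) and the natural unit `d`. -/
theorem Fam.flip [CharZero F] [Module.Finite F A] (h : Fam u n T s Θ τ Z ρ) :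
    ∃ b d : Aˣ, (b : A) = bT n τ ρ u ∧ d * Θ (wH s n) = b * d ∧ (∀ t ∈ T, Commute (Θ t) d) ∧
      ∀ γ : A →+* A, (∀ i < n, Mv u T Θ γ fun v => τ v i) → (∀ v, Gd u v → γ (ρ v) = ρ v) →
        γ d = d := by
  have gu : Gd u u := Or.inr (Or.inl rfl)
  obtain ⟨d, d1, d2, d3⟩ := flp (b := bT n τ ρ) (c := Θ.toHomUnits (wH s n * wH s n))
    (rg_mul (rg_wH h.gt1) h.gr1) (rg_mul (rg_wH h.gtu) h.gru) fun v hv => h.b_sq hv
  have ub : IsUnit (bT n τ ρ u) := fl_unit (c := Θ.toHomUnits (wH s n * wH s n)) (h.b_sq gu)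
  refine ⟨ub.unit, d, rfl, by rw [← h.b_one, d1, ub.unit_spec],
    fun t ht => d2 _ _ fun v hv => h.b_inv hv ht, fun γ k kr => ?_⟩
  obtain ⟨w, hw, e⟩ := h.mv k kr
  exact d3 γ _ _ (fun v hv => h.b_inv hv hw) e

end Pool.Agent.Lib.MP_1ae3da_al.CT.A
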